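import Pool.Agent.Lib.MP_45a27d_nt.UAlg

set_option autoImplicit false

namespace Pool.Agent.Lib.MP_45a27d_nt

open Polynomial

/-- `P` has positive degree because it has a root and is not zero; `0` is not a root because
otherwise `P = ± X` and `α = 0`; no root is a root of unity by `root_of_unity_all`. -/
theorem adm_of_alpha {U : Set ℂ} {P : ℤ[X]} (hP : Irreducible P) {α : ℂ} (hα : aeval α P = 0)
    (h0 : α ≠ 0) (h1 : ∀ n : ℕ, 0 < n → α ^ n ≠ 1)
    (hU : ∀ β : ℂ, aeval β P = 0 → β ∉ U) : Adm U P := by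
  refine ⟨hP, ?_, fun z hz => ⟨?_, ?_, hU z hz⟩⟩
  · by_contra hcon
    have hdeg : P.natDegree = 0 := by omega
    rw [eq_C_of_natDegree_eq_zero hdeg, aeval_C] at hα
    have h2 : P.coeff 0 = 0 := by
      have h3 : ((P.coeff 0 : ℤ) : ℂ) = 0 := by simpa using hα
      exact_mod_cast h3
    apply hP.ne_zero
    rw [eq_C_of_natDegree_eq_zero hdeg, h2, map_zero]
  · intro hz0
    rw [hz0] at hz
    have h2 : P.coeff 0 = 0 := by
      have h3 : ((P.coeff 0 : ℤ) : ℂ) = 0 := by
        rw [aeval_def, eval₂_at_zero] at hz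
        simpa using hz
      exact_mod_cast h3
    obtain ⟨u, hu⟩ := X_dvd_iff.2 h2
    rcases hP.isUnit_or_isUnit hu with h3 | h3
    · exact not_isUnit_X h3
    · rw [Polynomial.isUnit_iff] at h3
      obtain ⟨c, hc, hcu⟩ := h3
      rw [hu, ← hcu, map_mul, aeval_X, aeval_C] at hα
      rcases mul_eq_zero.1 hα with h4 | h4
      · exact h0 h4
      · have h5 : ((c : ℤ) : ℂ) = 0 := by simpa using h4
        have h6 : c = 0 := by exact_mod_cast h5
        rw [h6] at hc
        exact not_isUnit_zero hc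
  · intro n hn hzn
    exact h1 n hn (root_of_unity_all hP hz hα hzn)

theorem exists_root_of_adm {U : Set ℂ} {P : ℤ[X]} (h : Adm U P) : ∃ α : ℂ, aeval α P = 0 := by
  have hinj : Function.Injective (Int.castRingHom ℂ) := (Int.castRingHom ℂ).injective_int
  have hd : 0 < (P.map (Int.castRingHom ℂ)).degree := by
    rw [degree_map_eq_of_injective hinj]
    exact natDegree_pos_iff_degree_pos.1 h.2.1
  obtain ⟨α, hα⟩ := Complex.exists_root hd
  refine ⟨α, ?_⟩
  rw [IsRoot.def, eval_map] at hα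
  rw [aeval_def]
  exact hα

theorem adm_mono {U U' : Set ℂ} (hU : U ⊆ U') {P : ℤ[X]} (h : Adm U' P) : Adm U P :=
  ⟨h.1, h.2.1, fun z hz => ⟨(h.2.2 z hz).1, (h.2.2 z hz).2.1, fun hz' => (h.2.2 z hz).2.2 (hU hz')⟩⟩

theorem V_anti {a b : ℝ} (h : a ≤ b) : V b ⊆ V a := fun _ hz => ⟨hz.1, lt_of_le_of_lt h hz.2⟩

/-- `Polynomial.mahlerMeasure_eq_leadingCoeff_mul_prod_roots`. -/
theorem lM_eq (P : ℤ[X]) (hP : P ≠ 0) :
    lM P = Real.log (|(P.leadingCoeff : ℝ)| *
      ((P.map (Int.castRingHom ℂ)).roots.map (fun z => max 1 ‖z‖)).prod) := by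
  have hinj : Function.Injective (Int.castRingHom ℂ) := (Int.castRingHom ℂ).injective_int
  unfold lM
  rw [mahlerMeasure_eq_leadingCoeff_mul_prod_roots, leadingCoeff_map_of_injective hinj]
  congr 2
  rw [eq_intCast, Complex.norm_intCast]

end Pool.Agent.Lib.MP_45a27d_nt
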