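import Pool.Agent.Lib.MP_45a27d_nt.Conj

set_option autoImplicit false

namespace Pool.Agent.Lib.MP_45a27d_nt

open Polynomial

private theorem Bad_partner {P : ℤ[X]} {d : ℕ} {r : Fin d → ℂ} (h : IsFam P d r) (hP : Irreducible P)
    {p : ℕ} (hp : ∃ i j, i ≠ j ∧ r i ^ p = r j ^ p) (k : Fin d) :
    ∃ l, r l ≠ r k ∧ r l ^ p = r k ^ p := by
  obtain ⟨i, j, hij, hr⟩ := hp
  obtain ⟨τ, hτ, hF⟩ := fam_conj h hP i k
  have h1 := hF (MvPolynomial.X i ^ p - MvPolynomial.X j ^ p) (by
    rw [map_sub, map_pow, map_pow, MvPolynomial.aeval_X, MvPolynomial.aeval_X, hr, sub_self])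
  rw [map_sub, map_pow, map_pow, MvPolynomial.aeval_X, MvPolynomial.aeval_X, hτ] at h1
  refine ⟨τ j, fun h2 => ?_, (sub_eq_zero.1 h1).symm⟩
  have h3 := fam_inj h hP h2
  rw [← hτ] at h3
  exact hij (τ.injective h3).symm

/-- Bad primes are few. Call a prime `p` bad if `r_i^p = r_j^p` for some `i ≠ j`.
By `fam_conj` (relation `X_i^p - X_j^p`, `τ` injective) for a bad `p` EVERY root `β` has a
partner `γ ≠ β` among the roots with `γ^p = β^p`.
Then for a finite set `S` of bad primes and `n = ∏_{p ∈ S} p` the number of distinct values of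
`r_i^n` is at most `d / 2^|S|`, i.e. `2^|S| * card {r_i^n} ≤ d`: induction on `S`; adding
`p ∉ S`: if `γ ≠ β`, `γ^p = β^p` then `γ/β` has exact order `p`, and `p` does not divide `n`, so
`γ^n ≠ β^n` but `γ^(np) = β^(np)`; so every fibre of the surjection `{β^n} → {β^(np)}`,
`x ↦ x^p`, has at least two elements. At least one value exists because `0 < d`. -/
theorem fam_bad {P : ℤ[X]} {d : ℕ} {r : Fin d → ℂ} (h : IsFam P d r) (hP : Irreducible P)
    (hd : 0 < d) (h0 : ∀ i, r i ≠ 0) (S : Finset ℕ)
    (hS : ∀ p ∈ S, p.Prime ∧ ∃ i j, i ≠ j ∧ r i ^ p = r j ^ p) : 2 ^ S.card ≤ d := by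
  classical
  have key : 2 ^ S.card * ((Finset.univ : Finset (Fin d)).image (fun i => r i ^ (∏ p ∈ S, p))).card ≤ d := by
    induction S using Finset.induction_on with
    | empty =>
      rw [Finset.card_empty, pow_zero, one_mul]
      refine Finset.card_image_le.trans (le_of_eq ?_)
      rw [Finset.card_univ, Fintype.card_fin]
    | insert p S hp ih =>
      have ih' := ih fun q hq => hS q (Finset.mem_insert_of_mem hq)
      obtain ⟨hpp, hpb⟩ := hS p (Finset.mem_insert_self p S)
      rw [Finset.card_insert_of_notMem hp, Finset.prod_insert hp]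
      set n := ∏ q ∈ S, q with hn
      set A := (Finset.univ : Finset (Fin d)).image (fun i => r i ^ n) with hA
      have hpn : ¬ p ∣ n := by
        intro hdvd
        obtain ⟨q, hq, hpq⟩ := (Prime.dvd_finsetProd_iff hpp.prime _).1 hdvd
        have hq' := (hS q (Finset.mem_insert_of_mem hq)).1
        have : p = q := (Nat.prime_dvd_prime_iff_eq hpp hq').1 hpq
        exact hp (this ▸ hq)
      have e1 : (Finset.univ : Finset (Fin d)).image (fun i => r i ^ (p * n)) = A.image (fun x => x ^ p) := by
        rw [hA, Finset.image_image]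
        refine Finset.image_congr fun i _ => ?_
        show r i ^ (p * n) = (r i ^ n) ^ p
        rw [← pow_mul, mul_comm]
      have e2 : 2 * (A.image (fun x => x ^ p)).card ≤ A.card := by
        refine Finset.mul_card_image_le_card A 2 ?_
        intro y hy
        obtain ⟨x, hx, rfl⟩ := Finset.mem_image.1 hy
        obtain ⟨k, -, hk⟩ := Finset.mem_image.1 hx
        obtain ⟨l, hl1, hl2⟩ := Bad_partner h hP hpb k
        have hne : r l ^ n ≠ r k ^ n := by
          intro heq
          have hk0 := h0 k
          set ζ := r l / r k with hζ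
          have z1 : ζ ^ p = 1 := by
            rw [hζ, div_pow, hl2, div_self (pow_ne_zero _ hk0)]
          have z2 : ζ ^ n = 1 := by
            rw [hζ, div_pow, heq, div_self (pow_ne_zero _ hk0)]
          have hcop : Nat.Coprime p n := (Nat.Prime.coprime_iff_not_dvd hpp).2 hpn
          have z3 : orderOf ζ ∣ 1 := by
            have h3 := Nat.dvd_gcd (orderOf_dvd_of_pow_eq_one z1) (orderOf_dvd_of_pow_eq_one z2)
            rwa [hcop] at h3
          have z4 : ζ = 1 := by
            rw [← orderOf_eq_one_iff]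
            exact Nat.dvd_one.1 z3
          apply hl1
          rw [hζ, div_eq_one_iff_eq hk0] at z4
          exact z4
        have hsub : ({r l ^ n, r k ^ n} : Finset ℂ) ⊆ A.filter (fun a => a ^ p = x ^ p) := by
          intro z hz
          rw [Finset.mem_insert, Finset.mem_singleton] at hz
          rw [Finset.mem_filter]
          rcases hz with rfl | rfl
          · refine ⟨Finset.mem_image.2 ⟨l, Finset.mem_univ _, rfl⟩, ?_⟩
            rw [← hk, ← pow_mul, ← pow_mul, mul_comm n p, pow_mul, pow_mul, hl2]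
          · refine ⟨Finset.mem_image.2 ⟨k, Finset.mem_univ _, rfl⟩, ?_⟩
            rw [← hk]
        have hc := Finset.card_le_card hsub
        rwa [Finset.card_pair hne] at hc
      rw [e1]
      calc 2 ^ (S.card + 1) * (A.image (fun x => x ^ p)).card
          = 2 ^ S.card * (2 * (A.image (fun x => x ^ p)).card) := by ring
        _ ≤ 2 ^ S.card * A.card := Nat.mul_le_mul_left _ e2
        _ ≤ d := ih'
  have hpos : 1 ≤ ((Finset.univ : Finset (Fin d)).image (fun i => r i ^ (∏ p ∈ S, p))).card :=
    Finset.card_pos.2 (Finset.Nonempty.image ⟨⟨0, hd⟩, Finset.mem_univ _⟩ _)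
  calc 2 ^ S.card = 2 ^ S.card * 1 := (mul_one _).symm
    _ ≤ _ := Nat.mul_le_mul_left _ hpos
    _ ≤ d := key

end Pool.Agent.Lib.MP_45a27d_nt
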