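import Mathlib

set_option autoImplicit false

namespace Pool.Agent.Lib.MP_45a27d_nt

open Polynomial

private noncomputable def chG (a c : ℂ) : ℕ → ℂ[X]
  | 0 => C 2
  | 1 => X ^ 2 - C a * X + 1
  | (n + 2) => (X ^ 2 - C a * X + 1) * chG a c (n + 1) - C (c ^ 2) * X ^ 2 * chG a c n

private lemma quad_nd (a : ℂ) : (X ^ 2 - C a * X + 1 : ℂ[X]).natDegree = 2 := by
  compute_degree!

private lemma quad_monic (a : ℂ) : (X ^ 2 - C a * X + 1 : ℂ[X]).Monic := by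
  unfold Monic leadingCoeff
  rw [quad_nd]
  simp [coeff_X, coeff_one]

private lemma chG_deg (a c : ℂ) (i : ℕ) : (chG a c i).natDegree ≤ 2 * i ∧
    (chG a c (i + 1)).Monic ∧ (chG a c (i + 1)).natDegree = 2 * (i + 1) := by
  induction i with
  | zero =>
    refine ⟨?_, ?_, ?_⟩
    · show (C (2 : ℂ)).natDegree ≤ 0
      simp
    · exact quad_monic a
    · exact quad_nd a
  | succ i ih =>
    obtain ⟨h1, h2, h3⟩ := ih
    have hP : ((X ^ 2 - C a * X + 1) * chG a c (i + 1)).Monic := (quad_monic a).mul h2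
    have hPd : ((X ^ 2 - C a * X + 1) * chG a c (i + 1)).natDegree = 2 * (i + 1 + 1) := by
      rw [(quad_monic a).natDegree_mul h2, quad_nd, h3]
      ring
    have hQd : (C (c ^ 2) * X ^ 2 * chG a c i).natDegree ≤ 2 * (i + 1) := by
      refine natDegree_mul_le.trans ?_
      have h4 : (C (c ^ 2) * X ^ 2 : ℂ[X]).natDegree ≤ 2 := natDegree_C_mul_X_pow_le _ _
      omega
    have hlt : (C (c ^ 2) * X ^ 2 * chG a c i).natDegree <
        ((X ^ 2 - C a * X + 1) * chG a c (i + 1)).natDegree := by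
      rw [hPd]
      omega
    refine ⟨h3.le, ?_, ?_⟩
    · show ((X ^ 2 - C a * X + 1) * chG a c (i + 1) - C (c ^ 2) * X ^ 2 * chG a c i).Monic
      exact hP.sub_of_left (degree_lt_degree hlt)
    · show ((X ^ 2 - C a * X + 1) * chG a c (i + 1) -
        C (c ^ 2) * X ^ 2 * chG a c i).natDegree = _
      rw [natDegree_sub_eq_left_of_natDegree_lt hlt, hPd]

private lemma chG_eval (a c z u : ℂ) (hz : z ≠ 0) (hu : u ≠ 0)
    (h : c * (u + u⁻¹) = z + z⁻¹ - a) (i : ℕ) :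
    (chG a c i).eval z = z ^ i * c ^ i * (u ^ i + u⁻¹ ^ i) ∧
      (chG a c (i + 1)).eval z = z ^ (i + 1) * c ^ (i + 1) * (u ^ (i + 1) + u⁻¹ ^ (i + 1)) := by
  have hq : z ^ 2 - a * z + 1 = z * (c * (u + u⁻¹)) := by
    rw [h]
    field_simp
    ring
  have huu : u * u⁻¹ = 1 := mul_inv_cancel₀ hu
  induction i with
  | zero =>
    constructor
    · show (C (2 : ℂ)).eval z = _
      simp
      norm_num
    · show (X ^ 2 - C a * X + 1 : ℂ[X]).eval z = _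
      simp only [eval_add, eval_sub, eval_pow, eval_X, eval_mul, eval_C, eval_one]
      rw [hq]
      ring
  | succ i ih =>
    obtain ⟨h1, h2⟩ := ih
    refine ⟨h2, ?_⟩
    show ((X ^ 2 - C a * X + 1) * chG a c (i + 1) - C (c ^ 2) * X ^ 2 * chG a c i).eval z = _
    simp only [eval_add, eval_sub, eval_pow, eval_X, eval_mul, eval_C, eval_one]
    rw [h1, h2, hq]
    linear_combination (z ^ (i + 2) * c ^ (i + 2) * (u ^ i + u⁻¹ ^ i)) * huu

private noncomputable def chB (a c : ℂ) (i : ℕ) : ℂ[X] := if i = 0 then 1 else chG a c i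

private lemma chB_monic (a c : ℂ) (i : ℕ) :
    (chB a c i).Monic ∧ (chB a c i).natDegree = 2 * i := by
  unfold chB
  rcases i with _ | i
  · simp
  · simp only [Nat.succ_ne_zero, if_false]
    exact (chG_deg a c i).2

/-- Chebyshev polynomials of an arc. Let `c = (1+κ)/2 > 0`, `a = 1 - κ`. Define
`G 0 = 2`, `G 1 = X² - aX + 1`, `G (i+2) = (X² - aX + 1) G (i+1) - c² X² G i`. By induction
`G i (z) = z^i c^i (u^i + u^(-i))` whenever `z + z⁻¹ = a + c (u + u⁻¹)`, and `G i` is monic of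
degree `2i` for `i ≥ 1`. Put `B 0 = 1`, `B 1 = X`, `B (2i) = G i`, `B (2i+1) = X G i` (`i ≥ 1`).
Then `‖B j (z)‖ ≤ 2 c^(j/2) ‖z‖^((j+1)/2) ‖u‖^(j/2)` (integer division). -/
theorem cheb_polys {κ : ℝ} (hκ : -1 < κ) :
    ∃ B : ℕ → ℂ[X], (∀ j, (B j).Monic ∧ (B j).natDegree = j) ∧
      ∀ j (z u : ℂ), z ≠ 0 → 1 ≤ ‖u‖ →
        u + u⁻¹ = (z + z⁻¹ - (1 - (κ : ℂ))) / ((1 + (κ : ℂ)) / 2) →
        ‖(B j).eval z‖ ≤ 2 * ((1 + κ) / 2) ^ (j / 2) * ‖z‖ ^ ((j + 1) / 2) * ‖u‖ ^ (j / 2) := by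
  obtain ⟨c, hc⟩ : ∃ c : ℝ, c = (1 + κ) / 2 := ⟨_, rfl⟩
  have hc0 : 0 < c := by
    rw [hc]
    linarith
  have hcC : ((1 + (κ : ℂ)) / 2) = (c : ℂ) := by
    rw [hc]
    push_cast
    ring
  have hcne : (c : ℂ) ≠ 0 := by exact_mod_cast hc0.ne'
  have hB : ∀ i (z u : ℂ), z ≠ 0 → 1 ≤ ‖u‖ →
      u + u⁻¹ = (z + z⁻¹ - (1 - (κ : ℂ))) / (c : ℂ) →
      ‖(chB (1 - (κ : ℂ)) (c : ℂ) i).eval z‖ ≤ 2 * c ^ i * ‖z‖ ^ i * ‖u‖ ^ i := by
    intro i z u hz hu h
    have hu0 : u ≠ 0 := by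
      intro h0
      rw [h0, norm_zero] at hu
      linarith
    have h' : (c : ℂ) * (u + u⁻¹) = z + z⁻¹ - (1 - (κ : ℂ)) := by
      rw [h]
      field_simp
    unfold chB
    rcases Nat.eq_zero_or_pos i with hi | hi
    · subst hi
      simp
    · rw [if_neg hi.ne', (chG_eval _ _ z u hz hu0 h' i).1, norm_mul, norm_mul, norm_pow, norm_pow,
        Complex.norm_real, Real.norm_of_nonneg hc0.le]
      have h1 : ‖u ^ i + u⁻¹ ^ i‖ ≤ 2 * ‖u‖ ^ i := by
        refine (norm_add_le _ _).trans ?_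
        rw [norm_pow, norm_pow, norm_inv]
        have h2 : ‖u‖⁻¹ ^ i ≤ ‖u‖ ^ i :=
          pow_le_pow_left₀ (by positivity) ((inv_le_one_of_one_le₀ hu).trans hu) i
        linarith
      calc ‖z‖ ^ i * c ^ i * ‖u ^ i + u⁻¹ ^ i‖ ≤ ‖z‖ ^ i * c ^ i * (2 * ‖u‖ ^ i) :=
            mul_le_mul_of_nonneg_left h1 (by positivity)
        _ = 2 * c ^ i * ‖z‖ ^ i * ‖u‖ ^ i := by ring
  refine ⟨fun j => if j % 2 = 0 then chB (1 - (κ : ℂ)) (c : ℂ) (j / 2) else
    X * chB (1 - (κ : ℂ)) (c : ℂ) (j / 2), ?_, ?_⟩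
  · intro j
    obtain ⟨m1, m2⟩ := chB_monic (1 - (κ : ℂ)) (c : ℂ) (j / 2)
    by_cases hj : j % 2 = 0
    · simp only [hj, if_true]
      exact ⟨m1, by rw [m2]; omega⟩
    · simp only [hj, if_false]
      refine ⟨monic_X.mul m1, ?_⟩
      rw [monic_X.natDegree_mul m1, natDegree_X, m2]
      omega
  · intro j z u hz hu h
    rw [hcC] at h
    rw [← hc]
    have hb := hB (j / 2) z u hz hu h
    by_cases hj : j % 2 = 0
    · simp only [hj, if_true]
      have : (j + 1) / 2 = j / 2 := by omega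
      rw [this]
      exact hb
    · simp only [hj, if_false]
      have : (j + 1) / 2 = j / 2 + 1 := by omega
      rw [this, eval_mul, eval_X, norm_mul]
      calc ‖z‖ * ‖(chB (1 - (κ : ℂ)) (c : ℂ) (j / 2)).eval z‖ ≤
          ‖z‖ * (2 * c ^ (j / 2) * ‖z‖ ^ (j / 2) * ‖u‖ ^ (j / 2)) :=
            mul_le_mul_of_nonneg_left hb (norm_nonneg _)
        _ = _ := by ring

end Pool.Agent.Lib.MP_45a27d_nt
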