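import Pool.Agent.Lib.MP_45a27d_nt.Fam

set_option autoImplicit false

namespace Pool.Agent.Lib.MP_45a27d_nt

open Polynomial

private theorem conj_cast {P : ℤ[X]} (w : ℂ) (hw : aeval w P = 0) :
    aeval w (P.map (Int.castRingHom ℚ)) = 0 := by
  rw [aeval_def, eval₂_map]
  rw [aeval_def] at hw
  have e : (algebraMap ℚ ℂ).comp (Int.castRingHom ℚ) = algebraMap ℤ ℂ := by
    apply RingHom.ext_int
  rw [e]
  exact hw

/-- Transitivity of the Galois group on the roots of an irreducible polynomial, stated through
polynomial relations: there is a permutation `τ` of the index set with `τ i = j` such that every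
integer polynomial relation between the roots `r` also holds for `r ∘ τ`.
Proof: `P` is irreducible over `ℚ` (Gauss,
`Polynomial.IsPrimitive.Int.irreducible_iff_irreducible_map_cast`, positive degree because of
`i`); let `K = IntermediateField.adjoin ℚ (Set.range r)` (a splitting field of `P`, so normal
over `ℚ`); `isConjRoot_iff_exists_algEquiv` (or transitivity of `Polynomial.Gal`, or
`IntermediateField.exists_algHom_adjoin_of_splits`) gives a `ℚ`-automorphism of `K` sending
`r i` to `r j`; it permutes the roots of `P`, and `r` is injective (`fam_inj`). -/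
theorem fam_conj {P : ℤ[X]} {d : ℕ} {r : Fin d → ℂ} (h : IsFam P d r) (hP : Irreducible P)
    (i j : Fin d) :
    ∃ τ : Equiv.Perm (Fin d), τ i = j ∧
      ∀ F : MvPolynomial (Fin d) ℤ, MvPolynomial.aeval r F = 0 →
        MvPolynomial.aeval (fun k => r (τ k)) F = 0 := by
  have hinjr : Function.Injective r := fam_inj h hP
  have hroot : ∀ k, aeval (r k) P = 0 := fun k => (fam_root h (r k)).2 ⟨k, rfl⟩
  have hdeg : P.natDegree ≠ 0 := by
    rw [fam_natDegree h]
    intro h0
    subst h0
    exact i.elim0
  have hprim : P.IsPrimitive := hP.isPrimitive hdeg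
  have hirr : Irreducible (P.map (Int.castRingHom ℚ)) :=
    (IsPrimitive.Int.irreducible_iff_irreducible_map_cast hprim).1 hP
  have hint : ∀ k, IsIntegral ℚ (r k) := by
    intro k
    rw [← isAlgebraic_iff_isIntegral]
    exact ⟨P.map (Int.castRingHom ℚ), hirr.ne_zero, conj_cast _ (hroot k)⟩
  have hK : ∀ s ∈ Set.range r, IsIntegral ℚ s ∧
      ((minpoly ℚ s).map (algebraMap ℚ ℂ)).Splits := by
    rintro s ⟨k, rfl⟩
    exact ⟨hint k, IsAlgClosed.splits _⟩
  have hmem : ∀ k, r k ∈ IntermediateField.adjoin ℚ (Set.range r) := fun k =>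
    IntermediateField.subset_adjoin ℚ _ ⟨k, rfl⟩
  have hmin : aeval (r j) (minpoly ℚ (r i)) = 0 := by
    have h1 := minpoly.eq_of_irreducible hirr (conj_cast _ (hroot i))
    rw [← h1, map_mul, conj_cast _ (hroot j), zero_mul]
  obtain ⟨φ, hφ⟩ := IntermediateField.exists_algHom_adjoin_of_splits_of_aeval hK (hmem i) hmin
  -- `φ` permutes the roots
  have hφroot : ∀ k, aeval (φ ⟨r k, hmem k⟩) P = 0 := by
    intro k
    have h1 : aeval (⟨r k, hmem k⟩ : IntermediateField.adjoin ℚ (Set.range r)) P = 0 := by
      have h2 : ((aeval (⟨r k, hmem k⟩ : IntermediateField.adjoin ℚ (Set.range r)) P :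
          IntermediateField.adjoin ℚ (Set.range r)) : ℂ) = aeval (r k) P := by
        have := (aeval_algHom_apply
          ((IntermediateField.val (IntermediateField.adjoin ℚ (Set.range r))).restrictScalars ℤ)
          (⟨r k, hmem k⟩ : IntermediateField.adjoin ℚ (Set.range r)) P)
        exact this.symm
      rw [hroot k] at h2
      exact Subtype.ext h2
    have h3 := aeval_algHom_apply (φ.restrictScalars ℤ)
      (⟨r k, hmem k⟩ : IntermediateField.adjoin ℚ (Set.range r)) P
    rw [h1, map_zero] at h3
    exact h3
  have hex : ∀ k, ∃ l, r l = φ ⟨r k, hmem k⟩ := fun k => (fam_root h _).1 (hφroot k)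
  choose t ht using hex
  have htinj : Function.Injective t := by
    intro a b hab
    have h1 : φ ⟨r a, hmem a⟩ = φ ⟨r b, hmem b⟩ := by rw [← ht a, ← ht b, hab]
    have h2 := φ.injective h1
    exact hinjr (congrArg Subtype.val h2)
  refine ⟨Equiv.ofBijective t (Finite.injective_iff_bijective.1 htinj), ?_, ?_⟩
  · apply hinjr
    change r (t i) = r j
    rw [ht i, hφ]
  · intro F hF
    have e1 : (fun k => r ((Equiv.ofBijective t (Finite.injective_iff_bijective.1 htinj)) k)) =
        fun k => φ ⟨r k, hmem k⟩ := by
      funext k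
      exact ht k
    rw [e1]
    have h1 : MvPolynomial.aeval
        (fun k => (⟨r k, hmem k⟩ : IntermediateField.adjoin ℚ (Set.range r))) F = 0 := by
      have h2 := MvPolynomial.comp_aeval_apply
        (f := fun k => (⟨r k, hmem k⟩ : IntermediateField.adjoin ℚ (Set.range r)))
        ((IntermediateField.val (IntermediateField.adjoin ℚ (Set.range r))).restrictScalars ℤ) F
      apply Subtype.ext
      exact h2.trans hF
    have h3 := MvPolynomial.comp_aeval_apply
        (f := fun k => (⟨r k, hmem k⟩ : IntermediateField.adjoin ℚ (Set.range r)))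
        (φ.restrictScalars ℤ) F
    rw [h1, map_zero] at h3
    exact h3.symm

end Pool.Agent.Lib.MP_45a27d_nt
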