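import Mathlib

/-!
Lehmer-Langevin constants of angular sectors: basic definitions.
-/

set_option autoImplicit false

namespace Pool.Agent.Lib.MP_45a27d_nt

open Polynomial

/-- The open sector `V_θ` around the negative real axis: all `z = r e^{it}`, `r > 0`,
`-π < t ≤ π`, `|t| > θ`. -/
def V (θ : ℝ) : Set ℂ := {z | z ≠ 0 ∧ θ < |Complex.arg z|}

/-- Logarithm of the Mahler measure of an integer polynomial. -/
noncomputable def lM (P : ℤ[X]) : ℝ :=
  Real.log (P.map (Int.castRingHom ℂ)).mahlerMeasure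

/-- `P` is (up to sign) the minimal polynomial over `ℤ` of a nonzero algebraic number which is
not a root of unity and all of whose conjugates lie outside `U`. -/
def Adm (U : Set ℂ) (P : ℤ[X]) : Prop :=
  Irreducible P ∧ 0 < P.natDegree ∧
    ∀ z : ℂ, aeval z P = 0 → z ≠ 0 ∧ (∀ n : ℕ, 0 < n → z ^ n ≠ 1) ∧ z ∉ U

/-- `r` lists the complex roots of `P` (with multiplicity). -/
def IsFam (P : ℤ[X]) (d : ℕ) (r : Fin d → ℂ) : Prop :=
  P ≠ 0 ∧ P.map (Int.castRingHom ℂ) = C ((P.leadingCoeff : ℤ) : ℂ) * ∏ i, (X - C (r i))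

end Pool.Agent.Lib.MP_45a27d_nt
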