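import Pool.Agent.Lib.MP_45a27d_nt.FamInt

set_option autoImplicit false

namespace Pool.Agent.Lib.MP_45a27d_nt

open Polynomial Finset

/-- `a^(d-1) ∏_i P'(r_i) = a^(2d-1) ∏_{i ≠ j} (r_i - r_j)` is a nonzero integer (`fam_int` with
`Q = derivative P`, `m = d - 1`). -/
theorem disc_ge' {P : ℤ[X]} {d : ℕ} {r : Fin d → ℂ} (h : IsFam P d r) (hd : 0 < d)
    (hinj : Function.Injective r) :
    1 ≤ |(P.leadingCoeff : ℝ)| ^ (2 * d - 1) * ∏ i, ∏ j ∈ univ.erase i, ‖r i - r j‖ := by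
  have hdeg : (derivative P).natDegree ≤ d - 1 := by
    have := natDegree_derivative_le P
    rw [fam_natDegree h] at this
    exact this
  obtain ⟨z, hz⟩ := fam_int h (derivative P) (d - 1) hdeg
  have hlc : (P.leadingCoeff : ℂ) ≠ 0 := by
    exact_mod_cast leadingCoeff_ne_zero.mpr h.1
  have hder : ∀ i, aeval (r i) (derivative P) =
      (P.leadingCoeff : ℂ) * ∏ j ∈ univ.erase i, (r i - r j) := by
    intro i
    have e1 : aeval (r i) (derivative P) =
        (derivative (P.map (Int.castRingHom ℂ))).eval (r i) := by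
      rw [derivative_map, eval_map, aeval_def]
      rfl
    rw [e1, h.2, derivative_C_mul, eval_mul, eval_C, derivative_prod_finset, eval_finsetSum]
    congr 1
    rw [Finset.sum_eq_single i]
    · simp [eval_prod]
    · intro b _ hb
      rw [eval_mul, eval_prod]
      have : ∏ j ∈ univ.erase b, eval (r i) (X - C (r j)) = 0 :=
        Finset.prod_eq_zero (Finset.mem_erase.mpr ⟨hb.symm, Finset.mem_univ i⟩) (by simp)
      rw [this, zero_mul]
    · intro hi
      exact absurd (Finset.mem_univ i) hi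
  have hz2 : (P.leadingCoeff : ℂ) ^ (2 * d - 1) * ∏ i, ∏ j ∈ univ.erase i, (r i - r j) =
      (z : ℂ) := by
    rw [← hz]
    simp only [hder]
    rw [Finset.prod_mul_distrib, Finset.prod_const, Finset.card_univ, Fintype.card_fin,
      ← mul_assoc, ← pow_add]
    congr 2
    omega
  have hne : (z : ℂ) ≠ 0 := by
    rw [← hz2]
    apply mul_ne_zero (pow_ne_zero _ hlc)
    rw [Finset.prod_ne_zero_iff]
    intro i _
    rw [Finset.prod_ne_zero_iff]
    intro j hj
    rw [sub_ne_zero]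
    intro hij
    exact (Finset.mem_erase.mp hj).1 (hinj hij.symm)
  have hz0 : z ≠ 0 := by
    rintro rfl
    simp at hne
  have h1 : (1 : ℝ) ≤ |(z : ℝ)| := by
    exact_mod_cast Int.one_le_abs hz0
  have h2 : |(z : ℝ)| = |(P.leadingCoeff : ℝ)| ^ (2 * d - 1) *
      ∏ i, ∏ j ∈ univ.erase i, ‖r i - r j‖ := by
    have e : ‖(z : ℂ)‖ = |(z : ℝ)| := by
      rw [Complex.norm_intCast]
    rw [← e, ← hz2, norm_mul, norm_pow, norm_prod, Complex.norm_intCast]
    congr 1
    apply Finset.prod_congr rfl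
    intro i _
    rw [norm_prod]
  rw [← h2]
  exact h1

/-- `∑ log max(1, 1/‖r_i‖) = lM P - log |P(0)| ≤ lM P` when `P(0) ≠ 0`: indeed
`|P(0)| = |a| ∏ ‖r_i‖` and `log max(1,1/t) = log max(1,t) - log t`. -/
theorem sum_inv_le {P : ℤ[X]} {d : ℕ} {r : Fin d → ℂ} (h : IsFam P d r) (h0 : ∀ i, r i ≠ 0) :
    ∑ i, Real.log (max 1 ‖r i‖⁻¹) ≤ lM P := by
  have hlc : P.leadingCoeff ≠ 0 := leadingCoeff_ne_zero.mpr h.1
  have hlcR : |(P.leadingCoeff : ℝ)| ≠ 0 := by
    rw [abs_ne_zero]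
    exact_mod_cast hlc
  have hterm : ∀ i, Real.log (max 1 ‖r i‖⁻¹) = Real.log (max 1 ‖r i‖) - Real.log ‖r i‖ := by
    intro i
    have hp : 0 < ‖r i‖ := norm_pos_iff.mpr (h0 i)
    rcases le_total 1 ‖r i‖ with hh | hh
    · rw [max_eq_right hh, max_eq_left (inv_le_one_of_one_le₀ hh)]
      simp
    · rw [max_eq_left hh, max_eq_right ((one_le_inv₀ hp).mpr hh), Real.log_inv]
      simp
  simp only [hterm]
  rw [Finset.sum_sub_distrib, fam_lM h, ← Real.log_prod (fun i _ => norm_ne_zero_iff.mpr (h0 i))]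
  have he : aeval (0 : ℂ) P = (P.leadingCoeff : ℂ) * ∏ i, (0 - r i) := fam_eval h 0
  have he2 : aeval (0 : ℂ) P = ((P.coeff 0 : ℤ) : ℂ) := by
    rw [aeval_def, eval₂_eq_eval_map, ← coeff_zero_eq_eval_zero, coeff_map]
    rfl
  have hn : |((P.coeff 0 : ℤ) : ℝ)| = |(P.leadingCoeff : ℝ)| * ∏ i, ‖r i‖ := by
    rw [← Complex.norm_intCast, ← he2, he, norm_mul, norm_prod, Complex.norm_intCast]
    congr 1
    apply Finset.prod_congr rfl
    intro i _
    rw [zero_sub, norm_neg]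
  have hprod : ∏ i, ‖r i‖ ≠ 0 := by
    rw [Finset.prod_ne_zero_iff]
    intro i _
    exact norm_ne_zero_iff.mpr (h0 i)
  have hc0 : P.coeff 0 ≠ 0 := by
    intro hc
    rw [hc] at hn
    simp only [Int.cast_zero, abs_zero] at hn
    exact mul_ne_zero hlcR hprod hn.symm
  have h1 : (1 : ℝ) ≤ |((P.coeff 0 : ℤ) : ℝ)| := by
    exact_mod_cast Int.one_le_abs hc0
  have h2 : 0 ≤ Real.log (|(P.leadingCoeff : ℝ)| * ∏ i, ‖r i‖) := by
    rw [← hn]
    exact Real.log_nonneg h1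
  rw [Real.log_mul hlcR hprod] at h2
  linarith

end Pool.Agent.Lib.MP_45a27d_nt
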