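import Mathlib

set_option autoImplicit false

namespace Pool.Agent.Lib.MP_45a27d_nt

/-- Choice of parameters. Let `L = 1 + log d ≥ 1`, `k = ⌈B L⌉`, `X = ⌈A L^2⌉` with constants such
as `B = 10^3`, `A = 10^6` (take them larger if convenient). `Chebyshev.theta_ge` gives
`θ(X) ≥ X/2` for `X ≥ A`, and `(log d/log 2) log X ≤ (L / log 2) log X ≤ X/8` because
`L ≤ √(X/A)` and `log X ≤ √X`. Hence the left side is at least `(3/8) k X`. On the right
`log (d (k+X)) ≤ log d + log (2(A+B+2)) + 2 log L ≤ C₂ L` with `C₂ = 3 + log (2(A+B+2))`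
(about 18), so the first two terms are at most `(k^2 + X) C₂ L + (k + X) ≤ (3/16) k X`.
Therefore `m ≥ (3/16) k X / ((k+X)(k+X^2)) ≥ (3/64) k / X^2 ≥ c / L^3`. -/
theorem dob_num : ∃ c : ℝ, 0 < c ∧ ∀ d : ℕ, 1 ≤ d → ∀ m : ℝ, 0 ≤ m →
    (∀ k X : ℕ, 1 ≤ k → 2 ≤ X →
      (k : ℝ) * (Chebyshev.theta X - Real.log d / Real.log 2 * Real.log X) ≤
        ((k : ℝ) ^ 2 + X) * Real.log (d * (k + X)) + (k + X) +
          (k + X) * (k + (X : ℝ) ^ 2) * m) →
    c / (1 + Real.log d) ^ 3 ≤ m := by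
  refine ⟨3 / (256 * 10 ^ 13), by norm_num, ?_⟩
  intro d hd m hm h
  obtain ⟨L, hL⟩ : ∃ L : ℝ, L = 1 + Real.log d := ⟨_, rfl⟩
  have hd1 : (1 : ℝ) ≤ (d : ℝ) := by exact_mod_cast hd
  have hlogd : 0 ≤ Real.log d := Real.log_nonneg hd1
  have hL1 : 1 ≤ L := by linarith
  obtain ⟨k, hk⟩ : ∃ k : ℕ, k = ⌈1000 * L⌉₊ := ⟨_, rfl⟩
  obtain ⟨X, hX⟩ : ∃ X : ℕ, X = ⌈10 ^ 8 * L ^ 2⌉₊ := ⟨_, rfl⟩
  have hk1 : 1000 * L ≤ (k : ℝ) := by
    rw [hk]
    exact Nat.le_ceil _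
  have hk2 : (k : ℝ) ≤ 2000 * L := by
    have : (k : ℝ) < 1000 * L + 1 := by
      rw [hk]
      exact Nat.ceil_lt_add_one (by positivity)
    linarith
  have hL2 : 1 ≤ L ^ 2 := one_le_pow₀ hL1
  have hX1 : 10 ^ 8 * L ^ 2 ≤ (X : ℝ) := by
    rw [hX]
    exact Nat.le_ceil _
  have hX2 : (X : ℝ) ≤ 2 * 10 ^ 8 * L ^ 2 := by
    have : (X : ℝ) < 10 ^ 8 * L ^ 2 + 1 := by
      rw [hX]
      exact Nat.ceil_lt_add_one (by positivity)
    linarith
  have hkpos : (1 : ℝ) ≤ (k : ℝ) := by linarith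
  have hXpos : (10 : ℝ) ^ 8 ≤ (X : ℝ) := by nlinarith
  have hkN : 1 ≤ k := by exact_mod_cast hkpos
  have hXN : 2 ≤ X := by
    have : (2 : ℝ) ≤ (X : ℝ) := by linarith
    exact_mod_cast this
  have hLL : L ≤ L ^ 2 := by nlinarith
  have hkX : (k : ℝ) ≤ (X : ℝ) := by nlinarith
  have hmain := h k X hkN hXN
  -- the quartic root
  obtain ⟨q, hq⟩ : ∃ q : ℝ, q = Real.sqrt (Real.sqrt X) := ⟨_, rfl⟩
  have hX0 : (0 : ℝ) ≤ (X : ℝ) := Nat.cast_nonneg _
  have hs : Real.sqrt X = q ^ 2 := by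
    rw [hq, Real.sq_sqrt (Real.sqrt_nonneg _)]
  have hXq : (X : ℝ) = q ^ 4 := by
    have : (X : ℝ) = (Real.sqrt X) ^ 2 := (Real.sq_sqrt hX0).symm
    rw [this, hs]
    ring
  have hq0 : 0 ≤ q := by
    rw [hq]
    exact Real.sqrt_nonneg _
  have hq100 : 100 ≤ q := by
    rw [hq]
    apply Real.le_sqrt_of_sq_le
    apply Real.le_sqrt_of_sq_le
    calc ((100 : ℝ) ^ 2) ^ 2 = 10 ^ 8 := by norm_num
      _ ≤ _ := hXpos
  have hqpos : 0 < q := by linarith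
  have hlogX : Real.log X ≤ 4 * q := by
    rw [hXq, Real.log_pow]
    have := Real.log_le_sub_one_of_pos hqpos
    push_cast
    linarith
  have hlogX0 : 0 ≤ Real.log X := Real.log_nonneg (by linarith)
  have hln2 := Real.log_two_gt_d9
  have hln2' := Real.log_two_lt_d9
  have hlogX1 : Real.log ((X : ℝ) + 1) ≤ 5 * q := by
    have h1 : Real.log ((X : ℝ) + 1) ≤ Real.log (2 * X) :=
      Real.log_le_log (by linarith) (by linarith)
    rw [Real.log_mul (by norm_num) (by linarith)] at h1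
    linarith
  have hth := Chebyshev.theta_ge X
  rw [hs] at hth
  have hq3 : 0 < q ^ 3 := by positivity
  have hth2 : (X : ℝ) / 2 ≤ Chebyshev.theta X := by
    have h1 : 2 * q ^ 2 * Real.log X ≤ 8 * q ^ 3 := by
      calc 2 * q ^ 2 * Real.log X ≤ 2 * q ^ 2 * (4 * q) :=
            mul_le_mul_of_nonneg_left hlogX (by positivity)
        _ = 8 * q ^ 3 := by ring
    have h2 : q ^ 4 * 0.69 ≤ (X : ℝ) * Real.log 2 := by
      rw [hXq]
      exact mul_le_mul_of_nonneg_left (by linarith) (by positivity)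
    have h3 : 100 * q ^ 3 ≤ q ^ 4 := by
      calc 100 * q ^ 3 ≤ q * q ^ 3 := mul_le_mul_of_nonneg_right hq100 hq3.le
        _ = q ^ 4 := by ring
    have h4 : q ≤ q ^ 3 := by
      calc q = q * 1 := by ring
        _ ≤ q * q ^ 2 := mul_le_mul_of_nonneg_left (by nlinarith) hq0
        _ = q ^ 3 := by ring
    rw [hXq] at h2 ⊢
    rw [hXq] at hth hlogX1 h1
    linarith
  have hLq : L ≤ q ^ 2 / 10 ^ 4 := by
    have h1 : L ^ 2 ≤ (q ^ 2 / 10 ^ 4) ^ 2 := by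
      rw [div_pow]
      rw [le_div_iff₀ (by norm_num)]
      calc L ^ 2 * (10 ^ 4) ^ 2 = 10 ^ 8 * L ^ 2 := by ring
        _ ≤ (X : ℝ) := hX1
        _ = (q ^ 2) ^ 2 := by rw [hXq]; ring
    exact le_of_sq_le_sq h1 (by positivity)
  have hii : Real.log d / Real.log 2 * Real.log X ≤ X / 8 := by
    have h1 : Real.log d / Real.log 2 ≤ 2 * L := by
      rw [div_le_iff₀ (by linarith)]
      nlinarith
    calc Real.log d / Real.log 2 * Real.log X ≤ (2 * L) * (4 * q) :=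
          mul_le_mul h1 hlogX hlogX0 (by positivity)
      _ ≤ (2 * (q ^ 2 / 10 ^ 4)) * (4 * q) := by
          apply mul_le_mul_of_nonneg_right _ (by positivity)
          linarith
      _ = 8 / 10 ^ 4 * q ^ 3 := by ring
      _ ≤ q * q ^ 3 / 8 := by nlinarith
      _ = X / 8 := by rw [hXq]; ring
  have hlog : Real.log ((d : ℝ) * ((k : ℝ) + X)) ≤ 25 * L := by
    have hkX0 : 0 < (k : ℝ) + X := by linarith
    rw [Real.log_mul (by linarith) hkX0.ne']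
    have h1 : Real.log ((k : ℝ) + X) ≤ Real.log ((2 * (10 ^ 8 + 10 ^ 3)) * L ^ 2) := by
      apply Real.log_le_log hkX0
      nlinarith
    have h2 : Real.log ((2 * (10 ^ 8 + 10 ^ 3) : ℝ) * L ^ 2) =
        Real.log (2 * (10 ^ 8 + 10 ^ 3)) + 2 * Real.log L := by
      rw [Real.log_mul (by norm_num) (by positivity), Real.log_pow]
      push_cast
      ring
    have h3 : Real.log (2 * (10 ^ 8 + 10 ^ 3) : ℝ) ≤ 22 := by
      rw [Real.log_le_iff_le_exp (by norm_num)]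
      have h4 : Real.exp 22 = (Real.exp 1) ^ 22 := by
        rw [← Real.exp_nat_mul]
        norm_num
      rw [h4]
      have h5 : (2.7 : ℝ) ≤ Real.exp 1 := by linarith [Real.exp_one_gt_d9]
      have h6 : (2.7 : ℝ) ^ 22 ≤ (Real.exp 1) ^ 22 := pow_le_pow_left₀ (by norm_num) h5 22
      refine le_trans ?_ h6
      norm_num
    have h4 := Real.log_le_sub_one_of_pos (show (0 : ℝ) < L by linarith)
    have h5 : Real.log d = L - 1 := by linarith
    linarith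
  have hk32 : (1000 : ℝ) ≤ k := by linarith
  have hL0 : 0 < L := by linarith
  have hkk : 0 < (k : ℝ) := by linarith
  have hXX : 0 < (X : ℝ) := by linarith
  have hr1 : ((k : ℝ) ^ 2 + X) * Real.log ((d : ℝ) * ((k : ℝ) + X)) + (k + X) ≤
      3 / 16 * (k * X) := by
    have h1 : ((k : ℝ) ^ 2 + X) * Real.log ((d : ℝ) * ((k : ℝ) + X)) ≤
        ((k : ℝ) ^ 2 + X) * (25 * L) :=
      mul_le_mul_of_nonneg_left hlog (by positivity)
    have h2 : (k : ℝ) ^ 2 * (25 * L) ≤ k * (X / 16) := by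
      have h3 : (k : ℝ) * (25 * L) ≤ X / 16 := by
        calc (k : ℝ) * (25 * L) ≤ (2000 * L) * (25 * L) :=
              mul_le_mul_of_nonneg_right hk2 (by positivity)
          _ = 50000 * L ^ 2 := by ring
          _ ≤ X / 16 := by linarith
      calc (k : ℝ) ^ 2 * (25 * L) = k * (k * (25 * L)) := by ring
        _ ≤ _ := mul_le_mul_of_nonneg_left h3 hkk.le
    have h4 : (X : ℝ) * (25 * L) ≤ X * (k / 16) :=
      mul_le_mul_of_nonneg_left (by linarith) hXX.le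
    have h5 : (k : ℝ) + X ≤ 1 / 16 * (k * X) := by nlinarith
    calc _ ≤ ((k : ℝ) ^ 2 + X) * (25 * L) + (k + X) := by linarith
      _ = (k : ℝ) ^ 2 * (25 * L) + X * (25 * L) + (k + X) := by ring
      _ ≤ k * (X / 16) + X * (k / 16) + 1 / 16 * (k * X) := by linarith
      _ = _ := by ring
  have hlhs : 3 / 8 * (k * X : ℝ) ≤
      (k : ℝ) * (Chebyshev.theta X - Real.log d / Real.log 2 * Real.log X) := by
    calc 3 / 8 * (k * X : ℝ) = k * (3 / 8 * X) := by ring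
      _ ≤ _ := mul_le_mul_of_nonneg_left (by linarith) hkk.le
  have hfin : 3 / 16 * (k * X : ℝ) ≤ 4 * (X : ℝ) ^ 3 * m := by
    have h1 : 3 / 16 * (k * X : ℝ) ≤ ((k : ℝ) + X) * (k + (X : ℝ) ^ 2) * m := by
      linarith
    have h2 : ((k : ℝ) + X) * (k + (X : ℝ) ^ 2) ≤ (2 * X) * (2 * (X : ℝ) ^ 2) := by
      apply mul_le_mul (by linarith) _ (by positivity) (by positivity)
      nlinarith
    calc 3 / 16 * (k * X : ℝ) ≤ ((k : ℝ) + X) * (k + (X : ℝ) ^ 2) * m := h1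
      _ ≤ (2 * X) * (2 * (X : ℝ) ^ 2) * m := mul_le_mul_of_nonneg_right h2 hm
      _ = _ := by ring
  have hfin2 : 3 / 64 * (k : ℝ) ≤ (X : ℝ) ^ 2 * m := by
    have h1 : (X : ℝ) * (3 / 16 * (k : ℝ)) ≤ X * (4 * (X : ℝ) ^ 2 * m) := by
      calc (X : ℝ) * (3 / 16 * (k : ℝ)) = 3 / 16 * (k * X : ℝ) := by ring
        _ ≤ _ := hfin
        _ = _ := by ring
    have h2 := le_of_mul_le_mul_left h1 hXX
    linarith
  have hX4 : (X : ℝ) ^ 2 ≤ 4 * 10 ^ 16 * L ^ 4 := by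
    calc (X : ℝ) ^ 2 ≤ (2 * 10 ^ 8 * L ^ 2) ^ 2 := pow_le_pow_left₀ hX0 hX2 2
      _ = _ := by ring
  have hfin3 : 3 / 64 * (1000 * L) ≤ 4 * 10 ^ 16 * L ^ 4 * m := by
    calc 3 / 64 * (1000 * L) ≤ 3 / 64 * (k : ℝ) := by linarith
      _ ≤ (X : ℝ) ^ 2 * m := hfin2
      _ ≤ _ := mul_le_mul_of_nonneg_right hX4 hm
  rw [← hL, div_le_iff₀ (by positivity)]
  have h1 : L * (3 / 64 * 1000) ≤ L * (4 * 10 ^ 16 * L ^ 3 * m) := by
    calc L * (3 / 64 * 1000) = 3 / 64 * (1000 * L) := by ring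
      _ ≤ _ := hfin3
      _ = _ := by ring
  have h2 := le_of_mul_le_mul_left h1 hL0
  have h3 : (3 / (256 * 10 ^ 13) : ℝ) = 3 / 64 * 1000 / (4 * 10 ^ 16) := by norm_num
  rw [h3, div_le_iff₀ (by norm_num)]
  calc _ ≤ _ := h2
    _ = _ := by ring

end Pool.Agent.Lib.MP_45a27d_nt
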