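import Pool.Agent.Lib.MP_45a27d_nt.DobGood
import Pool.Agent.Lib.MP_45a27d_nt.DobNum

set_option autoImplicit false

namespace Pool.Agent.Lib.MP_45a27d_nt

open Polynomial

theorem lM_neg (P : ℤ[X]) : lM (-P) = lM P := by
  unfold lM
  rw [Polynomial.map_neg]
  have : -(P.map (Int.castRingHom ℂ)) = C (-1) * P.map (Int.castRingHom ℂ) := by simp
  rw [this, mahlerMeasure_mul, mahlerMeasure_const]
  simp

theorem log_lead_le_lM {P : ℤ[X]} (hP : P ≠ 0) : Real.log |(P.leadingCoeff : ℝ)| ≤ lM P := by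
  obtain ⟨r, hr⟩ := fam_exists P hP
  rw [fam_lM hr]
  have : 0 ≤ ∑ i, Real.log (max 1 ‖r i‖) :=
    Finset.sum_nonneg fun i _ => Real.log_nonneg (le_max_left _ _)
  linarith

/-- A weak form of Dobrowolski's theorem. For monic `P`: `dob_good` and `dob_num`; for
`-P` monic pass to `-P`; if the leading coefficient is at least two in absolute value then
`lM P ≥ log 2`. -/
theorem dobrowolski : ∃ c : ℝ, 0 < c ∧ ∀ P : ℤ[X], Irreducible P → 0 < P.natDegree →
    (∀ z : ℂ, aeval z P = 0 → z ≠ 0 ∧ ∀ n : ℕ, 0 < n → z ^ n ≠ 1) →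
    c / (1 + Real.log P.natDegree) ^ 3 ≤ lM P := by
  obtain ⟨c₀, hc₀, hnum⟩ := dob_num
  have hlog2 : 0 < Real.log 2 := Real.log_pos (by norm_num)
  refine ⟨min c₀ (Real.log 2), lt_min hc₀ hlog2, ?_⟩
  have hmonic : ∀ P : ℤ[X], P.Monic → Irreducible P → 0 < P.natDegree →
    (∀ z : ℂ, aeval z P = 0 → z ≠ 0 ∧ ∀ n : ℕ, 0 < n → z ^ n ≠ 1) →
    min c₀ (Real.log 2) / (1 + Real.log P.natDegree) ^ 3 ≤ lM P := by
    intro P hmon hP hd hroots
    obtain ⟨r, hr⟩ := fam_exists P hmon.ne_zero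
    have hlM0 : 0 ≤ lM P := by
      have := log_lead_le_lM hmon.ne_zero
      rw [hmon.leadingCoeff] at this
      simpa using this
    have h0 : ∀ i, r i ≠ 0 := fun i => (hroots (r i) ((fam_root hr _).2 ⟨i, rfl⟩)).1
    have h1 : ∀ i, ∀ n : ℕ, 0 < n → r i ^ n ≠ 1 :=
      fun i => (hroots (r i) ((fam_root hr _).2 ⟨i, rfl⟩)).2
    have h2 := hnum P.natDegree hd (lM P) hlM0
      (fun k X hk hX => dob_good hr hmon hP hd h0 h1 k X hk hX)
    refine le_trans ?_ h2
    have hlog : 0 ≤ Real.log P.natDegree := Real.log_natCast_nonneg _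
    apply div_le_div_of_nonneg_right (min_le_left _ _)
    positivity
  intro P hP hd hroots
  have hlog : 0 ≤ Real.log P.natDegree := Real.log_natCast_nonneg _
  by_cases h1 : P.leadingCoeff = 1
  · exact hmonic P h1 hP hd hroots
  by_cases h2 : P.leadingCoeff = -1
  · have hm : (-P).Monic := by
      rw [Polynomial.Monic, Polynomial.leadingCoeff_neg, h2, neg_neg]
    have h3 := hmonic (-P) hm ((Associated.neg_left (Associated.refl P)).irreducible_iff.2 hP) (by rwa [natDegree_neg]) (fun z hz => hroots z (by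
      rw [map_neg, neg_eq_zero] at hz; exact hz))
    rwa [natDegree_neg, lM_neg] at h3
  · have h3 : 2 ≤ |P.leadingCoeff| := by
      have h4 : P.leadingCoeff ≠ 0 := leadingCoeff_ne_zero.2 hP.ne_zero
      have h5 := Int.one_le_abs h4
      rcases lt_or_eq_of_le h5 with h6 | h6
      · omega
      · exfalso
        rcases (abs_eq (by norm_num : (0 : ℤ) ≤ 1)).1 h6.symm with h7 | h7
        · exact h1 h7
        · exact h2 h7
    have h4 : (2 : ℝ) ≤ |(P.leadingCoeff : ℝ)| := by exact_mod_cast h3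
    have h5 := log_lead_le_lM hP.ne_zero
    have h6 : Real.log 2 ≤ Real.log |(P.leadingCoeff : ℝ)| := Real.log_le_log (by norm_num) h4
    have h7 : 1 ≤ (1 + Real.log P.natDegree) ^ 3 := one_le_pow₀ (by linarith)
    have h8 : min c₀ (Real.log 2) / (1 + Real.log P.natDegree) ^ 3 ≤ min c₀ (Real.log 2) :=
      div_le_self (lt_min hc₀ hlog2).le h7
    have h9 : min c₀ (Real.log 2) ≤ Real.log 2 := min_le_right _ _
    linarith

end Pool.Agent.Lib.MP_45a27d_nt
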