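import Pool.Agent.Lib.MP_45a27d_nt.Defs

set_option autoImplicit false

namespace Pool.Agent.Lib.MP_45a27d_nt

/-- The points of the Dobrowolski determinant: the roots `r i` and the powers `r i ^ p`, `p ∈ S`. -/
def xx {d : ℕ} (r : Fin d → ℂ) (S : Finset ℕ) : Fin d ⊕ (S × Fin d) → ℂ
  | Sum.inl i => r i
  | Sum.inr a => r a.2 ^ (a.1 : ℕ)

/-- Their multiplicities. -/
def ww (d : ℕ) (S : Finset ℕ) (k : ℕ) : Fin d ⊕ (S × Fin d) → ℕ
  | Sum.inl _ => k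
  | Sum.inr _ => 1

end Pool.Agent.Lib.MP_45a27d_nt
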