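import Pool.Agent.Lib.MP_45a27d_nt.Fam

set_option autoImplicit false

namespace Pool.Agent.Lib.MP_45a27d_nt

open Polynomial

private theorem fp_sym {d : ℕ} {r : Fin d → ℂ} {c : ℕ → ℤ}
    (hc : ∀ k, k ≤ d → (Finset.univ.val.map r).esymm k = ((c k : ℤ) : ℂ))
    {q : MvPolynomial (Fin d) ℤ} (hq : q.IsSymmetric) :
    ∃ z : ℤ, MvPolynomial.aeval r q = (z : ℂ) := by
  obtain ⟨t, ht⟩ := MvPolynomial.esymmAlgHom_surjective (σ := Fin d) (R := ℤ) (n := d)
    (by simp) ⟨q, hq⟩
  have h1 : q = MvPolynomial.aeval (fun i : Fin d => MvPolynomial.esymm (Fin d) ℤ (i + 1)) t := by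
    have h2 := congrArg Subtype.val ht
    rw [MvPolynomial.esymmAlgHom_apply] at h2
    exact h2.symm
  refine ⟨MvPolynomial.aeval (fun i : Fin d => c (i + 1)) t, ?_⟩
  have h3 : (fun i : Fin d => MvPolynomial.aeval r (MvPolynomial.esymm (Fin d) ℤ (i + 1))) =
      fun i : Fin d => (Algebra.ofId ℤ ℂ) (c (i + 1)) := by
    funext i
    rw [MvPolynomial.aeval_esymm_eq_multiset_esymm, hc _ (by omega)]
    rfl
  rw [h1, MvPolynomial.comp_aeval_apply, h3, ← MvPolynomial.comp_aeval_apply]
  rfl

private theorem fp_coeff {P : ℤ[X]} {d : ℕ} {r : Fin d → ℂ} (h : IsFam P d r) (hmon : P.Monic)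
    {k : ℕ} (hk : k ≤ d) :
    (Finset.univ.val.map r).esymm k = (((-1) ^ k * P.coeff (d - k) : ℤ) : ℂ) := by
  have h1 := h.2
  rw [hmon.leadingCoeff] at h1
  have h2 := congrArg (fun q => q.coeff (d - k)) h1
  have h3 : (Finset.univ.val.map r).card = d := by simp
  have h4 := Multiset.prod_X_sub_C_coeff (Finset.univ.val.map r) (k := d - k)
    (by rw [h3]; omega)
  rw [h3, Multiset.map_map] at h4
  have h5 : d - (d - k) = k := by omega
  rw [h5] at h4
  have h6 : (∏ i, (X - C (r i)) : ℂ[X]) =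
      (Multiset.map ((fun t => X - C t) ∘ r) Finset.univ.val).prod := rfl
  rw [← h6] at h4
  simp only [Int.cast_one, map_one, one_mul, coeff_map] at h2
  rw [h4] at h2
  push_cast
  have h7 : (P.coeff (d - k) : ℂ) = (-1) ^ k * (Finset.univ.val.map r).esymm k := by
    rw [← h2]
    rfl
  rw [h7, ← mul_assoc, ← mul_pow]
  simp

/-- For monic `P` with roots `r_i` the polynomial `∏ (X - r_i^n)` has integer coefficients.
Possible proofs: (a) its coefficients are symmetric polynomials over `ℤ` in the `r_i`, hence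
integer polynomials in the elementary symmetric functions
(`MvPolynomial.esymmAlgEquiv`/`MvPolynomial.esymmAlgHom` surjective onto the symmetric
subalgebra), which are integers up to sign (coefficients of `P`);
(b) characteristic polynomial of the `n`-th power of the companion matrix;
(c) `∏ (X - r_i^n)` evaluated at integers `x` is `± Res(P, Y^n - x)`, a polynomial in `x` over
`ℤ`: the resultant of `P(Y)` (mapped to `ℤ[X][Y]`) and `Y^n - X` over the ring `ℤ[X]`, use
`Polynomial.resultant_map_map` and `Polynomial.resultant_eq_prod_eval` over `ℂ(X)` or `ℂ[X]`. -/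
theorem fam_pow {P : ℤ[X]} {d : ℕ} {r : Fin d → ℂ} (h : IsFam P d r) (hmon : P.Monic)
    (n : ℕ) :
    ∃ Q : ℤ[X], Q.Monic ∧ IsFam Q d (fun i => r i ^ n) := by
  have hlift : (∏ i, (X - C (r i ^ n)) : ℂ[X]) ∈ Polynomial.lifts (Int.castRingHom ℂ) := by
    rw [Polynomial.lifts_iff_coeff_lifts]
    intro k
    set F : (MvPolynomial (Fin d) ℤ)[X] := ∏ i, (X - C (MvPolynomial.X i ^ n)) with hF
    have hsym : (F.coeff k).IsSymmetric := by
      intro e
      have h1 : F.map (MvPolynomial.rename e : MvPolynomial (Fin d) ℤ →ₐ[ℤ] _).toRingHom = F := by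
        rw [hF, Polynomial.map_prod]
        simp only [Polynomial.map_sub, Polynomial.map_X, Polynomial.map_C]
        have h2 : ∀ i : Fin d, (X - C ((MvPolynomial.rename e : MvPolynomial (Fin d) ℤ →ₐ[ℤ] _).toRingHom
            (MvPolynomial.X i ^ n)) : (MvPolynomial (Fin d) ℤ)[X]) =
            X - C (MvPolynomial.X (e i) ^ n) := by
          intro i
          congr 2
          simp
        simp only [h2]
        exact Equiv.prod_comp e (fun i => (X - C (MvPolynomial.X i ^ n) : (MvPolynomial (Fin d) ℤ)[X]))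
      have h3 := congrArg (fun q => q.coeff k) h1
      simp only [Polynomial.coeff_map] at h3
      exact h3
    obtain ⟨z, hz⟩ := fp_sym (c := fun k => (-1) ^ k * P.coeff (d - k))
      (fun k hk => fp_coeff h hmon hk) hsym
    refine ⟨z, ?_⟩
    have h1 : F.map (MvPolynomial.aeval r : MvPolynomial (Fin d) ℤ →ₐ[ℤ] ℂ).toRingHom =
        ∏ i, (X - C (r i ^ n)) := by
      rw [hF, Polynomial.map_prod]
      refine Finset.prod_congr rfl fun i _ => ?_
      simp only [Polynomial.map_sub, Polynomial.map_X, Polynomial.map_C]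
      congr 2
      simp
    rw [← h1, Polynomial.coeff_map]
    exact hz.symm
  have hm : (∏ i, (X - C (r i ^ n)) : ℂ[X]).Monic := monic_prod_of_monic _ _ fun i _ => monic_X_sub_C _
  obtain ⟨Q, h1, -, h3⟩ := Polynomial.lifts_and_natDegree_eq_and_monic hlift hm
  refine ⟨Q, h3, h3.ne_zero, ?_⟩
  rw [h3.leadingCoeff, h1]
  simp

end Pool.Agent.Lib.MP_45a27d_nt
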