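import Pool.Agent.Lib.MP_45a27d_nt.FamInt
import Pool.Agent.Lib.MP_45a27d_nt.FamPow

set_option autoImplicit false

namespace Pool.Agent.Lib.MP_45a27d_nt

open Polynomial Finset

private theorem int_norm_ge {z : ℤ} {x : ℂ} (h : x = (z : ℂ)) (hx : x ≠ 0) : 1 ≤ ‖x‖ := by
  rw [h, Complex.norm_intCast]
  have hz : z ≠ 0 := by
    rintro rfl
    apply hx
    rw [h]; simp
  exact_mod_cast Int.one_le_abs hz

/-- `∏_{i ≠ j} (r_i - r_j) = ∏_i P'(r_i)` is an integer (`fam_int` with `Q = derivative P`),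
nonzero because `r` is injective. -/
theorem disc_ge {P : ℤ[X]} {d : ℕ} {r : Fin d → ℂ} (h : IsFam P d r) (hmon : P.Monic)
    (hinj : Function.Injective r) :
    1 ≤ ∏ i, ∏ j ∈ univ.erase i, ‖r i - r j‖ := by
  have hev : ∀ i, aeval (r i) (derivative P) = ∏ j ∈ univ.erase i, (r i - r j) := by
    intro i
    have h1 : aeval (r i) (derivative P) =
        eval (r i) (derivative (P.map (Int.castRingHom ℂ))) := by
      rw [derivative_map, eval_map, aeval_def]
      rfl
    rw [h1, h.2, hmon.leadingCoeff]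
    simp only [Int.cast_one, map_one, one_mul]
    rw [derivative_prod_finset, eval_finsetSum, Finset.sum_eq_single i]
    · rw [eval_mul, eval_prod]
      simp
    · intro b _ hb
      rw [eval_mul, eval_prod]
      rw [Finset.prod_eq_zero (i := i)]
      · simp
      · exact Finset.mem_erase.2 ⟨hb.symm, mem_univ i⟩
      · simp
    · intro hi
      exact absurd (mem_univ i) hi
  obtain ⟨z, hz⟩ := fam_int h (derivative P) _ le_rfl
  rw [hmon.leadingCoeff] at hz
  simp only [Int.cast_one, one_pow, one_mul] at hz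
  rw [Finset.prod_congr rfl fun i _ => hev i] at hz
  have hne : ∏ i, ∏ j ∈ univ.erase i, (r i - r j) ≠ 0 := by
    rw [Finset.prod_ne_zero_iff]
    intro i _
    rw [Finset.prod_ne_zero_iff]
    intro j hj
    rw [sub_ne_zero]
    intro hij
    exact (Finset.ne_of_mem_erase hj) (hinj hij).symm
  have := int_norm_ge hz hne
  simpa [norm_prod] using this

/-- `∏_{i,j} (r_j^p - r_i) = ∏_j P(r_j^p)` is `p^d` times an integer (`fam_frob`), nonzero by
assumption. -/
theorem frob_ge {P : ℤ[X]} {d : ℕ} {r : Fin d → ℂ} (h : IsFam P d r) (hmon : P.Monic)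
    {p : ℕ} (hp : p.Prime) (hne : ∀ i j, r i ≠ r j ^ p) :
    (p : ℝ) ^ d ≤ ∏ i, ∏ j, ‖r i - r j ^ p‖ := by
  obtain ⟨z, hz⟩ := fam_frob h hmon hp
  have hev : ∀ j, aeval (r j ^ p) P = ∏ i, (r j ^ p - r i) := by
    intro j
    rw [fam_eval h, hmon.leadingCoeff]
    simp
  rw [Finset.prod_congr rfl fun i _ => hev i] at hz
  have hne' : ∏ j, ∏ i, (r j ^ p - r i) ≠ 0 := by
    rw [Finset.prod_ne_zero_iff]
    intro j _
    rw [Finset.prod_ne_zero_iff]
    intro i _
    rw [sub_ne_zero]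
    exact (hne i j).symm
  have hz0 : z ≠ 0 := by
    rintro rfl
    apply hne'
    rw [hz]; simp
  have h1 : ∏ i, ∏ j, ‖r i - r j ^ p‖ = ‖∏ j, ∏ i, (r j ^ p - r i)‖ := by
    rw [norm_prod, Finset.prod_comm]
    apply Finset.prod_congr rfl
    intro j _
    rw [norm_prod]
    apply Finset.prod_congr rfl
    intro i _
    rw [norm_sub_rev]
  rw [h1, hz, norm_mul, norm_pow, Complex.norm_natCast, Complex.norm_intCast]
  have h2 : (1 : ℝ) ≤ |(z : ℝ)| := by exact_mod_cast Int.one_le_abs hz0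
  have h3 : (0 : ℝ) ≤ (p : ℝ) ^ d := by positivity
  nlinarith

/-- With `Q = ∏ (X - r_j^q)` (`fam_pow`), `∏_{i,j} (r_i^p - r_j^q) = ∏_i Q(r_i^p)` is an integer
(`fam_int` applied to `Q(X^p)`), nonzero by assumption. -/
theorem cross_ge {P : ℤ[X]} {d : ℕ} {r : Fin d → ℂ} (h : IsFam P d r) (hmon : P.Monic)
    (p q : ℕ) (hne : ∀ i j, r i ^ p ≠ r j ^ q) :
    1 ≤ ∏ i, ∏ j, ‖r i ^ p - r j ^ q‖ := by
  obtain ⟨Q, hQ, hQf⟩ := fam_pow h hmon q
  obtain ⟨z, hz⟩ := fam_int h (Q.comp (X ^ p)) _ le_rfl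
  rw [hmon.leadingCoeff] at hz
  simp only [Int.cast_one, one_pow, one_mul] at hz
  have hev : ∀ i, aeval (r i) (Q.comp (X ^ p)) = ∏ j, (r i ^ p - r j ^ q) := by
    intro i
    rw [aeval_comp]
    simp only [map_pow, aeval_X]
    rw [fam_eval hQf, hQ.leadingCoeff]
    simp
  rw [Finset.prod_congr rfl fun i _ => hev i] at hz
  have hne' : ∏ i, ∏ j, (r i ^ p - r j ^ q) ≠ 0 := by
    rw [Finset.prod_ne_zero_iff]
    intro i _
    rw [Finset.prod_ne_zero_iff]
    intro j _
    rw [sub_ne_zero]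
    exact hne i j
  have := int_norm_ge hz hne'
  simpa [norm_prod] using this

end Pool.Agent.Lib.MP_45a27d_nt
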