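import Pool.Agent.Lib.MP_45a27d_nt.DobIneq
import Pool.Agent.Lib.MP_45a27d_nt.Bad

set_option autoImplicit false

namespace Pool.Agent.Lib.MP_45a27d_nt

open Polynomial Finset

/-- `dob_ineq` for the set `S` of the good primes `p ≤ X`. By `fam_bad` there are at most
`log d / log 2` bad primes, so `∑_{p ∈ S} log p ≥ θ(X) - (log d / log 2) log X`; and
`|S| ≤ X`, `∑_{p ∈ S} p ≤ X^2`. (`Chebyshev.theta_eq_sum_Icc`.) -/
theorem dob_good {P : ℤ[X]} {d : ℕ} {r : Fin d → ℂ} (h : IsFam P d r) (hmon : P.Monic)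
    (hP : Irreducible P) (hd : 0 < d) (h0 : ∀ i, r i ≠ 0)
    (h1 : ∀ i, ∀ n : ℕ, 0 < n → r i ^ n ≠ 1) (k X : ℕ) (hk : 1 ≤ k) (hX : 2 ≤ X) :
    (k : ℝ) * (Chebyshev.theta X - Real.log d / Real.log 2 * Real.log X) ≤
      ((k : ℝ) ^ 2 + X) * Real.log (d * (k + X)) + (k + X) +
        (k + X) * (k + (X : ℝ) ^ 2) * lM P := by
  classical
  set T : Finset ℕ := (Finset.Icc 0 X).filter Nat.Prime with hT
  set G : Finset ℕ := T.filter fun p => ∀ i j, i ≠ j → r i ^ p ≠ r j ^ p with hG
  set B : Finset ℕ := T.filter fun p => ¬ ∀ i j, i ≠ j → r i ^ p ≠ r j ^ p with hB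
  have hGT : G ⊆ T := Finset.filter_subset _ _
  have hBT : B ⊆ T := Finset.filter_subset _ _
  have hTp : ∀ p ∈ T, p.Prime ∧ p ≤ X := by
    intro p hp
    rw [hT, Finset.mem_filter, Finset.mem_Icc] at hp
    exact ⟨hp.2, hp.1.2⟩
  have hTX : T.card ≤ X := by
    have : T ⊆ Finset.Icc 1 X := by
      intro p hp
      have := hTp p hp
      rw [Finset.mem_Icc]
      exact ⟨this.1.one_lt.le, this.2⟩
    calc T.card ≤ (Finset.Icc 1 X).card := Finset.card_le_card this
      _ = X := by simp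
  have hGX : G.card ≤ X := (Finset.card_le_card hGT).trans hTX
  have hXpos : (1 : ℝ) ≤ X := by exact_mod_cast (by omega : 1 ≤ X)
  have hkpos : (1 : ℝ) ≤ k := by exact_mod_cast hk
  have hdpos : (1 : ℝ) ≤ d := by exact_mod_cast hd
  have hGXr : (G.card : ℝ) ≤ X := by exact_mod_cast hGX
  have hGsum : ∑ p ∈ G, (p : ℝ) ≤ (X : ℝ) ^ 2 := by
    calc ∑ p ∈ G, (p : ℝ) ≤ ∑ p ∈ G, (X : ℝ) := by
          apply Finset.sum_le_sum
          intro p hp
          exact_mod_cast (hTp p (hGT hp)).2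
      _ = G.card * (X : ℝ) := by rw [Finset.sum_const, nsmul_eq_mul]
      _ ≤ X * X := by
          apply mul_le_mul_of_nonneg_right hGXr
          linarith
      _ = (X : ℝ) ^ 2 := by ring
  have hGs0 : 0 ≤ ∑ p ∈ G, (p : ℝ) := Finset.sum_nonneg fun p _ => Nat.cast_nonneg p
  have hlM : 0 ≤ lM P := by
    rw [lM]
    apply Real.log_nonneg
    apply one_le_mahlerMeasure_of_one_le_norm_leadingCoeff
    rw [(hmon.map (Int.castRingHom ℂ)).leadingCoeff]
    simp
  -- the bad primes
  have hBcard : 2 ^ B.card ≤ d := by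
    apply fam_bad h hP hd h0 B
    intro p hp
    rw [hB, Finset.mem_filter] at hp
    refine ⟨(hTp p hp.1).1, ?_⟩
    have h2 := hp.2
    push Not at h2
    exact h2
  have hBlog : (B.card : ℝ) ≤ Real.log d / Real.log 2 := by
    rw [le_div_iff₀ (Real.log_pos (by norm_num)), ← Real.log_pow]
    apply Real.log_le_log (by positivity)
    exact_mod_cast hBcard
  have htheta : Chebyshev.theta X = ∑ p ∈ T, Real.log p := by
    rw [Chebyshev.theta_eq_sum_Icc, Nat.floor_natCast]
  have hsplit : ∑ p ∈ T, Real.log p = ∑ p ∈ G, Real.log p + ∑ p ∈ B, Real.log p := by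
    rw [hG, hB, Finset.sum_filter_add_sum_filter_not]
  have hBsum : ∑ p ∈ B, Real.log (p : ℝ) ≤ Real.log d / Real.log 2 * Real.log X := by
    calc ∑ p ∈ B, Real.log (p : ℝ) ≤ ∑ p ∈ B, Real.log (X : ℝ) := by
          apply Finset.sum_le_sum
          intro p hp
          have := hTp p (hBT hp)
          apply Real.log_le_log
          · exact_mod_cast this.1.pos
          · exact_mod_cast this.2
      _ = B.card * Real.log X := by rw [Finset.sum_const, nsmul_eq_mul]
      _ ≤ Real.log d / Real.log 2 * Real.log X :=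
          mul_le_mul_of_nonneg_right hBlog (Real.log_nonneg hXpos)
  have hmain := dob_ineq h hmon hP hd h0 h1 G (by
    intro p hp
    have hp' := hp
    rw [hG, Finset.mem_filter] at hp'
    exact ⟨(hTp p hp'.1).1, hp'.2⟩) k (by omega)
  have hleft : (k : ℝ) * (Chebyshev.theta X - Real.log d / Real.log 2 * Real.log X) ≤
      (k : ℝ) * ∑ p ∈ G, Real.log p := by
    apply mul_le_mul_of_nonneg_left _ (by linarith)
    rw [htheta, hsplit]
    linarith
  have hlog1 : 0 ≤ Real.log (d * (k + G.card)) := by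
    apply Real.log_nonneg
    have : (1 : ℝ) ≤ k + G.card := by
      have : (0 : ℝ) ≤ G.card := Nat.cast_nonneg _
      linarith
    nlinarith
  have hlog2 : Real.log (d * (k + G.card)) ≤ Real.log (d * (k + X)) := by
    apply Real.log_le_log
    · have : (0 : ℝ) ≤ G.card := Nat.cast_nonneg _
      positivity
    · apply mul_le_mul_of_nonneg_left _ (by linarith)
      linarith
  have hr1 : ((k : ℝ) ^ 2 + G.card) * Real.log (d * (k + G.card)) ≤
      ((k : ℝ) ^ 2 + X) * Real.log (d * (k + X)) := by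
    apply mul_le_mul _ hlog2 hlog1 (by positivity)
    linarith
  have hr2 : ((k : ℝ) + G.card) * (k + ∑ p ∈ G, (p : ℝ)) * lM P ≤
      (k + X) * (k + (X : ℝ) ^ 2) * lM P := by
    apply mul_le_mul_of_nonneg_right _ hlM
    apply mul_le_mul
    · linarith
    · linarith
    · linarith
    · linarith
  calc (k : ℝ) * (Chebyshev.theta X - Real.log d / Real.log 2 * Real.log X)
      ≤ (k : ℝ) * ∑ p ∈ G, Real.log p := hleft
    _ ≤ _ := hmain
    _ ≤ _ := by linarith

end Pool.Agent.Lib.MP_45a27d_nt
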