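import Pool.Agent.Lib.MP_45a27d_nt.Conj

set_option autoImplicit false

namespace Pool.Agent.Lib.MP_45a27d_nt

open Polynomial

/-- If `r_i^a = r_j^b` for some `i, j` with `a ≠ b` then some root is a root of unity.
Proof: by `fam_conj` (applied to the relation `X_i^a - X_j^b`) for every root `β` there is a
root `γ = f β` with `β^a = γ^b`. Iterating, `β_0^(a^k) = β_k^(b^k)` with `β_{k+1} = f β_k`
(more generally `β_l^(a^k) = β_{l+k}^(b^k)`). The sequence takes finitely many values, so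
`β_k = β_l` for some `k < l`, and `β_k^(a^(l-k)) = β_l^(b^(l-k)) = β_k^(b^(l-k))` with
`a^(l-k) ≠ b^(l-k)`, which makes the nonzero number `β_k` a root of unity. -/
theorem fam_pow_ne {P : ℤ[X]} {d : ℕ} {r : Fin d → ℂ} (h : IsFam P d r) (hP : Irreducible P)
    (h0 : ∀ i, r i ≠ 0) (h1 : ∀ i, ∀ n : ℕ, 0 < n → r i ^ n ≠ 1)
    {a b : ℕ} (ha : 0 < a) (hb : 0 < b) (hab : a ≠ b) (i j : Fin d) : r i ^ a ≠ r j ^ b := by
  intro heq
  have hf : ∀ k : Fin d, ∃ l : Fin d, r k ^ a = r l ^ b := by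
    intro k
    obtain ⟨τ, hτ, hF⟩ := fam_conj h hP i k
    have h2 := hF (MvPolynomial.X i ^ a - MvPolynomial.X j ^ b) (by
      simp only [map_sub, map_pow, MvPolynomial.aeval_X]
      rw [heq, sub_self])
    simp only [map_sub, map_pow, MvPolynomial.aeval_X] at h2
    rw [hτ] at h2
    exact ⟨τ j, sub_eq_zero.1 h2⟩
  choose f hf using hf
  have hit : ∀ (m : ℕ) (x : Fin d), r x ^ (a ^ m) = r (f^[m] x) ^ (b ^ m) := by
    intro m
    induction m with
    | zero =>
      intro x
      simp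
    | succ m ih =>
      intro x
      rw [pow_succ a m, pow_mul, ih x, ← pow_mul, mul_comm (b ^ m) a, pow_mul, hf (f^[m] x),
        ← pow_mul, ← pow_succ', Function.iterate_succ_apply']
  obtain ⟨k, l, hkl, he⟩ : ∃ k l : ℕ, k < l ∧ f^[k] i = f^[l] i := by
    obtain ⟨k, l, hne, he⟩ := Finite.exists_ne_map_eq_of_infinite (fun k : ℕ => f^[k] i)
    rcases lt_or_gt_of_ne hne with h2 | h2
    · exact ⟨k, l, h2, he⟩
    · exact ⟨l, k, h2, he.symm⟩
  obtain ⟨m, hm, rfl⟩ : ∃ m, 0 < m ∧ l = m + k := ⟨l - k, by omega, by omega⟩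
  rw [Function.iterate_add_apply] at he
  set x := f^[k] i with hx
  have h2 := hit m x
  rw [← he] at h2
  have hne : a ^ m ≠ b ^ m := fun h3 => hab (Nat.pow_left_injective (by omega) h3)
  have key : ∀ u v : ℕ, u < v → r x ^ u = r x ^ v → False := by
    intro u v huv h3
    have h4 : v = (v - u) + u := by omega
    rw [h4, pow_add] at h3
    have h5 : r x ^ u ≠ 0 := pow_ne_zero _ (h0 x)
    have h6 : r x ^ (v - u) = 1 := by
      have h7 : (r x ^ (v - u) - 1) * r x ^ u = 0 := by linear_combination -h3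
      rcases mul_eq_zero.1 h7 with h8 | h8
      · exact sub_eq_zero.1 h8
      · exact absurd h8 h5
    exact h1 x (v - u) (by omega) h6
  rcases lt_or_gt_of_ne hne with h3 | h3
  · exact key _ _ h3 h2
  · exact key _ _ h3 h2.symm

end Pool.Agent.Lib.MP_45a27d_nt
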