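import Mathlib

set_option autoImplicit false

namespace Pool.Agent.Lib.MP_45a27d_nt

open Polynomial

/-- Maximum modulus principle for polynomials. -/
theorem exists_max_mod (F : ℂ[X]) {ρ : ℝ} (hρ : 0 < ρ) :
    ∃ h : ℂ, ‖h‖ = ρ ∧ ‖F.eval 0‖ ≤ ‖F.eval h‖ := by
  obtain ⟨z, hz, hmax⟩ := Complex.exists_mem_frontier_isMaxOn_norm
    (f := fun z : ℂ => F.eval z) (U := Metric.ball (0 : ℂ) ρ) Metric.isBounded_ball
    ⟨0, Metric.mem_ball_self hρ⟩ (F.differentiable.diffContOnCl)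
  rw [frontier_ball (0 : ℂ) hρ.ne', mem_sphere_zero_iff_norm] at hz
  exact ⟨z, hz, hmax (subset_closure (Metric.mem_ball_self hρ))⟩

end Pool.Agent.Lib.MP_45a27d_nt
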