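import Pool.Agent.Lib.MP_45a27d_nt.Pts
import Pool.Agent.Lib.MP_45a27d_nt.MaxMod

set_option autoImplicit false

namespace Pool.Agent.Lib.MP_45a27d_nt

open Polynomial Finset

private theorem Weighted_erase_sigma {A : Type} [Fintype A] [DecidableEq A] (w : A → ℕ)
    (f : (Σ a, Fin (w a)) → ℝ) (a : A) (t : Fin (w a)) :
    ∏ j ∈ univ.erase (⟨a, t⟩ : Σ a, Fin (w a)), f j =
      (∏ t' ∈ univ.erase t, f ⟨a, t'⟩) * ∏ b ∈ univ.erase a, ∏ t' : Fin (w b), f ⟨b, t'⟩ := by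
  classical
  set g : (Σ a, Fin (w a)) → ℝ := fun j => if j = ⟨a, t⟩ then 1 else f j with hg
  have e1 : ∏ j ∈ univ.erase (⟨a, t⟩ : Σ a, Fin (w a)), f j = ∏ j, g j := by
    rw [← Finset.mul_prod_erase univ g (Finset.mem_univ ⟨a, t⟩)]
    have : g ⟨a, t⟩ = 1 := by simp [hg]
    rw [this, one_mul]
    apply Finset.prod_congr rfl
    intro j hj
    have := (Finset.mem_erase.mp hj).1
    simp [hg, this]
  rw [e1, Fintype.prod_sigma, ← Finset.mul_prod_erase univ _ (Finset.mem_univ a)]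
  congr 1
  · rw [← Finset.mul_prod_erase univ _ (Finset.mem_univ t)]
    have : g ⟨a, t⟩ = 1 := by simp [hg]
    rw [this, one_mul]
    apply Finset.prod_congr rfl
    intro t' ht'
    have := (Finset.mem_erase.mp ht').1
    simp [hg, this]
  · apply Finset.prod_congr rfl
    intro b hb
    apply Finset.prod_congr rfl
    intro t' _
    have hba := (Finset.mem_erase.mp hb).1
    have : (⟨b, t'⟩ : Σ a, Fin (w a)) ≠ ⟨a, t⟩ := by
      intro hc
      exact hba (congrArg Sigma.fst hc)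
    simp only [hg]
    rw [if_neg this]

/-- Step 1: replace the point `x a` of multiplicity `w a` by the cluster `x a + t h`,
`t < w a`, indexed by `ι = Σ a, Fin (w a)`. The product of the differences of points in
DIFFERENT clusters is a polynomial in `h` whose value at `h = 0` is
`∏_{a ≠ b} (x a - x b)^(w a w b)`; by `exists_max_mod` there is `h` with `‖h‖ = ρ` at which it
is at least as large. The differences inside one cluster are `(t - t') h` of modulus at least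
`ρ`, and their product over ordered pairs is at least `ρ^(w(w-1))`. -/
theorem cluster_le {A : Type} [Fintype A] [DecidableEq A] (x : A → ℂ) (w : A → ℕ)
    {ρ : ℝ} (hρ : 0 < ρ) :
    ∃ h : ℂ, ‖h‖ = ρ ∧
      (∏ a, ∏ b ∈ univ.erase a, ‖x a - x b‖ ^ (w a * w b)) *
          ρ ^ (∑ a, w a * (w a - 1)) ≤
        ∏ i : (Σ a, Fin (w a)), ∏ j ∈ univ.erase i,
          ‖(x i.1 + (i.2 : ℕ) * h) - (x j.1 + (j.2 : ℕ) * h)‖ := by
  classical
  set F : ℂ[X] := ∏ a, ∏ t : Fin (w a), ∏ b ∈ univ.erase a, ∏ t' : Fin (w b),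
    (C (x a - x b) + C (((t : ℕ) : ℂ) - ((t' : ℕ) : ℂ)) * X) with hF
  obtain ⟨h, hh, hle⟩ := exists_max_mod F hρ
  refine ⟨h, hh, ?_⟩
  have h0 : ‖F.eval 0‖ = ∏ a, ∏ b ∈ univ.erase a, ‖x a - x b‖ ^ (w a * w b) := by
    rw [hF]
    simp only [eval_prod, eval_add, eval_C, eval_mul, eval_X, mul_zero, add_zero, norm_prod,
      Finset.prod_const, Finset.card_univ, Fintype.card_fin]
    apply Finset.prod_congr rfl
    intro a _
    rw [← Finset.prod_pow, norm_prod]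
    apply Finset.prod_congr rfl
    intro b _
    rw [norm_pow, norm_pow, ← pow_mul, mul_comm]
  have h1 : ‖F.eval h‖ = ∏ a, ∏ t : Fin (w a), ∏ b ∈ univ.erase a, ∏ t' : Fin (w b),
      ‖(x a + (t : ℕ) * h) - (x b + (t' : ℕ) * h)‖ := by
    rw [hF]
    simp only [eval_prod, eval_add, eval_C, eval_mul, eval_X, norm_prod]
    refine Finset.prod_congr rfl fun a _ => Finset.prod_congr rfl fun t _ =>
      Finset.prod_congr rfl fun b _ => Finset.prod_congr rfl fun t' _ => ?_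
    congr 1
    ring
  have h2 : ρ ^ (∑ a, w a * (w a - 1)) ≤ ∏ a, ∏ t : Fin (w a), ∏ t' ∈ univ.erase t,
      ‖(x a + (t : ℕ) * h) - (x a + (t' : ℕ) * h)‖ := by
    have e : ρ ^ (∑ a, w a * (w a - 1)) = ∏ a, ∏ t : Fin (w a), ∏ t' ∈ univ.erase t, ρ := by
      simp only [Finset.prod_const, Finset.card_erase_of_mem (Finset.mem_univ _),
        Finset.card_univ, Fintype.card_fin]
      rw [← Finset.prod_pow_eq_pow_sum]
      apply Finset.prod_congr rfl
      intro a _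
      rw [← pow_mul, mul_comm]
    rw [e]
    refine Finset.prod_le_prod (fun a _ => by positivity) fun a _ =>
      Finset.prod_le_prod (fun t _ => by positivity) fun t _ =>
      Finset.prod_le_prod (fun t' _ => hρ.le) fun t' ht' => ?_
    have hne : (t : ℕ) ≠ (t' : ℕ) := by
      intro hc
      exact (Finset.mem_erase.mp ht').1 (Fin.ext hc.symm)
    have e2 : (x a + (t : ℕ) * h) - (x a + (t' : ℕ) * h) =
        ((((t : ℕ) : ℤ) - ((t' : ℕ) : ℤ) : ℤ) : ℂ) * h := by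
      push_cast
      ring
    rw [e2, norm_mul, hh, Complex.norm_intCast]
    have h3 : (1 : ℝ) ≤ |((((t : ℕ) : ℤ) - ((t' : ℕ) : ℤ) : ℤ) : ℝ)| := by
      have : (((t : ℕ) : ℤ) - ((t' : ℕ) : ℤ)) ≠ 0 := by omega
      exact_mod_cast Int.one_le_abs this
    nlinarith
  have h3 : ∏ i : (Σ a, Fin (w a)), ∏ j ∈ univ.erase i,
          ‖(x i.1 + (i.2 : ℕ) * h) - (x j.1 + (j.2 : ℕ) * h)‖ =
      (∏ a, ∏ t : Fin (w a), ∏ b ∈ univ.erase a, ∏ t' : Fin (w b),
        ‖(x a + (t : ℕ) * h) - (x b + (t' : ℕ) * h)‖) *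
      ∏ a, ∏ t : Fin (w a), ∏ t' ∈ univ.erase t,
        ‖(x a + (t : ℕ) * h) - (x a + (t' : ℕ) * h)‖ := by
    rw [Fintype.prod_sigma, ← Finset.prod_mul_distrib]
    apply Finset.prod_congr rfl
    intro a _
    rw [← Finset.prod_mul_distrib]
    apply Finset.prod_congr rfl
    intro t _
    rw [Weighted_erase_sigma w
      (fun j => ‖(x a + (t : ℕ) * h) - (x j.1 + (j.2 : ℕ) * h)‖) a t, mul_comm]
  rw [h3, ← h1]
  rw [← h0]
  exact mul_le_mul hle h2 (by positivity) (norm_nonneg _)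

/-- Step 2: `cluster_le` with `ρ = 1/N^2`, `N = ∑ w a`, and `points_le` (the index type has
cardinality `N`). Since `‖x a + t h‖ ≤ ‖x a‖ + 1/N`, `max 1 ‖..‖ ≤ max 1 ‖x a‖ * (1 + 1/N)` and
`(1 + 1/N)^(2N) ≤ exp 2` for each of the `N` points; `ρ^(-∑ w(w-1)) = N^(2 ∑ w (w-1))` and
`N + 2 ∑ w (w-1) ≤ 2 ∑ w^2`. (If `N = 0` all weights are zero, the left side is `1` and the
right side is `0^0 * exp 0 * 1 = 1`.) -/
theorem weighted_le {A : Type} [Fintype A] [DecidableEq A] (x : A → ℂ) (w : A → ℕ) :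
    ∏ a, ∏ b ∈ univ.erase a, ‖x a - x b‖ ^ (w a * w b) ≤
      ((∑ a, w a : ℕ) : ℝ) ^ (2 * ∑ a, w a ^ 2) * Real.exp (2 * ((∑ a, w a : ℕ) : ℝ)) *
        ∏ a, (max 1 ‖x a‖) ^ (2 * (∑ b, w b) * w a) := by
  classical
  set N : ℕ := ∑ a, w a with hN
  rcases Nat.eq_zero_or_pos N with hN0 | hNpos
  · have hw : ∀ a, w a = 0 := by
      intro a
      have := (Finset.sum_eq_zero_iff.mp (hN ▸ hN0)) a (Finset.mem_univ a)
      exact this
    simp [hN0, hw]
  have hNR : (0 : ℝ) < N := by exact_mod_cast hNpos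
  have hN1 : (1 : ℝ) ≤ N := by exact_mod_cast hNpos
  obtain ⟨h, hh, hle⟩ := cluster_le x w (ρ := 1 / (N : ℝ) ^ 2) (by positivity)
  have hcard : Fintype.card (Σ a, Fin (w a)) = N := by
    rw [Fintype.card_sigma]
    simp [hN]
  have hpts := points_le (fun i : (Σ a, Fin (w a)) => x i.1 + (i.2 : ℕ) * h)
  rw [hcard] at hpts
  have hmax : ∀ i : (Σ a, Fin (w a)), max 1 ‖x i.1 + (i.2 : ℕ) * h‖ ≤
      max 1 ‖x i.1‖ * (1 + 1 / N) := by
    intro i
    have hi : ((i.2 : ℕ) : ℝ) ≤ N := by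
      have h1 : (i.2 : ℕ) < w i.1 := i.2.2
      have h2 : w i.1 ≤ N := Finset.single_le_sum (fun _ _ => Nat.zero_le _) (Finset.mem_univ i.1)
      exact_mod_cast (h1.le.trans h2)
    have h3 : ‖((i.2 : ℕ) : ℂ) * h‖ ≤ 1 / N := by
      rw [norm_mul, hh, Complex.norm_natCast]
      rw [mul_one_div, div_le_div_iff₀ (by positivity) hNR]
      nlinarith
    have h4 : (1 : ℝ) ≤ max 1 ‖x i.1‖ := le_max_left _ _
    have h5 : ‖x i.1‖ ≤ max 1 ‖x i.1‖ := le_max_right _ _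
    have h6 : (0 : ℝ) ≤ 1 / N := by positivity
    apply max_le
    · nlinarith
    · calc ‖x i.1 + (i.2 : ℕ) * h‖ ≤ ‖x i.1‖ + ‖((i.2 : ℕ) : ℂ) * h‖ := norm_add_le _ _
        _ ≤ max 1 ‖x i.1‖ + 1 / N := add_le_add h5 h3
        _ ≤ max 1 ‖x i.1‖ * (1 + 1 / N) := by nlinarith
  have hprod : ∏ i : (Σ a, Fin (w a)), (max 1 ‖x i.1 + (i.2 : ℕ) * h‖) ^ (2 * N) ≤
      Real.exp (2 * (N : ℝ)) * ∏ a, (max 1 ‖x a‖) ^ (2 * N * w a) := by
    have e1 : ∏ i : (Σ a, Fin (w a)), (max 1 ‖x i.1 + (i.2 : ℕ) * h‖) ^ (2 * N) ≤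
        ∏ i : (Σ a, Fin (w a)), (max 1 ‖x i.1‖ * (1 + 1 / N)) ^ (2 * N) := by
      refine Finset.prod_le_prod (fun i _ => by positivity) fun i _ => ?_
      exact pow_le_pow_left₀ (by positivity) (hmax i) _
    refine e1.trans ?_
    have e2 : ∏ i : (Σ a, Fin (w a)), (max 1 ‖x i.1‖ * (1 + 1 / (N : ℝ))) ^ (2 * N) =
        ((1 + 1 / (N : ℝ)) ^ (2 * N)) ^ N * ∏ a, (max 1 ‖x a‖) ^ (2 * N * w a) := by
      simp only [mul_pow]
      rw [Finset.prod_mul_distrib, Finset.prod_const, Finset.card_univ, hcard, mul_comm]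
      congr 1
      rw [Fintype.prod_sigma]
      apply Finset.prod_congr rfl
      intro a _
      simp only [Finset.prod_const, Finset.card_univ, Fintype.card_fin]
      rw [← pow_mul]
    rw [e2]
    apply mul_le_mul_of_nonneg_right _ (by positivity)
    have e3 : (1 + 1 / (N : ℝ)) ^ (2 * N) ≤ Real.exp 2 := by
      have : (1 + 1 / (N : ℝ)) ≤ Real.exp (1 / N) := by
        have := Real.add_one_le_exp (1 / (N : ℝ))
        linarith
      calc (1 + 1 / (N : ℝ)) ^ (2 * N) ≤ (Real.exp (1 / N)) ^ (2 * N) :=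
            pow_le_pow_left₀ (by positivity) this _
        _ = Real.exp 2 := by
            rw [← Real.exp_nat_mul]
            congr 1
            push_cast
            field_simp
    calc ((1 + 1 / (N : ℝ)) ^ (2 * N)) ^ N ≤ (Real.exp 2) ^ N :=
          pow_le_pow_left₀ (by positivity) e3 _
      _ = Real.exp (2 * (N : ℝ)) := by
          rw [← Real.exp_nat_mul]
          congr 1
          ring
  have hall : (∏ a, ∏ b ∈ univ.erase a, ‖x a - x b‖ ^ (w a * w b)) *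
      (1 / (N : ℝ) ^ 2) ^ (∑ a, w a * (w a - 1)) ≤
      (N : ℝ) ^ N * (Real.exp (2 * (N : ℝ)) * ∏ a, (max 1 ‖x a‖) ^ (2 * N * w a)) :=
    hle.trans (hpts.trans (mul_le_mul_of_nonneg_left hprod (by positivity)))
  have hexp : N + 2 * ∑ a, w a * (w a - 1) ≤ 2 * ∑ a, w a ^ 2 := by
    rw [hN, Finset.mul_sum, Finset.mul_sum, ← Finset.sum_add_distrib]
    apply Finset.sum_le_sum
    intro a _
    rcases Nat.eq_zero_or_pos (w a) with h0 | h0
    · simp [h0]
    · obtain ⟨k, hk⟩ : ∃ k, w a = k + 1 := ⟨w a - 1, by omega⟩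
      rw [hk]
      simp only [Nat.add_sub_cancel]
      nlinarith
  have hρ : (1 / (N : ℝ) ^ 2) ^ (∑ a, w a * (w a - 1)) =
      ((N : ℝ) ^ (2 * ∑ a, w a * (w a - 1)))⁻¹ := by
    rw [one_div, inv_pow, ← pow_mul]
  rw [hρ, ← div_eq_mul_inv, div_le_iff₀ (by positivity)] at hall
  refine hall.trans ?_
  have e4 : (N : ℝ) ^ N * (Real.exp (2 * (N : ℝ)) * ∏ a, (max 1 ‖x a‖) ^ (2 * N * w a)) *
      (N : ℝ) ^ (2 * ∑ a, w a * (w a - 1)) =
      (N : ℝ) ^ (N + 2 * ∑ a, w a * (w a - 1)) * Real.exp (2 * (N : ℝ)) *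
        ∏ a, (max 1 ‖x a‖) ^ (2 * N * w a) := by
    rw [pow_add]
    ring
  rw [e4]
  have e5 : (N : ℝ) ^ (N + 2 * ∑ a, w a * (w a - 1)) ≤ (N : ℝ) ^ (2 * ∑ a, w a ^ 2) :=
    pow_le_pow_right₀ hN1 hexp
  gcongr

end Pool.Agent.Lib.MP_45a27d_nt
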