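import Pool.Agent.Lib.MP_45a27d_nt.DobSplit
import Pool.Agent.Lib.MP_45a27d_nt.DobFac
import Pool.Agent.Lib.MP_45a27d_nt.Weighted
import Pool.Agent.Lib.MP_45a27d_nt.PowNe

set_option autoImplicit false

namespace Pool.Agent.Lib.MP_45a27d_nt

open Polynomial Finset

private theorem four_mul {a b c d l : ℝ} (ha : 1 ≤ a) (hb : l ≤ b) (hl : 0 ≤ l) (hc : 1 ≤ c)
    (hd : 1 ≤ d) : l ≤ a * b * c * d := by
  have hb0 : 0 ≤ b := hl.trans hb
  have h1 : b ≤ a * b := le_mul_of_one_le_left hb0 ha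
  have h2 : a * b ≤ a * b * c := le_mul_of_one_le_right (hb0.trans h1) hc
  have h3 : a * b * c ≤ a * b * c * d := le_mul_of_one_le_right ((hb0.trans h1).trans h2) hd
  linarith

/-- Lower bound for the weighted product of differences: `dob_split`, all factors are at least
one and the second one is at least `∏ p^(2 d k)`: `disc_ge` for `r` and for `r^p` (`fam_pow`,
`fam_inj`), `frob_ge`, `cross_ge`; non-vanishing by `fam_pow_ne` (exponents `1, p` and `p, q`). -/
theorem dob_lower {P : ℤ[X]} {d : ℕ} {r : Fin d → ℂ} (h : IsFam P d r) (hmon : P.Monic)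
    (hP : Irreducible P) (h0 : ∀ i, r i ≠ 0) (h1 : ∀ i, ∀ n : ℕ, 0 < n → r i ^ n ≠ 1)
    (S : Finset ℕ) (hS : ∀ p ∈ S, p.Prime ∧ ∀ i j, i ≠ j → r i ^ p ≠ r j ^ p) (k : ℕ) :
    ∏ p ∈ S, (p : ℝ) ^ (2 * d * k) ≤
      ∏ a, ∏ b ∈ univ.erase a, ‖xx r S a - xx r S b‖ ^ (ww d S k a * ww d S k b) := by
  rw [dob_split]
  apply four_mul
  · exact one_le_pow₀ (disc_ge h hmon (fam_inj h hP))
  · apply Finset.prod_le_prod
    · intro p _; positivity
    · intro p hp
      have hpp := (hS p hp).1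
      have h2 := frob_ge h hmon hpp (fun i j => by
        have := fam_pow_ne h hP h0 h1 (a := 1) (b := p) one_pos hpp.pos hpp.one_lt.ne i j
        simpa using this)
      have h3 : (p : ℝ) ^ (2 * d * k) = (((p : ℝ) ^ d) ^ k) ^ 2 := by
        rw [← pow_mul, ← pow_mul]; congr 1; ring
      rw [h3]
      have h4 : (0 : ℝ) ≤ (p : ℝ) ^ d := by positivity
      exact pow_le_pow_left₀ (by positivity) (pow_le_pow_left₀ h4 h2 k) 2
  · exact Finset.prod_nonneg fun p _ => by positivity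
  · apply Finset.one_le_prod
    intro p hp
    obtain ⟨Q, hQ, hQf⟩ := fam_pow h hmon p
    apply disc_ge hQf hQ
    intro i j hij
    by_contra hne
    exact (hS p hp).2 i j hne hij
  · apply Finset.one_le_prod
    intro p hp
    apply Finset.one_le_prod
    intro q hq
    apply cross_ge h hmon p q
    intro i j
    exact fam_pow_ne h hP h0 h1 (hS p hp).1.pos (hS q (Finset.mem_of_mem_erase hq)).1.pos
      (Finset.ne_of_mem_erase hq).symm i j

private theorem prod_ineq_log {A : Type} [Fintype A] (N W : ℕ) (w : A → ℕ) (y : A → ℝ)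
    (hy : ∀ a, 1 ≤ y a) (hN : 0 < N) (S : Finset ℕ) (hS : ∀ p ∈ S, 0 < p) (m : ℕ)
    (h : ∏ p ∈ S, (p : ℝ) ^ m ≤ (N : ℝ) ^ (2 * W) * Real.exp (2 * (N : ℝ)) *
      ∏ a, (y a) ^ (2 * N * w a)) :
    (m : ℝ) * ∑ p ∈ S, Real.log p ≤ 2 * W * Real.log N + 2 * N +
      2 * N * ∑ a, (w a : ℝ) * Real.log (y a) := by
  have hpos : 0 < ∏ p ∈ S, (p : ℝ) ^ m := by
    apply Finset.prod_pos
    intro p hp
    have : (0 : ℝ) < p := by exact_mod_cast hS p hp
    positivity
  have hl := Real.log_le_log hpos h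
  have hNr : (0 : ℝ) < N := by exact_mod_cast hN
  have hy0 : ∀ a, (0 : ℝ) < (y a) ^ (2 * N * w a) := fun a => by
    have := hy a
    positivity
  rw [Real.log_prod (fun p hp => by
    have : (0 : ℝ) < p := by exact_mod_cast hS p hp
    positivity), Real.log_mul (by positivity) (Finset.prod_pos fun a _ => hy0 a).ne',
    Real.log_mul (by positivity) (Real.exp_pos _).ne', Real.log_pow, Real.log_exp,
    Real.log_prod (fun a _ => (hy0 a).ne')] at hl
  have e1 : ∑ p ∈ S, Real.log ((p : ℝ) ^ m) = (m : ℝ) * ∑ p ∈ S, Real.log p := by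
    rw [Finset.mul_sum]
    exact Finset.sum_congr rfl fun p _ => Real.log_pow _ _
  have e2 : ∑ a, Real.log ((y a) ^ (2 * N * w a)) = 2 * N * ∑ a, (w a : ℝ) * Real.log (y a) := by
    rw [Finset.mul_sum]
    apply Finset.sum_congr rfl
    intro a _
    rw [Real.log_pow]
    push_cast
    ring
  rw [e1, e2] at hl
  push_cast at hl
  linarith

/-- Dobrowolski's inequality: take logarithms in `dob_lower` and `weighted_le`
(`dob_card`, `dob_size`, `fam_lM` with leading coefficient one) and divide by `2d`. -/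
theorem dob_ineq {P : ℤ[X]} {d : ℕ} {r : Fin d → ℂ} (h : IsFam P d r) (hmon : P.Monic)
    (hP : Irreducible P) (hd : 0 < d) (h0 : ∀ i, r i ≠ 0)
    (h1 : ∀ i, ∀ n : ℕ, 0 < n → r i ^ n ≠ 1)
    (S : Finset ℕ) (hS : ∀ p ∈ S, p.Prime ∧ ∀ i j, i ≠ j → r i ^ p ≠ r j ^ p) (k : ℕ)
    (hk : 0 < k) :
    (k : ℝ) * ∑ p ∈ S, Real.log p ≤
      ((k : ℝ) ^ 2 + S.card) * Real.log (d * (k + S.card)) + (k + S.card) +
        (k + S.card) * (k + ∑ p ∈ S, (p : ℝ)) * lM P := by
  have hlow := dob_lower h hmon hP h0 h1 S hS k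
  have hup := weighted_le (xx r S) (ww d S k)
  have hcard := dob_card d S k
  have hsize := dob_size r S k
  have hlM := fam_lM h
  rw [hmon.leadingCoeff] at hlM
  have hlM' : ∑ i, Real.log (max 1 ‖r i‖) = lM P := by
    rw [hlM]; simp
  rw [hcard.1, hcard.2] at hup
  have hN : 0 < d * (k + S.card) := Nat.mul_pos hd (by omega)
  have key := prod_ineq_log (d * (k + S.card)) (d * (k ^ 2 + S.card)) (ww d S k)
    (fun a => max 1 ‖xx r S a‖) (fun a => le_max_left _ _) hN S (fun p hp => (hS p hp).1.pos)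
    (2 * d * k) (hlow.trans hup)
  rw [hsize, hlM'] at key
  push_cast at key
  have hdr : (0 : ℝ) < 2 * d := by
    have : (0 : ℝ) < d := by exact_mod_cast hd
    positivity
  apply le_of_mul_le_mul_left _ hdr
  linarith

end Pool.Agent.Lib.MP_45a27d_nt
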