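import Pool.Agent.Lib.MP_45a27d_nt.DobDef

set_option autoImplicit false

namespace Pool.Agent.Lib.MP_45a27d_nt

open Finset

private theorem prod_erase_ite {ι : Type*} [Fintype ι] [DecidableEq ι] (a : ι) (f : ι → ℝ) :
    ∏ b ∈ univ.erase a, f b = ∏ b, if b = a then 1 else f b := by
  rw [← Finset.mul_prod_erase univ _ (mem_univ a), if_pos rfl, one_mul]
  apply Finset.prod_congr rfl
  intro b hb
  rw [if_neg (Finset.ne_of_mem_erase hb)]

/-- Bookkeeping: split the product over ordered pairs of distinct indices of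
`Fin d ⊕ (S × Fin d)` into the pairs (root, root), (root, power), (power, root),
(power, power with the same `p`), (power, power with different `p, q`). -/
theorem dob_split {d : ℕ} (r : Fin d → ℂ) (S : Finset ℕ) (k : ℕ) :
    ∏ a, ∏ b ∈ univ.erase a, ‖xx r S a - xx r S b‖ ^ (ww d S k a * ww d S k b) =
      (∏ i, ∏ j ∈ univ.erase i, ‖r i - r j‖) ^ (k * k) *
      (∏ p ∈ S, ((∏ i, ∏ j, ‖r i - r j ^ p‖) ^ k) ^ 2) *
      (∏ p ∈ S, ∏ i, ∏ j ∈ univ.erase i, ‖r i ^ p - r j ^ p‖) *
      (∏ p ∈ S, ∏ q ∈ S.erase p, ∏ i, ∏ j, ‖r i ^ p - r j ^ q‖) := by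
  have h1 : ∏ a, ∏ b ∈ univ.erase a, ‖xx r S a - xx r S b‖ ^ (ww d S k a * ww d S k b) =
      ∏ a, ∏ b, if b = a then 1 else ‖xx r S a - xx r S b‖ ^ (ww d S k a * ww d S k b) :=
    Finset.prod_congr rfl fun a _ => prod_erase_ite a _
  rw [h1, Fintype.prod_sum_type]
  have e1 : ∏ i : Fin d, ∏ b, (if b = (Sum.inl i : Fin d ⊕ (S × Fin d)) then (1 : ℝ) else
      ‖xx r S (Sum.inl i) - xx r S b‖ ^ (ww d S k (Sum.inl i) * ww d S k b)) =
      (∏ i, ∏ j ∈ univ.erase i, ‖r i - r j‖) ^ (k * k) *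
        ∏ p ∈ S, (∏ i, ∏ j, ‖r i - r j ^ p‖) ^ k := by
    have : ∀ i : Fin d, ∏ b, (if b = (Sum.inl i : Fin d ⊕ (S × Fin d)) then (1 : ℝ) else
      ‖xx r S (Sum.inl i) - xx r S b‖ ^ (ww d S k (Sum.inl i) * ww d S k b)) =
      (∏ j ∈ univ.erase i, ‖r i - r j‖) ^ (k * k) * ∏ p ∈ S, (∏ j, ‖r i - r j ^ p‖) ^ k := by
      intro i
      rw [Fintype.prod_sum_type]
      congr 1
      · rw [prod_erase_ite, ← Finset.prod_pow]
        apply Finset.prod_congr rfl
        intro j _
        by_cases hj : j = i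
        · subst hj; simp
        · simp [hj, xx, ww]
      · rw [Fintype.prod_prod_type]
        rw [← Finset.prod_coe_sort S]
        apply Finset.prod_congr rfl
        intro p _
        rw [← Finset.prod_pow]
        apply Finset.prod_congr rfl
        intro j _
        simp [xx, ww]
    rw [Finset.prod_congr rfl fun i _ => this i, Finset.prod_mul_distrib, Finset.prod_pow]
    congr 1
    rw [Finset.prod_comm]
    apply Finset.prod_congr rfl
    intro p _
    rw [Finset.prod_pow]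
  have e2 : ∏ a : S × Fin d, ∏ b, (if b = (Sum.inr a : Fin d ⊕ (S × Fin d)) then (1 : ℝ) else
      ‖xx r S (Sum.inr a) - xx r S b‖ ^ (ww d S k (Sum.inr a) * ww d S k b)) =
      (∏ p ∈ S, (∏ i, ∏ j, ‖r i - r j ^ p‖) ^ k) *
      ((∏ p ∈ S, ∏ i, ∏ j ∈ univ.erase i, ‖r i ^ p - r j ^ p‖) *
      (∏ p ∈ S, ∏ q ∈ S.erase p, ∏ i, ∏ j, ‖r i ^ p - r j ^ q‖)) := by
    have : ∀ a : S × Fin d, ∏ b, (if b = (Sum.inr a : Fin d ⊕ (S × Fin d)) then (1 : ℝ) else
      ‖xx r S (Sum.inr a) - xx r S b‖ ^ (ww d S k (Sum.inr a) * ww d S k b)) =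
      (∏ i, ‖r i - r a.2 ^ (a.1 : ℕ)‖) ^ k *
        ((∏ j ∈ univ.erase a.2, ‖r a.2 ^ (a.1 : ℕ) - r j ^ (a.1 : ℕ)‖) *
          ∏ q ∈ S.erase (a.1 : ℕ), ∏ j, ‖r a.2 ^ (a.1 : ℕ) - r j ^ q‖) := by
      intro a
      rw [Fintype.prod_sum_type]
      congr 1
      · rw [← Finset.prod_pow]
        apply Finset.prod_congr rfl
        intro j _
        simp [xx, ww, norm_sub_rev]
      · rw [Fintype.prod_prod_type]
        have h2 : ∀ q : S, ∏ j : Fin d, (if (Sum.inr (q, j) : Fin d ⊕ (S × Fin d)) = Sum.inr a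
            then (1 : ℝ) else ‖xx r S (Sum.inr a) - xx r S (Sum.inr (q, j))‖ ^
              (ww d S k (Sum.inr a) * ww d S k (Sum.inr (q, j)))) =
            if (q : ℕ) = (a.1 : ℕ) then
              ∏ j ∈ univ.erase a.2, ‖r a.2 ^ (a.1 : ℕ) - r j ^ (a.1 : ℕ)‖
            else ∏ j, ‖r a.2 ^ (a.1 : ℕ) - r j ^ (q : ℕ)‖ := by
          intro q
          by_cases hq : (q : ℕ) = (a.1 : ℕ)
          · rw [if_pos hq, prod_erase_ite]
            apply Finset.prod_congr rfl
            intro j _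
            have hq' : q = a.1 := Subtype.ext hq
            by_cases hj : j = a.2
            · rw [if_pos hj, if_pos]
              rw [hj, hq']
            · rw [if_neg hj, if_neg]
              · simp [xx, ww, hq]
              · intro h
                apply hj
                have := Sum.inr_injective h
                rw [← this]
          · rw [if_neg hq]
            apply Finset.prod_congr rfl
            intro j _
            rw [if_neg]
            · simp [xx, ww]
            · intro h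
              apply hq
              have := Sum.inr_injective h
              rw [← this]
        rw [Finset.prod_congr rfl fun q _ => h2 q]
        rw [Finset.prod_coe_sort S (fun q : ℕ => if q = (a.1 : ℕ) then
              ∏ j ∈ univ.erase a.2, ‖r a.2 ^ (a.1 : ℕ) - r j ^ (a.1 : ℕ)‖
            else ∏ j, ‖r a.2 ^ (a.1 : ℕ) - r j ^ q‖)]
        rw [← Finset.mul_prod_erase S _ a.1.2, if_pos rfl]
        congr 1
        apply Finset.prod_congr rfl
        intro q hq
        rw [if_neg (Finset.ne_of_mem_erase hq)]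
    rw [Finset.prod_congr rfl fun i _ => this i, Finset.prod_mul_distrib, Finset.prod_mul_distrib]
    rw [Fintype.prod_prod_type, Fintype.prod_prod_type, Fintype.prod_prod_type]
    congr 1
    · rw [← Finset.prod_coe_sort S]
      apply Finset.prod_congr rfl
      intro p _
      simp only
      rw [Finset.prod_pow, Finset.prod_comm]
    · congr 1
      · rw [← Finset.prod_coe_sort S]
      · rw [← Finset.prod_coe_sort S]
        apply Finset.prod_congr rfl
        intro p _
        rw [Finset.prod_comm]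
  rw [e1, e2]
  have e3 : ∏ p ∈ S, ((∏ i, ∏ j, ‖r i - r j ^ p‖) ^ k) ^ 2 =
      (∏ p ∈ S, (∏ i, ∏ j, ‖r i - r j ^ p‖) ^ k) * ∏ p ∈ S, (∏ i, ∏ j, ‖r i - r j ^ p‖) ^ k := by
    rw [Finset.prod_pow, sq]
  rw [e3]
  ring

/-- `∑ w = d (k + |S|)`, `∑ w^2 = d (k^2 + |S|)`. -/
theorem dob_card (d : ℕ) (S : Finset ℕ) (k : ℕ) :
    (∑ a, ww d S k a = d * (k + S.card)) ∧ (∑ a, ww d S k a ^ 2 = d * (k ^ 2 + S.card)) := by
  constructor
  · rw [Fintype.sum_sum_type]
    simp [ww]
    ring
  · rw [Fintype.sum_sum_type]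
    simp [ww]
    ring

/-- The contribution of the sizes of the points. -/
theorem dob_size {d : ℕ} (r : Fin d → ℂ) (S : Finset ℕ) (k : ℕ) :
    ∑ a, (ww d S k a : ℝ) * Real.log (max 1 ‖xx r S a‖) =
      ((k : ℝ) + ∑ p ∈ S, (p : ℝ)) * ∑ i, Real.log (max 1 ‖r i‖) := by
  have hpow : ∀ (x : ℝ) (p : ℕ), 0 ≤ x → Real.log (max 1 (x ^ p)) = p * Real.log (max 1 x) := by
    intro x p hx
    rcases le_total 1 x with h | h
    · rw [max_eq_right h, max_eq_right (one_le_pow₀ h), Real.log_pow]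
    · rw [max_eq_left h, max_eq_left (pow_le_one₀ hx h), Real.log_one, mul_zero]
  rw [Fintype.sum_sum_type, Fintype.sum_prod_type, add_mul]
  congr 1
  · simp only [ww, xx]
    rw [Finset.mul_sum]
  · simp only [ww, xx, norm_pow, Nat.cast_one, one_mul]
    rw [Finset.sum_mul, ← Finset.sum_coe_sort S]
    apply Finset.sum_congr rfl
    intro p _
    rw [Finset.mul_sum]
    apply Finset.sum_congr rfl
    intro i _
    exact hpow _ _ (norm_nonneg _)

end Pool.Agent.Lib.MP_45a27d_nt
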