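import Pool.Agent.Lib.MP_45a27d_nt.Sec

set_option autoImplicit false

namespace Pool.Agent.Lib.MP_45a27d_nt

/-- For `y = u + u⁻¹`: `‖y - 2‖ + ‖y + 2‖ = 2 (‖u‖ + ‖u‖⁻¹)` because `y - 2 = (u-1)²/u`,
`y + 2 = (u+1)²/u`. -/
theorem jouk_sum {u : ℂ} (hu : u ≠ 0) :
    ‖u + u⁻¹ - 2‖ + ‖u + u⁻¹ + 2‖ = 2 * (‖u‖ + ‖u‖⁻¹) := by
  have hn : ‖u‖ ≠ 0 := norm_ne_zero_iff.mpr hu
  have h1 : u + u⁻¹ - 2 = (u - 1) ^ 2 / u := by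
    field_simp
    ring
  have h2 : u + u⁻¹ + 2 = (u + 1) ^ 2 / u := by
    field_simp
    ring
  have e1 : ‖u - 1‖ ^ 2 = ‖u‖ ^ 2 - 2 * u.re + 1 := by
    rw [← Complex.normSq_eq_norm_sq, ← Complex.normSq_eq_norm_sq, Complex.normSq_apply,
      Complex.normSq_apply]
    simp
    ring
  have e2 : ‖u + 1‖ ^ 2 = ‖u‖ ^ 2 + 2 * u.re + 1 := by
    rw [← Complex.normSq_eq_norm_sq, ← Complex.normSq_eq_norm_sq, Complex.normSq_apply,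
      Complex.normSq_apply]
    simp
    ring
  rw [h1, h2, norm_div, norm_div, norm_pow, norm_pow, e1, e2]
  field_simp
  ring

/-- `‖z + z⁻¹ - 2‖ = 2 (C - g)` and `‖z + z⁻¹ + 2κ‖ = 2 √(C² + 2Cgκ + κ² + g² - 1)` for
`C = (‖z‖ + ‖z‖⁻¹)/2`, `g = Re z / ‖z‖`. -/
theorem jouk_norms {z : ℂ} (hz : z ≠ 0) (κ : ℝ) :
    ‖z + z⁻¹ - 2‖ = 2 * ((‖z‖ + ‖z‖⁻¹) / 2 - z.re / ‖z‖) ∧
    ‖z + z⁻¹ + 2 * (κ : ℂ)‖ = 2 * Real.sqrt (((‖z‖ + ‖z‖⁻¹) / 2) ^ 2 +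
      2 * ((‖z‖ + ‖z‖⁻¹) / 2) * (z.re / ‖z‖) * κ + κ ^ 2 + (z.re / ‖z‖) ^ 2 - 1) := by
  have hn : ‖z‖ ≠ 0 := norm_ne_zero_iff.mpr hz
  have hsq : ‖z‖ ^ 2 = z.re ^ 2 + z.im ^ 2 := by
    rw [← Complex.normSq_eq_norm_sq, Complex.normSq_apply]
    ring
  constructor
  · have h1 : z + z⁻¹ - 2 = (z - 1) ^ 2 / z := by
      field_simp
      ring
    have e1 : ‖z - 1‖ ^ 2 = ‖z‖ ^ 2 - 2 * z.re + 1 := by
      rw [hsq, ← Complex.normSq_eq_norm_sq, Complex.normSq_apply]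
      simp
      ring
    rw [h1, norm_div, norm_pow, e1]
    field_simp
    ring
  · have key : ‖z + z⁻¹ + 2 * (κ : ℂ)‖ ^ 2 = 4 * (((‖z‖ + ‖z‖⁻¹) / 2) ^ 2 +
        2 * ((‖z‖ + ‖z‖⁻¹) / 2) * (z.re / ‖z‖) * κ + κ ^ 2 + (z.re / ‖z‖) ^ 2 - 1) := by
      have hre : (z + z⁻¹ + 2 * (κ : ℂ)).re = z.re + z.re / ‖z‖ ^ 2 + 2 * κ := by
        simp [Complex.inv_re, Complex.normSq_eq_norm_sq]
      have him : (z + z⁻¹ + 2 * (κ : ℂ)).im = z.im - z.im / ‖z‖ ^ 2 := by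
        simp [Complex.inv_im, Complex.normSq_eq_norm_sq]
        ring
      rw [← Complex.normSq_eq_norm_sq, Complex.normSq_apply, hre, him]
      have hb : z.im ^ 2 = ‖z‖ ^ 2 - z.re ^ 2 := by rw [hsq]; ring
      have hexp : (z.re + z.re / ‖z‖ ^ 2 + 2 * κ) * (z.re + z.re / ‖z‖ ^ 2 + 2 * κ) +
          (z.im - z.im / ‖z‖ ^ 2) * (z.im - z.im / ‖z‖ ^ 2) =
          (z.re + z.re / ‖z‖ ^ 2 + 2 * κ) ^ 2 + z.im ^ 2 * (1 - 1 / ‖z‖ ^ 2) ^ 2 := by ring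
      rw [hexp, hb]
      field_simp
      ring
    have h0 : 0 ≤ ((‖z‖ + ‖z‖⁻¹) / 2) ^ 2 +
        2 * ((‖z‖ + ‖z‖⁻¹) / 2) * (z.re / ‖z‖) * κ + κ ^ 2 + (z.re / ‖z‖) ^ 2 - 1 := by
      have := sq_nonneg ‖z + z⁻¹ + 2 * (κ : ℂ)‖
      rw [key] at this
      linarith
    have h4 : ‖z + z⁻¹ + 2 * (κ : ℂ)‖ ^ 2 = (2 * Real.sqrt (((‖z‖ + ‖z‖⁻¹) / 2) ^ 2 +
      2 * ((‖z‖ + ‖z‖⁻¹) / 2) * (z.re / ‖z‖) * κ + κ ^ 2 + (z.re / ‖z‖) ^ 2 - 1)) ^ 2 := by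
      rw [mul_pow, Real.sq_sqrt h0, key]
      norm_num
    exact (pow_left_inj₀ (norm_nonneg _) (by positivity) two_ne_zero).mp h4

/-- Let `c = (1+κ)/2` and `u + u⁻¹ = y = (z + z⁻¹ - (1-κ))/c`. Then `y - 2 = (z+z⁻¹-2)/c`,
`y + 2 = (z+z⁻¹+2κ)/c`, so by `jouk_sum`, `jouk_norms`, `sec_real`
`(‖u‖ + ‖u‖⁻¹)/2 ≤ 1 + (3/2)(C - 1)`, `C = (m + m⁻¹)/2`, `m = max ‖z‖ ‖z‖⁻¹ ≥ 1`, and
`1 + (3/2)(C-1) ≤ 2C² - 1 = (m² + m⁻²)/2`; `t ↦ t + 1/t` is increasing on `[1, ∞)`. -/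
theorem sec_bound {κ : ℝ} (hκ : 1 / 2 ≤ κ) (hκ1 : κ < 1) {z u : ℂ} (hz : z ≠ 0)
    (hre : (1 - 2 * κ ^ 2) * ‖z‖ ≤ z.re) (hu : 1 ≤ ‖u‖)
    (h : u + u⁻¹ = (z + z⁻¹ - (1 - (κ : ℂ))) / ((1 + (κ : ℂ)) / 2)) :
    ‖u‖ ≤ (max ‖z‖ ‖z‖⁻¹) ^ 2 := by
  have hn : 0 < ‖z‖ := norm_pos_iff.mpr hz
  have hu0 : u ≠ 0 := by
    rintro rfl
    simp at hu
    linarith
  have hc : (0 : ℝ) < (1 + κ) / 2 := by linarith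
  have hcc : ((1 + (κ : ℂ)) / 2) = (((1 + κ) / 2 : ℝ) : ℂ) := by push_cast; ring
  have hcn : ‖((1 + (κ : ℂ)) / 2)‖ = (1 + κ) / 2 := by
    rw [hcc, Complex.norm_real, Real.norm_of_nonneg hc.le]
  have hc0 : ((1 + (κ : ℂ)) / 2) ≠ 0 := by
    rw [hcc]
    exact_mod_cast hc.ne'
  obtain ⟨n1, n2⟩ := jouk_norms hz κ
  have y1 : u + u⁻¹ - 2 = (z + z⁻¹ - 2) / ((1 + (κ : ℂ)) / 2) := by
    rw [h, eq_div_iff hc0, sub_mul, div_mul_cancel₀ _ hc0]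
    ring
  have y2 : u + u⁻¹ + 2 = (z + z⁻¹ + 2 * (κ : ℂ)) / ((1 + (κ : ℂ)) / 2) := by
    rw [h, eq_div_iff hc0, add_mul, div_mul_cancel₀ _ hc0]
    ring
  have hs := jouk_sum hu0
  rw [y1, y2, norm_div (z + z⁻¹ - 2) ((1 + (κ : ℂ)) / 2),
    norm_div (z + z⁻¹ + 2 * (κ : ℂ)) ((1 + (κ : ℂ)) / 2), hcn, n1, n2] at hs
  set C : ℝ := (‖z‖ + ‖z‖⁻¹) / 2 with hC
  set g : ℝ := z.re / ‖z‖ with hg
  have hC1 : 1 ≤ C := by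
    have : 0 ≤ (‖z‖ - 1) ^ 2 / ‖z‖ := by positivity
    have e : (‖z‖ - 1) ^ 2 / ‖z‖ = ‖z‖ + ‖z‖⁻¹ - 2 := by
      field_simp
      ring
    rw [e] at this
    rw [hC]
    linarith
  have hg1 : 1 - 2 * κ ^ 2 ≤ g := by
    rw [hg, le_div_iff₀ hn]
    exact hre
  have hg2 : g ≤ 1 := by
    rw [hg, div_le_one hn]
    exact Complex.re_le_norm z
  have hreal := sec_real hC1 hκ hκ1 hg1 hg2
  have hU : ‖u‖ + ‖u‖⁻¹ ≤ 2 * (1 + 3 / 2 * (C - 1)) := by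
    have e : 2 * (‖u‖ + ‖u‖⁻¹) = 2 * ((C - g) +
        Real.sqrt (C ^ 2 + 2 * C * g * κ + κ ^ 2 + g ^ 2 - 1)) / ((1 + κ) / 2) := by
      rw [← hs]
      ring
    have e2 : 2 * ((C - g) +
        Real.sqrt (C ^ 2 + 2 * C * g * κ + κ ^ 2 + g ^ 2 - 1)) / ((1 + κ) / 2) ≤
        2 * ((1 + κ) * (1 + 3 / 2 * (C - 1))) / ((1 + κ) / 2) := by
      gcongr
    have e3 : 2 * ((1 + κ) * (1 + 3 / 2 * (C - 1))) / ((1 + κ) / 2) =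
        4 * (1 + 3 / 2 * (C - 1)) := by
      have : (1 + κ) ≠ 0 := by linarith
      field_simp
      ring
    linarith
  set m : ℝ := max ‖z‖ ‖z‖⁻¹ with hm
  have hmC : m + m⁻¹ = 2 * C := by
    rw [hC]
    rcases le_total ‖z‖ ‖z‖⁻¹ with hh | hh
    · rw [hm, max_eq_right hh, inv_inv]
      ring
    · rw [hm, max_eq_left hh]
      ring
  have hm1 : 1 ≤ m := by
    rcases le_total 1 ‖z‖ with hh | hh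
    · exact hh.trans (le_max_left _ _)
    · exact ((one_le_inv₀ hn).mpr hh).trans (le_max_right _ _)
  have hm0 : 0 < m := by linarith
  have hU2 : ‖u‖ + ‖u‖⁻¹ ≤ m ^ 2 + (m ^ 2)⁻¹ := by
    have e : m ^ 2 + (m ^ 2)⁻¹ = 2 * (2 * C ^ 2 - 1) := by
      have : (m + m⁻¹) ^ 2 = 4 * C ^ 2 := by rw [hmC]; ring
      have e2 : (m + m⁻¹) ^ 2 = m ^ 2 + (m ^ 2)⁻¹ + 2 := by
        field_simp
        ring
      linarith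
    rw [e]
    nlinarith
  by_contra hlt
  push Not at hlt
  have hm2 : 1 ≤ m ^ 2 := one_le_pow₀ hm1
  have hu1 : 0 < ‖u‖ := by linarith
  have hpos : 0 < (‖u‖ - m ^ 2) * (1 - 1 / (‖u‖ * m ^ 2)) := by
    apply mul_pos (by linarith)
    have : 1 < ‖u‖ * m ^ 2 := by nlinarith
    have h3 : 1 / (‖u‖ * m ^ 2) < 1 := by
      rw [div_lt_one (by linarith)]
      exact this
    linarith
  have e : (‖u‖ - m ^ 2) * (1 - 1 / (‖u‖ * m ^ 2)) =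
      (‖u‖ + ‖u‖⁻¹) - (m ^ 2 + (m ^ 2)⁻¹) := by
    field_simp
    ring
  rw [e] at hpos
  linarith

end Pool.Agent.Lib.MP_45a27d_nt
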