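import Pool.Agent.Lib.MP_45a27d_nt.Pts
import Pool.Agent.Lib.MP_45a27d_nt.SecB
import Pool.Agent.Lib.MP_45a27d_nt.Cheb
import Pool.Agent.Lib.MP_45a27d_nt.Disc

set_option autoImplicit false

namespace Pool.Agent.Lib.MP_45a27d_nt

open Polynomial Finset

/-- Vandermonde determinant in the basis `B j` (`Matrix.det_eval_matrixOfPolynomials_eq_det_vandermonde`,
`vander_sq`), the factors `c^(j/2)` taken out of the columns (`c = (1+κ)/2`), then `hadamard_sq`.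
The entry in row `i`, column `j < d` is at most
`2 ‖r_i‖^((j+1)/2) ‖u_i‖^(j/2) ≤ 2 (max 1 ‖r_i‖)^(2d) (max 1 ‖r_i‖⁻¹)^d` by `exists_jouk`,
`sec_bound`: if `‖r_i‖ ≥ 1` the exponent of `‖r_i‖` is at most `(j+1)/2 + 2 (j/2) ≤ 2d`; if
`‖r_i‖ < 1` it is `(j+1)/2 - 2(j/2) ≥ -(j/2) ≥ -d`. -/
theorem vander_arc {d : ℕ} (r : Fin d → ℂ) {κ : ℝ} (hκ : 1 / 2 ≤ κ) (hκ1 : κ < 1)
    (h0 : ∀ i, r i ≠ 0) (hre : ∀ i, (1 - 2 * κ ^ 2) * ‖r i‖ ≤ (r i).re) :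
    ∏ i, ∏ j ∈ univ.erase i, ‖r i - r j‖ ≤
      ((1 + κ) / 2) ^ (2 * ∑ j ∈ range d, j / 2) *
        ∏ i, (4 * (d : ℝ) * (max 1 ‖r i‖) ^ (4 * d) * (max 1 ‖r i‖⁻¹) ^ (2 * d)) := by
  have hc : (0 : ℝ) < (1 + κ) / 2 := by linarith
  have hju : ∀ i, ∃ u : ℂ, 1 ≤ ‖u‖ ∧
      u + u⁻¹ = (r i + (r i)⁻¹ - (1 - (κ : ℂ))) / ((1 + (κ : ℂ)) / 2) := fun i =>
    exists_jouk _
  choose u hu1 hu2 using hju
  have hub : ∀ i, ‖u i‖ ≤ (max ‖r i‖ ‖r i‖⁻¹) ^ 2 := fun i =>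
    sec_bound hκ hκ1 (h0 i) (hre i) (hu1 i) (hu2 i)
  obtain ⟨B, hB1, hB2⟩ := cheb_polys (show (-1 : ℝ) < κ by linarith)
  have hM : (Matrix.vandermonde r).det =
      (Matrix.of (fun i j : Fin d => ((B j).eval (r i)))).det :=
    Matrix.det_eval_matrixOfPolynomials_eq_det_vandermonde r (fun j : Fin d => B j)
      (fun j => (hB1 j).2) (fun j => (hB1 j).1)
  set c : ℝ := (1 + κ) / 2 with hcdef
  have hcne : (c : ℂ) ≠ 0 := by exact_mod_cast hc.ne'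
  set A : Matrix (Fin d) (Fin d) ℂ :=
    Matrix.of (fun i j : Fin d => ((c : ℂ) ^ ((j : ℕ) / 2))⁻¹ * (B j).eval (r i)) with hA
  have hMA : (Matrix.of (fun i j : Fin d => ((B j).eval (r i)))) =
      Matrix.of (fun i j : Fin d => (c : ℂ) ^ ((j : ℕ) / 2) * A i j) := by
    ext i j
    simp only [Matrix.of_apply, hA]
    rw [mul_inv_cancel_left₀ (pow_ne_zero _ hcne)]
  have hdet : (Matrix.vandermonde r).det = (∏ j : Fin d, (c : ℂ) ^ ((j : ℕ) / 2)) * A.det := by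
    rw [hM, hMA]
    exact Matrix.det_mul_row (fun j : Fin d => (c : ℂ) ^ ((j : ℕ) / 2)) A
  have hprodc : ∏ j : Fin d, (c : ℂ) ^ ((j : ℕ) / 2) = (c : ℂ) ^ (∑ j ∈ range d, j / 2) := by
    rw [Finset.prod_pow_eq_pow_sum, Fin.sum_univ_eq_sum_range (fun j => j / 2)]
  rw [vander_sq, hdet, hprodc, norm_mul, mul_pow, norm_pow, Complex.norm_real,
    Real.norm_of_nonneg hc.le, ← pow_mul, mul_comm (∑ j ∈ range d, j / 2) 2]
  refine mul_le_mul_of_nonneg_left ?_ (by positivity)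
  refine (hadamard_sq A).trans ?_
  refine prod_le_prod (fun i _ => sum_nonneg fun j _ => by positivity) fun i _ => ?_
  have hent : ∀ j : Fin d, ‖A i j‖ ≤ 2 * (max 1 ‖r i‖) ^ (2 * d) * (max 1 ‖r i‖⁻¹) ^ d := by
    intro j
    have hj := j.2
    have hrp : 0 < ‖r i‖ := norm_pos_iff.mpr (h0 i)
    have h1 := hB2 j (r i) (u i) (h0 i) (hu1 i) (hu2 i)
    have h2 : ‖A i j‖ ≤ 2 * ‖r i‖ ^ (((j : ℕ) + 1) / 2) * ‖u i‖ ^ ((j : ℕ) / 2) := by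
      rw [hA, Matrix.of_apply, norm_mul, norm_inv, norm_pow, Complex.norm_real,
        Real.norm_of_nonneg hc.le, inv_mul_le_iff₀ (by positivity)]
      calc _ ≤ _ := h1
        _ = _ := by ring
    refine h2.trans ?_
    have h3 : ‖u i‖ ^ ((j : ℕ) / 2) ≤ (max ‖r i‖ ‖r i‖⁻¹) ^ (2 * ((j : ℕ) / 2)) := by
      rw [pow_mul]
      exact pow_le_pow_left₀ (norm_nonneg _) (hub i) _
    have h4 : ‖r i‖ ^ (((j : ℕ) + 1) / 2) * (max ‖r i‖ ‖r i‖⁻¹) ^ (2 * ((j : ℕ) / 2)) ≤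
        (max 1 ‖r i‖) ^ (2 * d) * (max 1 ‖r i‖⁻¹) ^ d := by
      rcases le_total 1 ‖r i‖ with hh | hh
      · have hi : ‖r i‖⁻¹ ≤ 1 := inv_le_one_of_one_le₀ hh
        rw [max_eq_right hh, max_eq_left hi, max_eq_left (hi.trans hh), one_pow, mul_one,
          ← pow_add]
        exact pow_le_pow_right₀ hh (by omega)
      · have hi : 1 ≤ ‖r i‖⁻¹ := (one_le_inv₀ hrp).mpr hh
        rw [max_eq_left hh, max_eq_right hi, max_eq_right (hh.trans hi), one_pow, one_mul]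
        have h5 : ‖r i‖ ^ (((j : ℕ) + 1) / 2) ≤ ‖r i‖ ^ ((j : ℕ) / 2) :=
          pow_le_pow_of_le_one hrp.le hh (by omega)
        calc ‖r i‖ ^ (((j : ℕ) + 1) / 2) * ‖r i‖⁻¹ ^ (2 * ((j : ℕ) / 2)) ≤
            ‖r i‖ ^ ((j : ℕ) / 2) * ‖r i‖⁻¹ ^ (2 * ((j : ℕ) / 2)) :=
              mul_le_mul_of_nonneg_right h5 (by positivity)
          _ = ‖r i‖⁻¹ ^ ((j : ℕ) / 2) := by
              rw [two_mul, pow_add, ← mul_assoc, ← mul_pow, mul_inv_cancel₀ hrp.ne', one_pow,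
                one_mul]
          _ ≤ ‖r i‖⁻¹ ^ d := pow_le_pow_right₀ hi (by omega)
    calc 2 * ‖r i‖ ^ (((j : ℕ) + 1) / 2) * ‖u i‖ ^ ((j : ℕ) / 2) ≤
        2 * ‖r i‖ ^ (((j : ℕ) + 1) / 2) * (max ‖r i‖ ‖r i‖⁻¹) ^ (2 * ((j : ℕ) / 2)) :=
          mul_le_mul_of_nonneg_left h3 (by positivity)
      _ = 2 * (‖r i‖ ^ (((j : ℕ) + 1) / 2) * (max ‖r i‖ ‖r i‖⁻¹) ^ (2 * ((j : ℕ) / 2))) := by
          ring
      _ ≤ 2 * ((max 1 ‖r i‖) ^ (2 * d) * (max 1 ‖r i‖⁻¹) ^ d) :=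
          mul_le_mul_of_nonneg_left h4 (by norm_num)
      _ = _ := by ring
  have hent2 : ∀ j ∈ (univ : Finset (Fin d)), ‖A i j‖ ^ 2 ≤
      (2 * (max 1 ‖r i‖) ^ (2 * d) * (max 1 ‖r i‖⁻¹) ^ d) ^ 2 := fun j _ =>
    pow_le_pow_left₀ (norm_nonneg _) (hent j) 2
  refine (sum_le_sum hent2).trans (le_of_eq ?_)
  rw [sum_const, card_univ, Fintype.card_fin, nsmul_eq_mul]
  ring

/-- Energy inequality. Logarithm of `disc_ge'` and `vander_arc`: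
`0 ≤ (2d-1) log|a| + 2 (∑ j/2) log c + d log (4d) + 4d ∑ log⁺‖r_i‖ + 2d ∑ log⁺‖r_i‖⁻¹`, with
`∑ log⁺‖r_i‖ = lM P - log|a|` (`fam_lM`), `∑ log⁺ ‖r_i‖⁻¹ ≤ lM P` (`sum_inv_le`), `log|a| ≥ 0`,
`∑_{j<d} j/2 ≥ d(d-2)/4`, `log c ≤ 0`. Divide by `6d`. -/
theorem energy_ge {P : ℤ[X]} (hP : Irreducible P) (hd : 0 < P.natDegree) {κ : ℝ}
    (hκ : 1 / 2 ≤ κ) (hκ1 : κ < 1)
    (hz : ∀ z : ℂ, aeval z P = 0 → z ≠ 0 ∧ (1 - 2 * κ ^ 2) * ‖z‖ ≤ z.re) :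
    ((P.natDegree : ℝ) - 2) / 12 * (-Real.log ((1 + κ) / 2)) -
      Real.log (4 * P.natDegree) / 6 ≤ lM P := by
  have hP0 : P ≠ 0 := hP.ne_zero
  obtain ⟨d, hdd⟩ : ∃ d, d = P.natDegree := ⟨_, rfl⟩
  obtain ⟨r, hr⟩ : ∃ r : Fin d → ℂ, IsFam P d r := by
    rw [hdd]
    exact fam_exists P hP0
  rw [← hdd] at hd ⊢
  have hinj := fam_inj hr hP
  have hroot : ∀ i, aeval (r i) P = 0 := fun i => (fam_root hr (r i)).2 ⟨i, rfl⟩
  have h0 : ∀ i, r i ≠ 0 := fun i => (hz _ (hroot i)).1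
  have hre : ∀ i, (1 - 2 * κ ^ 2) * ‖r i‖ ≤ (r i).re := fun i => (hz _ (hroot i)).2
  have h1 := disc_ge' hr hd hinj
  have h2 := vander_arc r hκ hκ1 h0 hre
  have hlM := fam_lM hr
  have hinv := sum_inv_le hr h0
  have hlc : P.leadingCoeff ≠ 0 := leadingCoeff_ne_zero.mpr hP0
  have ha1 : (1 : ℝ) ≤ |(P.leadingCoeff : ℝ)| := by
    exact_mod_cast Int.one_le_abs hlc
  have ha0 : 0 ≤ Real.log |(P.leadingCoeff : ℝ)| := Real.log_nonneg ha1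
  have hc : (0 : ℝ) < (1 + κ) / 2 := by linarith
  have hlc0 : Real.log ((1 + κ) / 2) ≤ 0 := Real.log_nonpos hc.le (by linarith)
  have hdR : (0 : ℝ) < (d : ℝ) := by exact_mod_cast hd
  have h3 : 1 ≤ |(P.leadingCoeff : ℝ)| ^ (2 * d - 1) *
      (((1 + κ) / 2) ^ (2 * ∑ j ∈ range d, j / 2) *
        ∏ i, (4 * (d : ℝ) * (max 1 ‖r i‖) ^ (4 * d) * (max 1 ‖r i‖⁻¹) ^ (2 * d))) :=
    h1.trans (mul_le_mul_of_nonneg_left h2 (by positivity))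
  have h4 := Real.log_nonneg h3
  have hpos : ∀ i, 0 < 4 * (d : ℝ) * (max 1 ‖r i‖) ^ (4 * d) * (max 1 ‖r i‖⁻¹) ^ (2 * d) := by
    intro i
    have e1 : 0 < max 1 ‖r i‖ := lt_max_of_lt_left one_pos
    have e2 : 0 < max 1 ‖r i‖⁻¹ := lt_max_of_lt_left one_pos
    positivity
  have ha : 0 < |(P.leadingCoeff : ℝ)| := by linarith
  rw [Real.log_mul (by positivity) (mul_ne_zero (by positivity)
    (prod_ne_zero_iff.mpr fun i _ => (hpos i).ne')), Real.log_mul (by positivity)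
    (prod_ne_zero_iff.mpr fun i _ => (hpos i).ne'), Real.log_prod (fun i _ => (hpos i).ne'),
    Real.log_pow, Real.log_pow] at h4
  have h5 : ∀ i, Real.log (4 * (d : ℝ) * (max 1 ‖r i‖) ^ (4 * d) * (max 1 ‖r i‖⁻¹) ^ (2 * d)) =
      Real.log (4 * d) + 4 * d * Real.log (max 1 ‖r i‖) +
        2 * d * Real.log (max 1 ‖r i‖⁻¹) := by
    intro i
    have e1 : 0 < max 1 ‖r i‖ := lt_max_of_lt_left one_pos
    have e2 : 0 < max 1 ‖r i‖⁻¹ := lt_max_of_lt_left one_pos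
    rw [Real.log_mul (by positivity) (by positivity), Real.log_mul (by positivity) (by positivity),
      Real.log_pow, Real.log_pow]
    push_cast
    ring
  rw [sum_congr rfl fun i _ => h5 i, sum_add_distrib, sum_add_distrib, ← mul_sum, ← mul_sum,
    sum_const, card_univ, Fintype.card_fin, nsmul_eq_mul] at h4
  have hS : ∀ n : ℕ, ((4 * ∑ j ∈ range n, j / 2 : ℕ) : ℝ) = (n : ℝ) * (n - 2) + ((n % 2 : ℕ) : ℝ) := by
    intro n
    induction n with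
    | zero => simp
    | succ n ih =>
      rw [sum_range_succ, mul_add, Nat.cast_add, ih]
      rcases Nat.even_or_odd' n with ⟨m, hm | hm⟩
      · subst hm
        have e1 : 2 * m / 2 = m := by omega
        have e2 : 2 * m % 2 = 0 := by omega
        have e3 : (2 * m + 1) % 2 = 1 := by omega
        rw [e1, e2, e3]
        push_cast
        ring
      · subst hm
        have e1 : (2 * m + 1) / 2 = m := by omega
        have e2 : (2 * m + 1) % 2 = 1 := by omega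
        have e3 : (2 * m + 1 + 1) % 2 = 0 := by omega
        rw [e1, e2, e3]
        push_cast
        ring
  have hS2 : (d : ℝ) * (d - 2) / 4 ≤ ((∑ j ∈ range d, j / 2 : ℕ) : ℝ) := by
    have e2 := hS d
    have e3 : (0 : ℝ) ≤ ((d % 2 : ℕ) : ℝ) := Nat.cast_nonneg _
    rw [Nat.cast_mul] at e2
    push_cast at e2 e3 ⊢
    linarith
  have hcast : ((2 * d - 1 : ℕ) : ℝ) = 2 * (d : ℝ) - 1 := by
    rw [Nat.cast_sub (by omega)]
    push_cast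
    ring
  rw [hcast, Nat.cast_mul, Nat.cast_ofNat] at h4
  have hS3 : ((∑ j ∈ range d, j / 2 : ℕ) : ℝ) * Real.log ((1 + κ) / 2) ≤
      (d : ℝ) * (d - 2) / 4 * Real.log ((1 + κ) / 2) :=
    mul_le_mul_of_nonpos_right hS2 hlc0
  have hsum : ∑ i, Real.log (max 1 ‖r i‖) = lM P - Real.log |(P.leadingCoeff : ℝ)| := by
    rw [hlM]
    ring
  rw [hsum] at h4
  have h6 : 2 * (d : ℝ) * ∑ i, Real.log (max 1 ‖r i‖⁻¹) ≤ 2 * (d : ℝ) * lM P :=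
    mul_le_mul_of_nonneg_left hinv (by positivity)
  have h7 : 0 ≤ (2 * (d : ℝ) + 1) * Real.log |(P.leadingCoeff : ℝ)| := by positivity
  have h8 : 0 ≤ 6 * (d : ℝ) * lM P + (d : ℝ) * (d - 2) / 2 * Real.log ((1 + κ) / 2) +
      (d : ℝ) * Real.log (4 * d) := by
    nlinarith [h4, hS3, h6, h7]
  have h9 : 0 ≤ (d : ℝ) * (6 * lM P + (d - 2) / 2 * Real.log ((1 + κ) / 2) +
      Real.log (4 * d)) := by
    calc (0 : ℝ) ≤ _ := h8
      _ = _ := by ring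
  have h10 : 0 ≤ 6 * lM P + ((d : ℝ) - 2) / 2 * Real.log ((1 + κ) / 2) + Real.log (4 * d) :=
    nonneg_of_mul_nonneg_right h9 hdR
  linarith

end Pool.Agent.Lib.MP_45a27d_nt
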