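import Pool.Agent.Lib.MP_45a27d_nt.Defs

set_option autoImplicit false

namespace Pool.Agent.Lib.MP_45a27d_nt

open Polynomial

/-- Splitting over `ℂ` (use `IsAlgClosed.splits`, `Polynomial.roots`, list the roots by `Fin d`). -/
theorem fam_exists (P : ℤ[X]) (hP : P ≠ 0) : ∃ r : Fin P.natDegree → ℂ, IsFam P P.natDegree r := by
  set Q : ℂ[X] := P.map (Int.castRingHom ℂ) with hQ
  have hinj : Function.Injective (Int.castRingHom ℂ) := (Int.castRingHom ℂ).injective_int
  have hdeg : Q.natDegree = P.natDegree := natDegree_map_eq_of_injective hinj P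
  have hlead : Q.leadingCoeff = ((P.leadingCoeff : ℤ) : ℂ) :=
    leadingCoeff_map_of_injective hinj P
  have hcard : Multiset.card Q.roots = Q.natDegree :=
    splits_iff_card_roots.mp (IsAlgClosed.splits Q)
  have hfac := C_leadingCoeff_mul_prod_multiset_X_sub_C hcard
  have hlen : Q.roots.toList.length = P.natDegree := by
    rw [Multiset.length_toList, hcard, hdeg]
  refine ⟨fun i => Q.roots.toList.get (i.cast hlen.symm), hP, ?_⟩
  rw [← hQ, ← hlead]
  conv_lhs => rw [← hfac]
  congr 1
  have h1 : (Q.roots.map fun a => X - C a).prod =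
      (Q.roots.toList.map fun a => (X - C a : ℂ[X])).prod := by
    conv_lhs => rw [← Multiset.coe_toList Q.roots]
    rw [Multiset.map_coe, Multiset.prod_coe]
  rw [h1]
  have h2 : ∀ (L : List ℂ) (n : ℕ) (h : L.length = n),
      (L.map fun a => (X - C a : ℂ[X])).prod = ∏ i : Fin n, (X - C (L.get (i.cast h.symm))) := by
    intro L n h
    subst h
    rw [← List.prod_ofFn]
    congr 1
    apply List.ext_get
    · simp
    · intro k h1 h2
      simp
  exact h2 _ _ hlen

theorem fam_natDegree {P : ℤ[X]} {d : ℕ} {r : Fin d → ℂ} (h : IsFam P d r) :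
    P.natDegree = d := by
  obtain ⟨hP, hf⟩ := h
  have hinj : Function.Injective (Int.castRingHom ℂ) := (Int.castRingHom ℂ).injective_int
  have h1 : (P.map (Int.castRingHom ℂ)).natDegree = P.natDegree :=
    natDegree_map_eq_of_injective hinj P
  have hl : ((P.leadingCoeff : ℤ) : ℂ) ≠ 0 := by
    exact_mod_cast leadingCoeff_ne_zero.mpr hP
  rw [← h1, hf, natDegree_C_mul hl, natDegree_finsetProd_X_sub_C_eq_card]
  simp

theorem fam_root {P : ℤ[X]} {d : ℕ} {r : Fin d → ℂ} (h : IsFam P d r) (z : ℂ) :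
    aeval z P = 0 ↔ ∃ i, r i = z := by
  have hl : ((P.leadingCoeff : ℤ) : ℂ) ≠ 0 := by
    exact_mod_cast leadingCoeff_ne_zero.mpr h.1
  have h1 : aeval z P = eval z (P.map (Int.castRingHom ℂ)) := by
    rw [eval_map, aeval_def]
    rfl
  rw [h1, h.2, eval_mul, eval_C, eval_prod, mul_eq_zero, Finset.prod_eq_zero_iff]
  constructor
  · rintro (h2 | ⟨i, -, h2⟩)
    · exact absurd h2 hl
    · refine ⟨i, ?_⟩
      rw [eval_sub, eval_X, eval_C, sub_eq_zero] at h2
      exact h2.symm
  · rintro ⟨i, rfl⟩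
    exact Or.inr ⟨i, Finset.mem_univ i, by simp⟩

/-- `P(z) = a ∏ (z - r_i)`. -/
theorem fam_eval {P : ℤ[X]} {d : ℕ} {r : Fin d → ℂ} (h : IsFam P d r) (z : ℂ) :
    aeval z P = (P.leadingCoeff : ℂ) * ∏ i, (z - r i) := by
  have h1 : aeval z P = eval z (P.map (Int.castRingHom ℂ)) := by
    rw [eval_map, aeval_def]
    rfl
  rw [h1, h.2, eval_mul, eval_C, eval_prod]
  congr 1
  apply Finset.prod_congr rfl
  intro i _
  simp

/-- From `Polynomial.mahlerMeasure_eq_leadingCoeff_mul_prod_roots`. -/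
theorem fam_lM {P : ℤ[X]} {d : ℕ} {r : Fin d → ℂ} (h : IsFam P d r) :
    lM P = Real.log |(P.leadingCoeff : ℝ)| + ∑ i, Real.log (max 1 ‖r i‖) := by
  have hl : ((P.leadingCoeff : ℤ) : ℂ) ≠ 0 := by
    exact_mod_cast leadingCoeff_ne_zero.mpr h.1
  have hinj : Function.Injective (Int.castRingHom ℂ) := (Int.castRingHom ℂ).injective_int
  have hlead : (P.map (Int.castRingHom ℂ)).leadingCoeff = ((P.leadingCoeff : ℤ) : ℂ) :=
    leadingCoeff_map_of_injective hinj P
  have hroots : (P.map (Int.castRingHom ℂ)).roots = Finset.univ.val.map r := by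
    rw [h.2, roots_C_mul _ hl]
    have : (∏ i, (X - C (r i)) : ℂ[X]) = ((Finset.univ.val.map r).map fun a => X - C a).prod := by
      rw [Multiset.map_map]
      rfl
    rw [this, roots_multiset_prod_X_sub_C]
  have hnorm : ‖((P.leadingCoeff : ℤ) : ℂ)‖ = |(P.leadingCoeff : ℝ)| := by
    rw [Complex.norm_intCast]
  unfold lM
  rw [mahlerMeasure_eq_leadingCoeff_mul_prod_roots, hlead, hroots, hnorm, Multiset.map_map]
  have hp : (Multiset.map ((fun a : ℂ => max 1 ‖a‖) ∘ r) Finset.univ.val).prod =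
      ∏ i, max 1 ‖r i‖ := rfl
  rw [hp, Real.log_mul, Real.log_prod]
  · intro i _
    positivity
  · rw [← hnorm]
    exact norm_ne_zero_iff.mpr hl
  · exact Finset.prod_ne_zero_iff.mpr fun i _ => by positivity

/-- An irreducible integer polynomial has simple roots (it is irreducible over `ℚ` by Gauss,
hence separable). If `d = 0` the statement is empty. -/
theorem fam_inj {P : ℤ[X]} {d : ℕ} {r : Fin d → ℂ} (h : IsFam P d r) (hP : Irreducible P) :
    Function.Injective r := by
  rcases Nat.eq_zero_or_pos d with hd | hd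
  · subst hd
    intro i
    exact i.elim0
  have hdeg := fam_natDegree h
  have hprim : P.IsPrimitive := hP.isPrimitive (by omega)
  have h1 : Irreducible (P.map (Int.castRingHom ℚ)) :=
    (Polynomial.IsPrimitive.Int.irreducible_iff_irreducible_map_cast hprim).mp hP
  have h2 : (P.map (Int.castRingHom ℚ)).Separable := h1.separable
  have h3 : (P.map (Int.castRingHom ℂ)).Separable := by
    have h4 := h2.map (f := algebraMap ℚ ℂ)
    rw [Polynomial.map_map] at h4
    have h5 : (algebraMap ℚ ℂ).comp (Int.castRingHom ℚ) = Int.castRingHom ℂ :=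
      RingHom.ext_int _ _
    rwa [h5] at h4
  rw [h.2] at h3
  exact separable_prod_X_sub_C_iff.mp h3.of_mul_right

end Pool.Agent.Lib.MP_45a27d_nt
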