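import Pool.Agent.Lib.MP_45a27d_nt.Fam

set_option autoImplicit false

namespace Pool.Agent.Lib.MP_45a27d_nt

open Polynomial

/-- `a^m ∏ Q(r_i)` is the resultant of `P` and `Q` (formal degree `m` for `Q`), so an integer.
Use `Polynomial.resultant_eq_prod_eval` over `ℂ` together with `resultant_map_map`. -/
theorem fam_int {P : ℤ[X]} {d : ℕ} {r : Fin d → ℂ} (h : IsFam P d r) (Q : ℤ[X]) (m : ℕ)
    (hm : Q.natDegree ≤ m) :
    ∃ z : ℤ, (P.leadingCoeff : ℂ) ^ m * ∏ i, aeval (r i) Q = (z : ℂ) := by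
  have hinj : Function.Injective (Int.castRingHom ℂ) := Int.cast_injective
  refine ⟨P.resultant Q P.natDegree m, ?_⟩
  have hlc : ((P.leadingCoeff : ℤ) : ℂ) ≠ 0 := by
    simpa using h.1
  have hroots : (P.map (Int.castRingHom ℂ)).roots = Multiset.map r Finset.univ.val := by
    rw [h.2, roots_C_mul _ hlc]
    have e1 : (∏ i, (X - C (r i)) : ℂ[X]) =
        ((Multiset.map r Finset.univ.val).map fun a => X - C a).prod := by
      rw [Multiset.map_map]; rfl
    rw [e1, roots_multiset_prod_X_sub_C]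
  have hres := resultant_eq_prod_eval (P.map (Int.castRingHom ℂ)) (Q.map (Int.castRingHom ℂ)) m
    (natDegree_map_le.trans hm) (IsAlgClosed.splits _)
  rw [resultant_map_map, natDegree_map_eq_of_injective hinj,
    leadingCoeff_map_of_injective hinj, hroots, Multiset.map_map] at hres
  have e : ((P.resultant Q P.natDegree m : ℤ) : ℂ) =
    (Int.castRingHom ℂ) (P.resultant Q P.natDegree m) := rfl
  rw [e, hres]
  congr 1
  rw [Finset.prod]
  congr 1
  refine Multiset.map_congr rfl ?_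
  intro i _
  simp only [Function.comp]
  rw [eval_map, aeval_def]
  rfl

private theorem famint_frob (P : ℤ[X]) {p : ℕ} (hp : p.Prime) :
    ∃ H : ℤ[X], expand ℤ p P = P ^ p + C (p : ℤ) * H := by
  have : Fact p.Prime := ⟨hp⟩
  have h1 : (expand ℤ p P - P ^ p).map (Int.castRingHom (ZMod p)) = 0 := by
    rw [Polynomial.map_sub, map_expand, ZMod.expand_card, Polynomial.map_pow, sub_self]
  have h2 : C (p : ℤ) ∣ expand ℤ p P - P ^ p := by
    rw [C_dvd_iff_dvd_coeff]
    intro i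
    have := congrArg (fun q => coeff q i) h1
    simp only [coeff_map, coeff_zero] at this
    exact (ZMod.intCast_zmod_eq_zero_iff_dvd _ p).1 this
  obtain ⟨H, hH⟩ := h2
  exact ⟨H, by rw [← hH]; ring⟩

/-- Frobenius: `P(X^p) = P(X)^p + p H(X)` in `ℤ[X]`, so `P(r_i^p) = p H(r_i)` and
`∏ P(r_i^p) = p^d ∏ H(r_i)`; `∏ H(r_i)` is an integer by `fam_int` (here `P` is monic). -/
theorem fam_frob {P : ℤ[X]} {d : ℕ} {r : Fin d → ℂ} (h : IsFam P d r) (hmon : P.Monic)
    {p : ℕ} (hp : p.Prime) :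
    ∃ z : ℤ, ∏ i, aeval (r i ^ p) P = (p : ℂ) ^ d * (z : ℂ) := by
  obtain ⟨H, hH⟩ := famint_frob P hp
  obtain ⟨z, hz⟩ := fam_int h H H.natDegree le_rfl
  refine ⟨z, ?_⟩
  rw [hmon.leadingCoeff, Int.cast_one, one_pow, one_mul] at hz
  rw [← hz]
  have : ∀ i, aeval (r i ^ p) P = (p : ℂ) * aeval (r i) H := by
    intro i
    rw [← expand_aeval, hH, map_add, map_pow, map_mul, (fam_root h (r i)).2 ⟨i, rfl⟩,
      zero_pow hp.ne_zero, zero_add, aeval_C]
    simp
  rw [Finset.prod_congr rfl (fun i _ => this i), Finset.prod_mul_distrib, Finset.prod_const,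
    Finset.card_univ, Fintype.card_fin]

end Pool.Agent.Lib.MP_45a27d_nt
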