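import Mathlib

set_option autoImplicit false

namespace Pool.Agent.Lib.MP_45a27d_nt

open Polynomial Finset

open scoped ComplexOrder in
private theorem Had_unit {n : ℕ} (B : Matrix (Fin n) (Fin n) ℂ) (h : ∀ i, ∑ j, ‖B i j‖ ^ 2 = 1) :
    ‖B.det‖ ^ 2 ≤ 1 := by
  classical
  have hG : (B * B.conjTranspose).PosSemidef := Matrix.posSemidef_self_mul_conjTranspose B
  have hdet : (B * B.conjTranspose).det = ∏ i, (hG.1.eigenvalues i : ℂ) :=
    hG.1.det_eq_prod_eigenvalues
  have htr : (B * B.conjTranspose).trace = ∑ i, (hG.1.eigenvalues i : ℂ) :=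
    hG.1.trace_eq_sum_eigenvalues
  have hmul : ∀ z : ℂ, z * star z = ((‖z‖ ^ 2 : ℝ) : ℂ) := by
    intro z
    have := Complex.mul_conj z
    rw [Complex.normSq_eq_norm_sq] at this
    exact this
  have htr2 : (B * B.conjTranspose).trace = ((n : ℝ) : ℂ) := by
    rw [Matrix.trace]
    have h1 : ∀ i, (B * B.conjTranspose).diag i = ((1 : ℝ) : ℂ) := by
      intro i
      rw [Matrix.diag_apply, Matrix.mul_apply, ← h i, Complex.ofReal_sum]
      refine sum_congr rfl fun j _ => ?_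
      rw [Matrix.conjTranspose_apply]
      exact hmul _
    rw [sum_congr rfl fun i _ => h1 i]
    simp
  have hsum : ∑ i, hG.1.eigenvalues i = n := by
    rw [htr2] at htr
    exact_mod_cast htr.symm
  have hdet2 : ((‖B.det‖ ^ 2 : ℝ) : ℂ) = ∏ i, (hG.1.eigenvalues i : ℂ) := by
    rw [← hdet, Matrix.det_mul, Matrix.det_conjTranspose]
    exact (hmul _).symm
  have hdet3 : ‖B.det‖ ^ 2 = ∏ i, hG.1.eigenvalues i := by exact_mod_cast hdet2
  rw [hdet3]
  calc ∏ i, hG.1.eigenvalues i ≤ ∏ i, Real.exp (hG.1.eigenvalues i - 1) :=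
        prod_le_prod (fun i _ => hG.eigenvalues_nonneg i)
          (fun i _ => by linarith [Real.add_one_le_exp (hG.1.eigenvalues i - 1)])
    _ = Real.exp (∑ i, (hG.1.eigenvalues i - 1)) := (Real.exp_sum _ _).symm
    _ = 1 := by
        rw [sum_sub_distrib, hsum]
        simp

/-- Hadamard's inequality (rows). Proof: if some row is zero both sides vanish. Otherwise
normalise the rows to norm one (`Matrix.det_mul_column`/`det_mul_row`); for a matrix `B` with rows
of norm one, `G = B * Bᴴ` is positive semidefinite with trace `n`, so by AM-GM for its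
(nonnegative) eigenvalues `‖det B‖^2 = det G = ∏ λ_i ≤ (∑ λ_i / n)^n = 1`
(`Matrix.IsHermitian.det_eq_prod_eigenvalues`, `Matrix.IsHermitian.trace_eq_sum_eigenvalues`,
`Real.inner_le_nnorm_mul_nnorm`-free: `Real.geom_mean_le_arith_mean`, or use
`Finset.prod_le_one`-type argument `λ ≤ exp (λ - 1)`: `∏ λ_i ≤ exp (∑ (λ_i - 1)) = 1`, which is
the quickest). -/
theorem hadamard_sq {n : ℕ} (A : Matrix (Fin n) (Fin n) ℂ) :
    ‖A.det‖ ^ 2 ≤ ∏ i, ∑ j, ‖A i j‖ ^ 2 := by
  classical
  set s : Fin n → ℝ := fun i => ∑ j, ‖A i j‖ ^ 2 with hs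
  have hs0 : ∀ i, 0 ≤ s i := fun i => sum_nonneg fun j _ => sq_nonneg _
  by_cases h0 : ∃ i, s i = 0
  · obtain ⟨i, hi⟩ := h0
    have hrow : ∀ j, A i j = 0 := by
      intro j
      have h1 := (sum_eq_zero_iff_of_nonneg (fun j _ => sq_nonneg ‖A i j‖)).1 hi j (mem_univ j)
      exact norm_eq_zero.1 (pow_eq_zero_iff (two_ne_zero)|>.1 h1)
    rw [Matrix.det_eq_zero_of_row_eq_zero i hrow, norm_zero, zero_pow two_ne_zero]
    exact prod_nonneg fun i _ => hs0 i
  · push Not at h0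
    have hsp : ∀ i, 0 < s i := fun i => lt_of_le_of_ne (hs0 i) (h0 i).symm
    set c : Fin n → ℝ := fun i => (Real.sqrt (s i))⁻¹ with hc
    have hcp : ∀ i, 0 < c i := fun i => inv_pos.2 (Real.sqrt_pos.2 (hsp i))
    have hc2 : ∀ i, c i ^ 2 * s i = 1 := by
      intro i
      rw [hc]
      simp only
      rw [inv_pow, Real.sq_sqrt (hs0 i), inv_mul_cancel₀ (hsp i).ne']
    set B : Matrix (Fin n) (Fin n) ℂ := Matrix.of fun i j => (c i : ℂ) * A i j with hB
    have hBij : ∀ i j, B i j = (c i : ℂ) * A i j := fun i j => rfl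
    have hdet : B.det = (∏ i, (c i : ℂ)) * A.det := Matrix.det_mul_column (fun i => (c i : ℂ)) A
    have hu : ‖B.det‖ ^ 2 ≤ 1 := by
      refine Had_unit B fun i => ?_
      have h1 : ∀ j, ‖B i j‖ ^ 2 = c i ^ 2 * ‖A i j‖ ^ 2 := by
        intro j
        rw [hBij, norm_mul, mul_pow, Complex.norm_real, Real.norm_eq_abs, sq_abs]
      rw [sum_congr rfl fun j _ => h1 j, ← mul_sum]
      exact hc2 i
    have hn : ‖B.det‖ ^ 2 = (∏ i, c i ^ 2) * ‖A.det‖ ^ 2 := by
      rw [hdet, norm_mul, mul_pow, norm_prod, ← prod_pow]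
      congr 1
      refine prod_congr rfl fun i _ => ?_
      rw [Complex.norm_real, Real.norm_eq_abs, sq_abs]
    have hprod : (∏ i, c i ^ 2) * ∏ i, s i = 1 := by
      rw [← prod_mul_distrib]
      exact prod_eq_one fun i _ => hc2 i
    have hcpos : 0 < ∏ i, c i ^ 2 := prod_pos fun i _ => pow_pos (hcp i) 2
    rw [hn, ← hprod] at hu
    exact le_of_mul_le_mul_left hu hcpos

end Pool.Agent.Lib.MP_45a27d_nt
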