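import Pool.Agent.Lib.MP_45a27d_nt.Energy
import Pool.Agent.Lib.MP_45a27d_nt.Dob

set_option autoImplicit false

namespace Pool.Agent.Lib.MP_45a27d_nt

open Polynomial

/-- `|arg z| ≤ π - ε` gives `Re z ≥ -cos ε ‖z‖ = (1 - 2κ²)‖z‖` with `κ = cos (ε/2)`. -/
theorem re_of_arg {ε : ℝ} (h0 : 0 < ε) (h1 : ε ≤ 1) {z : ℂ} (hz : z ≠ 0)
    (h : z ∉ V (Real.pi - ε)) : (1 - 2 * Real.cos (ε / 2) ^ 2) * ‖z‖ ≤ z.re := by
  have harg : |Complex.arg z| ≤ Real.pi - ε := by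
    by_contra hc
    push Not at hc
    exact h ⟨hz, hc⟩
  have hpi := Real.pi_gt_three
  have hn : 0 < ‖z‖ := norm_pos_iff.2 hz
  have hcos : Real.cos (Real.pi - ε) ≤ Real.cos (Complex.arg z) := by
    rw [← Real.cos_abs (Complex.arg z)]
    exact Real.cos_le_cos_of_nonneg_of_le_pi (abs_nonneg _) (by linarith) harg
  rw [Real.cos_pi_sub] at hcos
  rw [Complex.cos_arg hz, le_div_iff₀ hn] at hcos
  have h2 : Real.cos ε = 2 * Real.cos (ε / 2) ^ 2 - 1 := by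
    rw [← Real.cos_two_mul]
    congr 1
    ring
  rw [h2] at hcos
  linarith

/-- `-log ((1 + cos (ε/2))/2) ≥ (1 - cos (ε/2))/2 ≥ ε²/40`, and `1/2 ≤ cos (ε/2) < 1`. -/
theorem kappa_bounds {ε : ℝ} (h0 : 0 < ε) (h1 : ε ≤ 1) :
    1 / 2 ≤ Real.cos (ε / 2) ∧ Real.cos (ε / 2) < 1 ∧
      ε ^ 2 / 40 ≤ -Real.log ((1 + Real.cos (ε / 2)) / 2) := by
  have hpi := Real.pi_gt_three
  have hpi4 := Real.pi_le_four
  have ha : 1 - (ε / 2) ^ 2 / 2 ≤ Real.cos (ε / 2) := Real.one_sub_sq_div_two_le_cos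
  have hsin : 2 / Real.pi * (ε / 4) ≤ Real.sin (ε / 4) :=
    Real.mul_le_sin (by linarith) (by linarith)
  have hsq : Real.cos (ε / 2) = 1 - 2 * Real.sin (ε / 4) ^ 2 := by
    have := Real.cos_two_mul (ε / 4)
    have h3 := Real.sin_sq_add_cos_sq (ε / 4)
    rw [show 2 * (ε / 4) = ε / 2 by ring] at this
    linarith
  have hpos : 0 < 2 / Real.pi * (ε / 4) := by positivity
  have hsinpos : 0 < Real.sin (ε / 4) := lt_of_lt_of_le hpos hsin
  have hge : 1 / 2 ≤ Real.cos (ε / 2) := by nlinarith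
  have hpi10 : Real.pi ^ 2 ≤ 10 := by
    have := Real.pi_lt_d2
    nlinarith
  have hs2 : ε ^ 2 / 40 ≤ Real.sin (ε / 4) ^ 2 := by
    have h4 : (2 / Real.pi * (ε / 4)) ^ 2 ≤ Real.sin (ε / 4) ^ 2 := by
      gcongr
    have h5 : (2 / Real.pi * (ε / 4)) ^ 2 = ε ^ 2 / (4 * Real.pi ^ 2) := by
      field_simp
      ring
    rw [h5] at h4
    refine le_trans ?_ h4
    refine div_le_div_of_nonneg_left (by positivity) (by positivity) (by linarith)
  refine ⟨hge, by nlinarith, ?_⟩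
  have hlog : Real.log ((1 + Real.cos (ε / 2)) / 2) ≤ (1 + Real.cos (ε / 2)) / 2 - 1 :=
    Real.log_le_sub_one_of_pos (by linarith)
  nlinarith

/-- Large degree: `energy_ge`, `re_of_arg`, `kappa_bounds`. -/
theorem low_energy {ε : ℝ} (h0 : 0 < ε) (h1 : ε ≤ 1) {P : ℤ[X]} (hP : Adm (V (Real.pi - ε)) P) :
    ((P.natDegree : ℝ) - 2) * ε ^ 2 / 480 - Real.log (4 * P.natDegree) / 6 ≤ lM P := by
  obtain ⟨hirr, hd, hz⟩ := hP
  obtain ⟨k1, k2, k3⟩ := kappa_bounds h0 h1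
  have hd1 : (1 : ℝ) ≤ (P.natDegree : ℝ) := by exact_mod_cast hd
  have hlogd : 0 ≤ Real.log (4 * P.natDegree) := Real.log_nonneg (by linarith)
  rcases Nat.lt_or_ge P.natDegree 2 with h2 | h2
  · have h3 : P.natDegree = 1 := by omega
    have hlead := log_lead_le_lM hirr.ne_zero
    have hl0 : 0 ≤ Real.log |(P.leadingCoeff : ℝ)| := by
      refine Real.log_nonneg ?_
      have : (1 : ℤ) ≤ |P.leadingCoeff| := Int.one_le_abs (leadingCoeff_ne_zero.2 hirr.ne_zero)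
      exact_mod_cast this
    have h4 : ((P.natDegree : ℝ) - 2) * ε ^ 2 / 480 ≤ 0 := by
      rw [h3]
      have : 0 < ε ^ 2 := by positivity
      norm_num
      linarith
    linarith
  · have h3 := energy_ge hirr hd k1 k2 (fun z hzr => ⟨(hz z hzr).1,
      re_of_arg h0 h1 (hz z hzr).1 (hz z hzr).2.2⟩)
    refine le_trans ?_ h3
    have hd2 : (2 : ℝ) ≤ (P.natDegree : ℝ) := by exact_mod_cast h2
    have h4 : ((P.natDegree : ℝ) - 2) * ε ^ 2 / 480 ≤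
        ((P.natDegree : ℝ) - 2) / 12 * (-Real.log ((1 + Real.cos (ε / 2)) / 2)) := by
      calc ((P.natDegree : ℝ) - 2) * ε ^ 2 / 480 = ((P.natDegree : ℝ) - 2) / 12 * (ε ^ 2 / 40) := by
            ring
        _ ≤ _ := by
            gcongr
    linarith

end Pool.Agent.Lib.MP_45a27d_nt
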