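import Pool.Agent.Lib.MP_45a27d_nt.Low

set_option autoImplicit false

namespace Pool.Agent.Lib.MP_45a27d_nt

open Polynomial

/-- `log (4D) ≤ 4 √D`. -/
private theorem lowFin_log {D : ℝ} (hD : 0 < D) : Real.log (4 * D) ≤ 4 * Real.sqrt D := by
  have h1 : 0 < Real.sqrt D := Real.sqrt_pos.2 hD
  have h2 : 4 * D = (2 * Real.sqrt D) ^ 2 := by
    rw [mul_pow, Real.sq_sqrt hD.le]
    norm_num
  rw [h2, Real.log_pow]
  have h3 := Real.log_le_sub_one_of_pos (show 0 < 2 * Real.sqrt D by positivity)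
  push_cast
  linarith

private theorem lowFin_energy {ε : ℝ} (h0 : 0 < ε) (h1 : ε ≤ 1) {P : ℤ[X]}
    (hP : Adm (V (Real.pi - ε)) P) (hD : 4 ≤ P.natDegree)
    (hl : Real.log (4 * P.natDegree) ≤ P.natDegree * ε ^ 2 / 320) :
    1 / 1920 * ε ^ 2 * P.natDegree ≤ lM P := by
  have h2 := low_energy h0 h1 hP
  have h3 : (4 : ℝ) ≤ (P.natDegree : ℝ) := by exact_mod_cast hD
  have h4 : 0 < ε ^ 2 := by positivity
  nlinarith

/-- Let `D = natDegree P`, `l = log (1/ε)`. If `D ≥ 4` and `log (4D) ≤ D ε²/320` then `low_energy`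
gives `lM P ≥ D ε²/960 - D ε²/1920`. Otherwise `D ≤ 320 ε⁻² log (4D)` or `D < 4`; with
`log (4D) ≤ 4 √D` this gives `√D ≤ 1280 ε⁻²`, `1 + log D ≤ 16 (1 + l)` and then
`D ≤ 5440 ε⁻² (1 + l)`; use `dobrowolski`. -/
theorem low_bound : ∃ c : ℝ, 0 < c ∧ ∀ ε : ℝ, 0 < ε → ε ≤ 1 → ∀ P : ℤ[X],
    Adm (V (Real.pi - ε)) P →
    c * ε ^ 2 / (1 + Real.log (1 / ε)) ^ 4 * P.natDegree ≤ lM P := by
  obtain ⟨c0, hc0, hdob⟩ := dobrowolski
  refine ⟨min (1 / 1920) (c0 / (5760 * 4913)), lt_min (by norm_num) (by positivity), ?_⟩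
  intro ε h0 h1 P hP
  obtain ⟨c, hc⟩ : ∃ c : ℝ, c = min (1 / 1920) (c0 / (5760 * 4913)) := ⟨_, rfl⟩
  rw [← hc]
  have hc1 : c ≤ 1 / 1920 := by rw [hc]; exact min_le_left _ _
  have hc2 : c ≤ c0 / (5760 * 4913) := by rw [hc]; exact min_le_right _ _
  have hcp : 0 < c := by rw [hc]; exact lt_min (by norm_num) (by positivity)
  obtain ⟨L, hL⟩ : ∃ L : ℝ, L = Real.log (1 / ε) := ⟨_, rfl⟩
  rw [← hL]
  have hL0 : 0 ≤ L := by
    rw [hL]
    apply Real.log_nonneg
    rw [le_div_iff₀ h0]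
    linarith
  have hD1 : 1 ≤ P.natDegree := hP.2.1
  have hDr : (1 : ℝ) ≤ (P.natDegree : ℝ) := by exact_mod_cast hD1
  have hε2 : 0 < ε ^ 2 := by positivity
  have h1L : 1 ≤ (1 + L) ^ 4 := one_le_pow₀ (by linarith)
  by_cases hA : 4 ≤ P.natDegree ∧ Real.log (4 * P.natDegree) ≤ P.natDegree * ε ^ 2 / 320
  · refine le_trans ?_ (lowFin_energy h0 h1 hP hA.1 hA.2)
    refine mul_le_mul_of_nonneg_right ?_ (by linarith)
    refine (div_le_self (by positivity) h1L).trans ?_
    exact mul_le_mul_of_nonneg_right hc1 hε2.le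
  · obtain ⟨D, hD⟩ : ∃ D : ℝ, D = (P.natDegree : ℝ) := ⟨_, rfl⟩
    have hDd := hdob P hP.1 hP.2.1 (fun z hz => ⟨(hP.2.2 z hz).1, (hP.2.2 z hz).2.1⟩)
    rw [← hD] at hDd hDr ⊢
    have hDp : 0 < D := by linarith
    have hlog0 : 0 ≤ Real.log D := Real.log_nonneg hDr
    have hlog2 : Real.log 2 ≤ 7 / 10 := by linarith [Real.log_two_lt_d9]
    have hlog4 : Real.log 4 ≤ 14 / 10 := by
      have : (4 : ℝ) = 2 ^ 2 := by norm_num
      rw [this, Real.log_pow]
      push_cast
      linarith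
    have key : Real.log D ≤ 16 + 4 * L ∧ D * ε ^ 2 ≤ 5760 * (1 + L) := by
      by_cases h4 : D < 4
      · constructor
        · have := Real.log_le_log hDp h4.le
          linarith
        · have h5 : ε ^ 2 ≤ 1 := pow_le_one₀ h0.le h1
          nlinarith
      · have h5 : D * ε ^ 2 / 320 < Real.log (4 * D) := by
          by_contra hcon
          apply hA
          constructor
          · have : (4 : ℝ) ≤ (P.natDegree : ℝ) := by rw [← hD]; linarith
            exact_mod_cast this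
          · rw [← hD]
            linarith
        have h6 := lowFin_log hDp
        have hs0 : 0 < Real.sqrt D := Real.sqrt_pos.2 hDp
        have hss : Real.sqrt D * Real.sqrt D = D := Real.mul_self_sqrt hDp.le
        have h7 : Real.sqrt D * ε ^ 2 < 1280 := by
          have h8 : Real.sqrt D * (Real.sqrt D * ε ^ 2) < Real.sqrt D * 1280 := by
            rw [← mul_assoc, hss]
            linarith
          exact lt_of_mul_lt_mul_left h8 hs0.le
        have h9 : Real.log (Real.sqrt D * ε ^ 2) ≤ Real.log 1280 :=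
          Real.log_le_log (by positivity) h7.le
        have h10 : Real.log (Real.sqrt D * ε ^ 2) = Real.log D / 2 - 2 * L := by
          rw [Real.log_mul hs0.ne' hε2.ne', Real.log_sqrt hDp.le, Real.log_pow, hL, one_div,
            Real.log_inv]
          push_cast
          ring
        have h11 : Real.log 1280 ≤ 11 * Real.log 2 := by
          have : (11 : ℝ) * Real.log 2 = Real.log (2 ^ 11) := by
            rw [Real.log_pow]
            push_cast
            ring
          rw [this]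
          exact Real.log_le_log (by norm_num) (by norm_num)
        have hlog2' : Real.log 2 ≤ 0.6931471808 := Real.log_two_lt_d9.le
        have h12 : Real.log D ≤ 16 + 4 * L := by
          rw [h10] at h9
          linarith
        refine ⟨h12, ?_⟩
        have h13 : Real.log (4 * D) = Real.log 4 + Real.log D := Real.log_mul (by norm_num) hDp.ne'
        rw [h13] at h5
        linarith
    have h3 : (1 + Real.log D) ^ 3 ≤ (17 * (1 + L)) ^ 3 :=
      pow_le_pow_left₀ (by linarith) (by linarith [key.1]) 3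
    have hL1 : 0 < 1 + L := by linarith
    calc c * ε ^ 2 / (1 + L) ^ 4 * D = c * (D * ε ^ 2) / (1 + L) ^ 4 := by ring
      _ ≤ c * (5760 * (1 + L)) / (1 + L) ^ 4 := by
          apply div_le_div_of_nonneg_right _ (by positivity)
          exact mul_le_mul_of_nonneg_left key.2 hcp.le
      _ = c * 5760 / (1 + L) ^ 3 := by
          field_simp
      _ ≤ c0 / (5760 * 4913) * 5760 / (1 + L) ^ 3 := by
          apply div_le_div_of_nonneg_right _ (by positivity)
          linarith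
      _ = c0 / (17 * (1 + L)) ^ 3 := by
          field_simp
          norm_num
      _ ≤ c0 / (1 + Real.log D) ^ 3 :=
          div_le_div_of_nonneg_left hc0.le (by positivity) h3
      _ ≤ lM P := hDd

/-- Large degree only: `low_energy` and `log (4D) / D → 0`. -/
theorem low_inf : ∃ c : ℝ, 0 < c ∧ ∀ ε : ℝ, 0 < ε → ε ≤ 1 → ∃ N : ℕ, ∀ P : ℤ[X],
    Adm (V (Real.pi - ε)) P → N ≤ P.natDegree → c * ε ^ 2 * P.natDegree ≤ lM P := by
  refine ⟨1 / 1920, by norm_num, ?_⟩
  intro ε h0 h1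
  obtain ⟨M, hM⟩ := exists_nat_ge ((1280 / ε ^ 2) ^ 2)
  refine ⟨max 4 M, ?_⟩
  intro P hP hN
  have hε2 : 0 < ε ^ 2 := by positivity
  have h4 : 4 ≤ P.natDegree := (le_max_left _ _).trans hN
  have hMN : M ≤ P.natDegree := (le_max_right _ _).trans hN
  refine lowFin_energy h0 h1 hP h4 ?_
  have hDp : (0 : ℝ) < (P.natDegree : ℝ) := by
    have : (4 : ℝ) ≤ (P.natDegree : ℝ) := by exact_mod_cast h4
    linarith
  have h5 : (1280 / ε ^ 2) ^ 2 ≤ (P.natDegree : ℝ) := hM.trans (by exact_mod_cast hMN)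
  have h6 : 1280 / ε ^ 2 ≤ Real.sqrt P.natDegree := by
    apply Real.le_sqrt_of_sq_le
    exact h5
  have h7 : 1280 ≤ Real.sqrt P.natDegree * ε ^ 2 := by
    rwa [div_le_iff₀ hε2] at h6
  have hs0 : 0 < Real.sqrt (P.natDegree : ℝ) := Real.sqrt_pos.2 hDp
  have hss : Real.sqrt (P.natDegree : ℝ) * Real.sqrt P.natDegree = P.natDegree :=
    Real.mul_self_sqrt hDp.le
  have h8 := lowFin_log hDp
  have h9 : Real.sqrt (P.natDegree : ℝ) * 1280 ≤ P.natDegree * ε ^ 2 := by
    calc Real.sqrt (P.natDegree : ℝ) * 1280 ≤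
        Real.sqrt (P.natDegree : ℝ) * (Real.sqrt P.natDegree * ε ^ 2) :=
          mul_le_mul_of_nonneg_left h7 hs0.le
      _ = _ := by rw [← mul_assoc, hss]
  linarith

end Pool.Agent.Lib.MP_45a27d_nt
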