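import Pool.Agent.Lib.MP_45a27d_nt.Had

set_option autoImplicit false

namespace Pool.Agent.Lib.MP_45a27d_nt

open Polynomial Finset

/-- `∏_{i ≠ j} |v_i - v_j| = |det Vandermonde|^2` (`Matrix.det_vandermonde`). -/
theorem vander_sq {n : ℕ} (v : Fin n → ℂ) :
    ∏ i, ∏ j ∈ univ.erase i, ‖v i - v j‖ = ‖(Matrix.vandermonde v).det‖ ^ 2 := by
  rw [Matrix.det_vandermonde, norm_prod]
  have h1 : ∏ i, ∏ j ∈ univ.erase i, ‖v i - v j‖ =
      ∏ i, ((∏ j ∈ Iio i, ‖v i - v j‖) * ∏ j ∈ Ioi i, ‖v i - v j‖) := by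
    refine prod_congr rfl fun i _ => ?_
    have h2 : univ.erase i = Iio i ∪ Ioi i := by
      ext j
      simp only [mem_erase, mem_univ, and_true, mem_union, mem_Iio, mem_Ioi]
      constructor
      · intro h
        exact lt_or_gt_of_ne h
      · rintro (h | h)
        · exact h.ne
        · exact h.ne'
    have h3 : Disjoint (Iio i) (Ioi i) := by
      rw [disjoint_left]
      intro j h4 h5
      rw [mem_Iio] at h4
      rw [mem_Ioi] at h5
      exact lt_asymm h4 h5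
    rw [h2, prod_union h3]
  have h4 : ∏ i : Fin n, ∏ j ∈ Iio i, ‖v i - v j‖ = ∏ i : Fin n, ∏ j ∈ Ioi i, ‖v i - v j‖ := by
    have h5 := prod_comm' (s := (univ : Finset (Fin n))) (t := fun i => Iio i) (t' := univ) (s' := fun j => Ioi j)
      (f := fun i j => ‖v i - v j‖) (by
        intro x y
        simp)
    rw [h5]
    refine prod_congr rfl fun i _ => prod_congr rfl fun j _ => ?_
    rw [norm_sub_rev]
  have h6 : ∏ i : Fin n, ‖∏ j ∈ Ioi i, (v j - v i)‖ = ∏ i : Fin n, ∏ j ∈ Ioi i, ‖v i - v j‖ := by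
    refine prod_congr rfl fun i _ => ?_
    rw [norm_prod]
    refine prod_congr rfl fun j _ => ?_
    rw [norm_sub_rev]
  rw [h1, prod_mul_distrib, h4, h6, sq]

/-- Fekete's bound: `vander_sq` and `hadamard_sq` for the Vandermonde matrix; row `i` has
`∑_j ‖v_i‖^(2j) ≤ n (max 1 ‖v_i‖)^(2n)`. Transport along `Fintype.equivFin ι`. -/
theorem points_le {ι : Type} [Fintype ι] [DecidableEq ι] (f : ι → ℂ) :
    ∏ i, ∏ j ∈ univ.erase i, ‖f i - f j‖ ≤
      (Fintype.card ι : ℝ) ^ (Fintype.card ι) * ∏ i, (max 1 ‖f i‖) ^ (2 * Fintype.card ι) := by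
  classical
  set n := Fintype.card ι with hn
  set e : ι ≃ Fin n := Fintype.equivFin ι with he
  set v : Fin n → ℂ := fun k => f (e.symm k) with hv
  have h1 : ∏ i, ∏ j ∈ univ.erase i, ‖f i - f j‖ = ∏ k, ∏ l ∈ univ.erase k, ‖v k - v l‖ := by
    rw [← Equiv.prod_comp e.symm]
    refine prod_congr rfl fun k _ => ?_
    symm
    refine prod_nbij' (fun l => e.symm l) (fun j => e j) ?_ ?_ ?_ ?_ ?_
    · intro l hl
      rw [mem_erase] at hl ⊢
      refine ⟨fun h => hl.1 (e.symm.injective h), mem_univ _⟩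
    · intro j hj
      rw [mem_erase] at hj ⊢
      refine ⟨fun h => hj.1 ?_, mem_univ _⟩
      rw [← h, Equiv.symm_apply_apply]
    · intro l _
      exact e.apply_symm_apply l
    · intro j _
      exact e.symm_apply_apply j
    · intro l _
      rfl
  have h2 : ∏ i, (max 1 ‖f i‖) ^ (2 * n) = ∏ k, (max 1 ‖v k‖) ^ (2 * n) := by
    rw [← Equiv.prod_comp e.symm]
  rw [h1, h2, vander_sq]
  refine (hadamard_sq _).trans ?_
  have h3 : ∀ k : Fin n, ∑ j, ‖Matrix.vandermonde v k j‖ ^ 2 ≤ (n : ℝ) * (max 1 ‖v k‖) ^ (2 * n) := by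
    intro k
    have h4 : ∀ j ∈ (univ : Finset (Fin n)), ‖Matrix.vandermonde v k j‖ ^ 2 ≤ (max 1 ‖v k‖) ^ (2 * n) := by
      intro j _
      rw [Matrix.vandermonde_apply, norm_pow, ← pow_mul]
      have h5 : ‖v k‖ ^ ((j : ℕ) * 2) ≤ (max 1 ‖v k‖) ^ ((j : ℕ) * 2) :=
        pow_le_pow_left₀ (norm_nonneg _) (le_max_right _ _) _
      refine h5.trans (pow_le_pow_right₀ (le_max_left _ _) ?_)
      have := j.2
      omega
    refine (sum_le_sum h4).trans (le_of_eq ?_)
    rw [sum_const, card_univ, Fintype.card_fin, nsmul_eq_mul]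
  refine (prod_le_prod (fun k _ => sum_nonneg fun j _ => by positivity) (fun k _ => h3 k)).trans (le_of_eq ?_)
  rw [prod_mul_distrib, prod_const, card_univ, Fintype.card_fin]

end Pool.Agent.Lib.MP_45a27d_nt
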