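import Mathlib

set_option autoImplicit false

namespace Pool.Agent.Lib.MP_45a27d_nt

/-- Every complex number is `u + 1/u` with `‖u‖ ≥ 1`. -/
theorem exists_jouk (y : ℂ) : ∃ u : ℂ, 1 ≤ ‖u‖ ∧ u + u⁻¹ = y := by
  obtain ⟨s, hs⟩ := IsAlgClosed.exists_pow_nat_eq (y ^ 2 - 4) (n := 2) (by norm_num)
  have h1 : ((y + s) / 2) * ((y - s) / 2) = 1 := by
    have : ((y + s) / 2) * ((y - s) / 2) = (y ^ 2 - s ^ 2) / 4 := by ring
    rw [this, hs]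
    ring
  have h2 : ‖(y + s) / 2‖ * ‖(y - s) / 2‖ = 1 := by
    rw [← norm_mul, h1, norm_one]
  rcases le_or_gt 1 ‖(y + s) / 2‖ with h | h
  · refine ⟨(y + s) / 2, h, ?_⟩
    rw [inv_eq_of_mul_eq_one_right h1]
    ring
  · refine ⟨(y - s) / 2, ?_, ?_⟩
    · by_contra h3
      push Not at h3
      have := mul_lt_one_of_nonneg_of_lt_one_left (norm_nonneg ((y + s) / 2)) h h3.le
      linarith
    · rw [inv_eq_of_mul_eq_one_left h1]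
      ring

/-- Real form. `C = (‖z‖ + ‖z‖⁻¹)/2 ≥ 1`, `g = Re z/‖z‖ ∈ [1 - 2κ², 1]`, `κ ∈ [1/2, 1)`. Then
`(C - g) + √(C² + 2Cgκ + κ² + g² - 1) ≤ (1 + κ)(1 + (3/2)(C - 1))`.
Proof: `g + κ ≥ (1-κ)(1+2κ) > 0`, `(1+g)/(g+κ) ≤ 3/2`, and the root is at most
`T = (g+κ) + (C-1)(1+gκ)/(g+κ)` because `T² - (root)² = (C-1)²((1+gκ)² - (g+κ)²)/(g+κ)²
= (C-1)² (1-g²)(1-κ²)/(g+κ)² ≥ 0`; finally `(C-g) + T = (1+κ) + (C-1)(1+g)(1+κ)/(g+κ)`. -/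
theorem sec_real {C g κ : ℝ} (hC : 1 ≤ C) (hκ : 1 / 2 ≤ κ) (hκ1 : κ < 1)
    (hg : 1 - 2 * κ ^ 2 ≤ g) (hg1 : g ≤ 1) :
    (C - g) + Real.sqrt (C ^ 2 + 2 * C * g * κ + κ ^ 2 + g ^ 2 - 1) ≤
      (1 + κ) * (1 + 3 / 2 * (C - 1)) := by
  have hpos : 0 < g + κ := by nlinarith
  have hgk : 0 ≤ 1 + g * κ := by nlinarith
  have h32 : 2 * (1 + g) ≤ 3 * (g + κ) := by nlinarith
  have hgm : -1 ≤ g := by nlinarith
  obtain ⟨q, hq⟩ : ∃ q, q = (1 + g * κ) / (g + κ) := ⟨_, rfl⟩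
  have hqm : q * (g + κ) = 1 + g * κ := by
    rw [hq, div_mul_cancel₀ _ hpos.ne']
  have hq1 : 1 ≤ q := by
    rw [hq, le_div_iff₀ hpos]
    nlinarith
  have hT : Real.sqrt (C ^ 2 + 2 * C * g * κ + κ ^ 2 + g ^ 2 - 1) ≤ (g + κ) + (C - 1) * q := by
    apply Real.sqrt_le_iff.2
    constructor
    · have := mul_nonneg (sub_nonneg.2 hC) (zero_le_one.trans hq1)
      linarith
    · have e1 : ((g + κ) + (C - 1) * q) ^ 2 =
        (g + κ) ^ 2 + 2 * (C - 1) * (q * (g + κ)) + (C - 1) ^ 2 * q ^ 2 := by ring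
      rw [e1, hqm]
      have e2 : (C - 1) ^ 2 * 1 ≤ (C - 1) ^ 2 * q ^ 2 := by
        apply mul_le_mul_of_nonneg_left _ (sq_nonneg _)
        nlinarith
      nlinarith
  have hfin : (C - g) + ((g + κ) + (C - 1) * q) ≤ (1 + κ) * (1 + 3 / 2 * (C - 1)) := by
    have e3 : (1 + q) ≤ (1 + κ) * (3 / 2) := by
      have e4 : (1 + q) * (g + κ) ≤ ((1 + κ) * (3 / 2)) * (g + κ) := by
        have : (1 + q) * (g + κ) = (1 + g) * (1 + κ) := by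
          rw [add_mul, hqm]; ring
        rw [this]
        nlinarith
      exact le_of_mul_le_mul_right e4 hpos
    have e5 := mul_le_mul_of_nonneg_left e3 (sub_nonneg.2 hC)
    nlinarith
  linarith

end Pool.Agent.Lib.MP_45a27d_nt
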