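import Pool.Agent.Lib.MP_45a27d_nt.UR

set_option autoImplicit false

namespace Pool.Agent.Lib.MP_45a27d_nt

open Polynomial

/-- Eisenstein at `2` (`Polynomial.IsEisensteinAt.irreducible` with the ideal `span {2}`). -/
theorem eis_irred {P : ℤ[X]} (hP : P.Monic) (hd : 0 < P.natDegree)
    (h : ∀ i, i < P.natDegree → (2 : ℤ) ∣ P.coeff i) (h0 : ¬ (4 : ℤ) ∣ P.coeff 0) :
    Irreducible P := by
  have hprime : (Ideal.span {(2 : ℤ)}).IsPrime := by
    rw [Ideal.span_singleton_prime (by norm_num)]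
    exact Int.prime_two
  have hE : P.IsEisensteinAt (Ideal.span {(2 : ℤ)}) := by
    refine ⟨?_, ?_, ?_⟩
    · rw [hP.leadingCoeff, Ideal.mem_span_singleton]
      norm_num
    · intro n hn
      rw [Ideal.mem_span_singleton]
      exact h n hn
    · rw [Ideal.span_singleton_pow, Ideal.mem_span_singleton]
      norm_num
      exact h0
  exact hE.irreducible hprime hP.isPrimitive hd

/-- `P` irreducible and monic, `α ≠ 0` with `P(α + 1/α) = 0`; `g = minpoly ℤ α`. Then `g` is
monic irreducible, divides `RR P`, and `natDegree g ≥ natDegree P`, because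
`α + 1/α ∈ ℚ(α)` has degree `natDegree P`. -/
theorem min_of_RR {P : ℤ[X]} (hP : P.Monic) (hirr : Irreducible P) {α : ℂ} (hα : α ≠ 0)
    (h : aeval (α + α⁻¹) P = 0) :
    ∃ g : ℤ[X], g.Monic ∧ Irreducible g ∧ aeval α g = 0 ∧ g ∣ RR P ∧
      P.natDegree ≤ g.natDegree := by
  have hR : aeval α (RR P) = 0 := by rw [RR_eval P hα, h, mul_zero]
  have hint : IsIntegral ℤ α := ⟨RR P, (RR_monic hP).1, by rwa [aeval_def] at hR⟩
  have hintβ : IsIntegral ℤ (α + α⁻¹) := ⟨P, hP, by rwa [aeval_def] at h⟩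
  refine ⟨minpoly ℤ α, minpoly.monic hint, minpoly.irreducible hint, minpoly.aeval ℤ α,
    minpoly.isIntegrallyClosed_dvd hint hR, ?_⟩
  -- P = minpoly ℤ β
  have hdvd : minpoly ℤ (α + α⁻¹) ∣ P := minpoly.isIntegrallyClosed_dvd hintβ h
  have hPeq : (minpoly ℤ (α + α⁻¹)).natDegree = P.natDegree := by
    have h1 : Associated (minpoly ℤ (α + α⁻¹)) P :=
      (minpoly.irreducible hintβ).associated_of_dvd hirr hdvd
    exact natDegree_eq_of_degree_eq (degree_eq_degree_of_associated h1)
  have hintQ : IsIntegral ℚ α := hint.tower_top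
  have hintQβ : IsIntegral ℚ (α + α⁻¹) := hintβ.tower_top
  have e1 : (minpoly ℤ α).natDegree = (minpoly ℚ α).natDegree := by
    rw [minpoly.isIntegrallyClosed_eq_field_fractions' ℚ hint]
    exact ((minpoly.monic hint).natDegree_map _).symm
  have e2 : (minpoly ℤ (α + α⁻¹)).natDegree = (minpoly ℚ (α + α⁻¹)).natDegree := by
    rw [minpoly.isIntegrallyClosed_eq_field_fractions' ℚ hintβ]
    exact ((minpoly.monic hintβ).natDegree_map _).symm
  rw [e1, ← hPeq, e2]
  have hfin : FiniteDimensional ℚ (IntermediateField.adjoin ℚ {α}) :=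
    IntermediateField.adjoin.finiteDimensional hintQ
  have hmem : α + α⁻¹ ∈ IntermediateField.adjoin ℚ {α} := by
    have hα' : α ∈ IntermediateField.adjoin ℚ {α} :=
      IntermediateField.mem_adjoin_simple_self ℚ α
    exact add_mem hα' (inv_mem hα')
  have e3 := minpoly.natDegree_le (A := ℚ) (⟨α + α⁻¹, hmem⟩ : IntermediateField.adjoin ℚ {α})
  rw [IntermediateField.adjoin.finrank hintQ] at e3
  have e4 : minpoly ℚ (⟨α + α⁻¹, hmem⟩ : IntermediateField.adjoin ℚ {α}) =
      minpoly ℚ (α + α⁻¹) :=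
    (minpoly.algebraMap_eq (B := IntermediateField.adjoin ℚ {α}) (B' := ℂ)
      (algebraMap (IntermediateField.adjoin ℚ {α}) ℂ).injective
      (⟨α + α⁻¹, hmem⟩ : IntermediateField.adjoin ℚ {α})).symm
  rw [e4] at e3
  exact e3

private theorem ualg_one_le {p : ℂ[X]} (h : ‖p.leadingCoeff‖ = 1) : 1 ≤ p.mahlerMeasure :=
  h ▸ leadingCoeff_le_mahlerMeasure p

/-- The Mahler measure of a factor of a monic integer polynomial: the cofactor is `±` monic, so
has Mahler measure at least one (`Polynomial.mahlerMeasure_mul`). -/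
theorem lM_le_of_dvd {g R : ℤ[X]} (hR : R.Monic) (h : g ∣ R) : lM g ≤ lM R := by
  obtain ⟨q, rfl⟩ := h
  have hlc : g.leadingCoeff * q.leadingCoeff = 1 := by
    rw [← leadingCoeff_mul]; exact hR
  have hq : q.leadingCoeff = 1 ∨ q.leadingCoeff = -1 :=
    Int.isUnit_iff.1 (IsUnit.of_mul_eq_one _ (by rw [mul_comm]; exact hlc))
  have hg0 : g ≠ 0 := by rintro rfl; simp at hlc
  have hinj : Function.Injective (Int.castRingHom ℂ) := Int.cast_injective
  have hqlc : ‖(q.map (Int.castRingHom ℂ)).leadingCoeff‖ = 1 := by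
    rw [leadingCoeff_map_of_injective hinj]
    rcases hq with hq | hq <;> rw [hq] <;> simp
  have h1 := ualg_one_le hqlc
  unfold lM
  rw [Polynomial.map_mul, mahlerMeasure_mul]
  have hgpos : 0 < (g.map (Int.castRingHom ℂ)).mahlerMeasure :=
    mahlerMeasure_pos_of_ne_zero ((Polynomial.map_ne_zero_iff hinj).2 hg0)
  refine Real.log_le_log hgpos ?_
  nlinarith

/-- If `g` is irreducible and one root is a root of unity then all its roots are
(`g` divides `X^k - 1` over `ℚ`). -/
theorem root_of_unity_all {g : ℤ[X]} (hg : Irreducible g) {z α : ℂ} (hz : aeval z g = 0)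
    (hα : aeval α g = 0) {k : ℕ} (h : z ^ k = 1) : α ^ k = 1 := by
  have hdeg : g.natDegree ≠ 0 := by
    intro h0
    rw [eq_C_of_natDegree_eq_zero h0] at hz
    have : g.coeff 0 = 0 := by simpa using hz
    have h1 : g = 0 := by rw [eq_C_of_natDegree_eq_zero h0, this, C_0]
    exact hg.ne_zero h1
  have hprim : g.IsPrimitive := hg.isPrimitive hdeg
  have hirr : Irreducible (g.map (Int.castRingHom ℚ)) :=
    (IsPrimitive.Int.irreducible_iff_irreducible_map_cast hprim).1 hg
  have hcomp : ∀ w : ℂ, aeval w g = 0 → aeval w (g.map (Int.castRingHom ℚ)) = 0 := by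
    intro w hw
    rw [aeval_def, eval₂_map]
    rw [aeval_def] at hw
    have e : (algebraMap ℚ ℂ).comp (Int.castRingHom ℚ) = algebraMap ℤ ℂ := by
      apply RingHom.ext_int
    rw [e]
    exact hw
  have hz' : aeval z (g.map (Int.castRingHom ℚ)) = 0 := hcomp z hz
  have hα' : aeval α (g.map (Int.castRingHom ℚ)) = 0 := hcomp α hα
  have hmin := minpoly.eq_of_irreducible hirr hz'
  have hd : minpoly ℚ z ∣ (X ^ k - 1 : ℚ[X]) := minpoly.dvd ℚ z (by simp [h])
  obtain ⟨q, hq⟩ := hd
  rw [← hmin] at hq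
  have := congrArg (aeval α) hq
  simp only [map_mul, hα', zero_mul, map_sub, map_pow, aeval_X, map_one] at this
  exact sub_eq_zero.1 this

end Pool.Agent.Lib.MP_45a27d_nt
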