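import Pool.Agent.Lib.MP_45a27d_nt.Defs

set_option autoImplicit false

namespace Pool.Agent.Lib.MP_45a27d_nt

open Polynomial

/-- Scaled Chebyshev (Dickson) polynomials: `E n m = D_m (X - 4; (2n+1)²)`. -/
noncomputable def Ep (n : ℕ) : ℕ → ℤ[X]
  | 0 => 2
  | 1 => X - 4
  | (m + 2) => (X - 4) * Ep n (m + 1) - C (((2 : ℤ) * n + 1) ^ 2) * Ep n m

/-- Second kind. -/
noncomputable def Fp (n : ℕ) : ℕ → ℤ[X]
  | 0 => 1
  | 1 => X - 4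
  | (m + 2) => (X - 4) * Fp n (m + 1) - C (((2 : ℤ) * n + 1) ^ 2) * Fp n m

/-- `λ = 1 + 1/(2n)`. -/
noncomputable def lam (n : ℕ) : ℝ := 1 + 1 / (2 * n)

/-- The point `2/n + 2 λ cos φ` of the interval `[-2 + 1/n, 2 + 3/n]`. -/
noncomputable def pt (n : ℕ) (φ : ℝ) : ℝ := 2 / n + 2 * lam n * Real.cos φ

/-- Monic Chebyshev polynomials of the interval `[-2 + 1/n, 2 + 3/n]`
(`w n a (x) = (2n)^(-a) E n a (2 n x)`), `w n 0 = 1`. -/
noncomputable def w (n a : ℕ) : ℝ[X] :=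
  if a = 0 then 1 else
    C (((2 * n : ℝ) ^ a)⁻¹) * ((Ep n a).map (Int.castRingHom ℝ)).comp (C (2 * n : ℝ) * X)

end Pool.Agent.Lib.MP_45a27d_nt
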