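import Pool.Agent.Lib.MP_45a27d_nt.UDef

set_option autoImplicit false

namespace Pool.Agent.Lib.MP_45a27d_nt

open Polynomial

private theorem UE_Ep_succ (n m : ℕ) :
    Ep n (m + 2) = (X - 4) * Ep n (m + 1) - C (((2 : ℤ) * n + 1) ^ 2) * Ep n m := rfl

private theorem UE_Fp_succ (n m : ℕ) :
    Fp n (m + 2) = (X - 4) * Fp n (m + 1) - C (((2 : ℤ) * n + 1) ^ 2) * Fp n m := rfl

private theorem UE_four : (X - 4 : ℤ[X]) = X - C 4 := rfl

private theorem UE_monic (n m : ℕ) : (Ep n (m + 1)).Monic ∧ (Ep n (m + 1)).natDegree = m + 1 ∧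
    (Ep n m).natDegree ≤ m := by
  induction m with
  | zero =>
    refine ⟨?_, ?_, ?_⟩
    · change (X - 4 : ℤ[X]).Monic
      rw [UE_four]
      exact monic_X_sub_C 4
    · change (X - 4 : ℤ[X]).natDegree = 1
      rw [UE_four]
      exact natDegree_X_sub_C 4
    · change (2 : ℤ[X]).natDegree ≤ 0
      exact (natDegree_ofNat 2).le
  | succ m ih =>
    obtain ⟨h1, h2, h3⟩ := ih
    have h4 : ((X - 4 : ℤ[X]) * Ep n (m + 1)).Monic := by
      rw [UE_four]
      exact (monic_X_sub_C 4).mul h1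
    have h5 : ((X - 4 : ℤ[X]) * Ep n (m + 1)).natDegree = m + 2 := by
      rw [UE_four, (monic_X_sub_C (4 : ℤ)).natDegree_mul h1, natDegree_X_sub_C, h2]
      omega
    have h6 : (C (((2 : ℤ) * n + 1) ^ 2) * Ep n m).natDegree ≤ m :=
      (natDegree_C_mul_le _ _).trans h3
    have h7 : (C (((2 : ℤ) * n + 1) ^ 2) * Ep n m).natDegree <
        ((X - 4 : ℤ[X]) * Ep n (m + 1)).natDegree := by omega
    refine ⟨?_, ?_, by omega⟩
    · rw [UE_Ep_succ]
      refine h4.sub_of_left (degree_lt_degree h7)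
    · rw [UE_Ep_succ, natDegree_sub_eq_left_of_natDegree_lt h7, h5]

theorem Ep_monic (n m : ℕ) : (Ep n (m + 1)).Monic ∧ (Ep n (m + 1)).natDegree = m + 1 :=
  ⟨(UE_monic n m).1, (UE_monic n m).2.1⟩

/-- Value `2 (2n+1)^m cos (m φ)` at `4 + 2 (2n+1) cos φ`. -/
theorem Ep_eval (n m : ℕ) (φ : ℝ) :
    ((Ep n m).map (Int.castRingHom ℝ)).eval (4 + 2 * (2 * n + 1) * Real.cos φ) =
      2 * (2 * (n : ℝ) + 1) ^ m * Real.cos (m * φ) := by
  induction m using Nat.twoStepInduction with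
  | zero =>
    change ((2 : ℤ[X]).map (Int.castRingHom ℝ)).eval _ = _
    simp
  | one =>
    change ((X - 4 : ℤ[X]).map (Int.castRingHom ℝ)).eval _ = _
    simp
  | more m h1 h2 =>
    rw [UE_Ep_succ, Polynomial.map_sub, Polynomial.map_mul, Polynomial.map_mul, eval_sub, eval_mul,
      eval_mul, h1, h2]
    have h3 : ((X - 4 : ℤ[X]).map (Int.castRingHom ℝ)).eval
        (4 + 2 * (2 * n + 1) * Real.cos φ) = 2 * (2 * n + 1) * Real.cos φ := by simp
    have h4 : ((C (((2 : ℤ) * n + 1) ^ 2) : ℤ[X]).map (Int.castRingHom ℝ)).eval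
        (4 + 2 * (2 * n + 1) * Real.cos φ) = (2 * (n : ℝ) + 1) ^ 2 := by simp
    rw [h3, h4]
    have h5 : Real.cos (((m + 2 : ℕ) : ℝ) * φ) =
        2 * Real.cos φ * Real.cos (((m + 1 : ℕ) : ℝ) * φ) - Real.cos ((m : ℝ) * φ) := by
      have e1 : ((m + 2 : ℕ) : ℝ) * φ = ((m + 1 : ℕ) : ℝ) * φ + φ := by push_cast; ring
      have e2 : (m : ℝ) * φ = ((m + 1 : ℕ) : ℝ) * φ - φ := by push_cast; ring
      rw [e1, e2, Real.cos_add, Real.cos_sub]
      ring
    rw [h5]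
    ring

/-- `E' (m+1) = (m+1) F m`. Induction using `E (m+2) = F (m+2) - b F m`, `b = (2n+1)²`. -/
theorem Ep_deriv (n m : ℕ) : derivative (Ep n (m + 1)) = ((m + 1 : ℕ) : ℤ[X]) * Fp n m := by
  have hEF : ∀ m, Ep n (m + 2) = Fp n (m + 2) - C (((2 : ℤ) * n + 1) ^ 2) * Fp n m := by
    intro m
    induction m using Nat.twoStepInduction with
    | zero =>
      rw [UE_Ep_succ, UE_Fp_succ]
      change (X - 4) * (X - 4) - C (((2 : ℤ) * n + 1) ^ 2) * 2 =
        (X - 4) * (X - 4) - C (((2 : ℤ) * n + 1) ^ 2) * 1 - C (((2 : ℤ) * n + 1) ^ 2) * 1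
      ring
    | one =>
      rw [UE_Ep_succ, UE_Fp_succ, UE_Ep_succ, UE_Fp_succ]
      change (X - 4) * ((X - 4) * (X - 4) - C (((2 : ℤ) * n + 1) ^ 2) * 2) -
          C (((2 : ℤ) * n + 1) ^ 2) * (X - 4) =
        (X - 4) * ((X - 4) * (X - 4) - C (((2 : ℤ) * n + 1) ^ 2) * 1) -
          C (((2 : ℤ) * n + 1) ^ 2) * (X - 4) - C (((2 : ℤ) * n + 1) ^ 2) * (X - 4)
      ring
    | more m h1 h2 =>
      rw [UE_Ep_succ n (m + 2), UE_Fp_succ n (m + 2), h1, show m + 2 + 1 = m + 1 + 2 by ring, h2,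
        UE_Fp_succ n m]
      ring
  have hD : ∀ p q : ℤ[X], derivative ((X - 4) * p - C (((2 : ℤ) * n + 1) ^ 2) * q) =
      p + (X - 4) * derivative p - C (((2 : ℤ) * n + 1) ^ 2) * derivative q := by
    intro p q
    rw [derivative_sub, derivative_mul, derivative_mul, derivative_C, UE_four, derivative_X_sub_C]
    ring
  induction m using Nat.twoStepInduction with
  | zero =>
    change derivative (X - 4 : ℤ[X]) = _ * 1
    rw [UE_four, derivative_X_sub_C]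
    simp
  | one =>
    rw [UE_Ep_succ, hD]
    change (X - 4 : ℤ[X]) + (X - 4) * derivative (X - 4 : ℤ[X]) -
      C (((2 : ℤ) * n + 1) ^ 2) * derivative (2 : ℤ[X]) = _ * (X - 4)
    rw [UE_four, derivative_X_sub_C, derivative_ofNat]
    push_cast
    ring
  | more m h1 h2 =>
    rw [UE_Ep_succ n (m + 1), hD, show m + 1 + 1 = m + 2 by ring] at *
    rw [h2, h1, hEF, UE_Fp_succ n m]
    push_cast
    ring

/-- If `j ∣ m`, `0 < j < m`, then `m / j` divides the coefficient of `X^(m-j)` of `E m`.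
Compare the coefficients of `X^(m-j-1)` in `Ep_deriv`: `(m-j) e = m f`, so `(t-1) e = t f` with
`t = m/j`, and `t` is coprime to `t - 1`. -/
theorem Ep_coeff_dvd (n m j : ℕ) (hj : 0 < j) (hjm : j < m) (h : j ∣ m) :
    ((m / j : ℕ) : ℤ) ∣ (Ep n m).coeff (m - j) := by
  obtain ⟨t, ht⟩ := h
  have ht2 : 2 ≤ t := by
    by_contra hlt
    have : t = 0 ∨ t = 1 := by omega
    rcases this with h0 | h0 <;> subst h0 <;> omega
  have hmj : m / j = t := by rw [ht, Nat.mul_div_cancel_left _ hj]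
  rw [hmj]
  obtain ⟨M, hM⟩ : ∃ M, m = M + 1 := ⟨m - 1, by omega⟩
  have h1 := congrArg (fun p : ℤ[X] => p.coeff (m - j - 1)) (Ep_deriv n M)
  simp only [coeff_derivative] at h1
  rw [← hM, show m - j - 1 + 1 = m - j by omega] at h1
  have h2 : (((m : ℕ) : ℤ[X]) * Fp n M).coeff (m - j - 1) = (m : ℤ) * (Fp n M).coeff (m - j - 1) := by
    rw [← C_eq_natCast, coeff_C_mul]
  rw [h2] at h1
  set e := (Ep n m).coeff (m - j) with he
  set f := (Fp n M).coeff (m - j - 1) with hf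
  have h3 : (((m - j - 1 : ℕ) : ℤ) + 1) = ((t : ℤ) - 1) * j := by
    have h4 : m - j - 1 + 1 = m - j := by omega
    have h5 : ((m - j - 1 : ℕ) : ℤ) + 1 = ((m - j : ℕ) : ℤ) := by exact_mod_cast h4
    rw [h5, Nat.cast_sub hjm.le, ht]
    push_cast
    ring
  rw [h3, ht] at h1
  have hj0 : (j : ℤ) ≠ 0 := by exact_mod_cast hj.ne'
  have h6 : e * ((t : ℤ) - 1) = t * f := by
    have h7 : (j : ℤ) * (e * ((t : ℤ) - 1)) = j * (t * f) := by
      push_cast at h1
      linear_combination h1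
    exact mul_left_cancel₀ hj0 h7
  have h8 : IsCoprime (t : ℤ) ((t : ℤ) - 1) := ⟨1, -1, by ring⟩
  exact h8.dvd_of_dvd_mul_right ⟨f, h6⟩

end Pool.Agent.Lib.MP_45a27d_nt
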