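import Mathlib

set_option autoImplicit false

namespace Pool.Agent.Lib.MP_45a27d_nt

open Polynomial

private theorem step (W : ℕ → ℝ[X]) (hW : ∀ a, (W a).Monic ∧ (W a).natDegree = a)
    (f : ℝ[X]) (m s : ℕ)
    (hc : ∀ t, s < t → t < m → ∃ z : ℤ, f.coeff t = 4 * (z : ℝ)) (j : ℕ) (hj : j ≤ s + 1) :
    ∃ c : ℕ → ℝ, (∀ a, |c a| ≤ 2) ∧ ∀ t, s + 1 - j ≤ t → t < m → ∃ z : ℤ,
      (f + ∑ a ∈ Finset.Ico (s + 1 - j) (s + 1), C (c a) * W a).coeff t =
        4 * (z : ℝ) + (if t = 0 then 2 else 0) := by
  induction j with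
  | zero =>
    refine ⟨fun _ => 0, fun a => by simp, fun t ht htm => ?_⟩
    obtain ⟨z, hz⟩ := hc t (by omega) htm
    refine ⟨z, ?_⟩
    have h0 : t ≠ 0 := by omega
    simp [hz, h0]
  | succ j ih =>
    obtain ⟨c, hc2, hct⟩ := ih (by omega)
    obtain ⟨k, hk⟩ : ∃ k, k = s - j := ⟨_, rfl⟩
    have hk1 : s + 1 - j = k + 1 := by omega
    have hk2 : s + 1 - (j + 1) = k := by omega
    rw [hk1] at hct
    rw [hk2]
    set g := f + ∑ a ∈ Finset.Ico (k + 1) (s + 1), C (c a) * W a with hg
    let τ : ℝ := if k = 0 then 2 else 0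
    let z₀ : ℤ := round ((g.coeff k - τ) / 4)
    let ck : ℝ := 4 * (z₀ : ℝ) + τ - g.coeff k
    have hck : |ck| ≤ 2 := by
      have h1 := abs_sub_round ((g.coeff k - τ) / 4)
      have h2 : ck = -4 * ((g.coeff k - τ) / 4 - (z₀ : ℝ)) := by
        simp only [ck]
        ring
      rw [h2, abs_mul]
      have h3 : |(-4 : ℝ)| = 4 := by norm_num
      rw [h3]
      linarith
    refine ⟨Function.update c k ck, fun a => ?_, fun t ht htm => ?_⟩
    · by_cases h : a = k
      · subst h
        simpa using hck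
      · rw [Function.update_of_ne h]
        exact hc2 a
    · have hsum : f + ∑ a ∈ Finset.Ico k (s + 1), C (Function.update c k ck a) * W a =
          g + C ck * W k := by
        rw [Finset.sum_eq_sum_Ico_succ_bot (by omega : k < s + 1), Function.update_self, hg]
        have : ∑ a ∈ Finset.Ico (k + 1) (s + 1), C (Function.update c k ck a) * W a =
            ∑ a ∈ Finset.Ico (k + 1) (s + 1), C (c a) * W a := by
          refine Finset.sum_congr rfl fun a ha => ?_
          rw [Finset.mem_Ico] at ha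
          rw [Function.update_of_ne (by omega)]
        rw [this]
        ring
      rw [hsum, coeff_add, coeff_C_mul]
      rcases Nat.eq_or_lt_of_le ht with h | h
      · subst h
        have hlead : (W k).coeff k = 1 := by
          have := (hW k).1.coeff_natDegree
          rwa [(hW k).2] at this
        refine ⟨z₀, ?_⟩
        rw [hlead]
        simp only [ck, τ]
        ring
      · have h0 : (W k).coeff t = 0 := coeff_eq_zero_of_natDegree_lt (by rw [(hW k).2]; exact h)
        rw [h0, mul_zero, add_zero]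
        exact hct t h htm

/-- Rounding. `f` monic of degree `m`, its coefficients at `X^t`, `s < t < m`, are multiples of
`4`; `W a` monic of degree `a`. Then one can add a combination of `W 0, ..., W s` with
coefficients in `[-2, 2]` so that all lower coefficients become multiples of `4`, except the
constant one which becomes `≡ 2 mod 4`. Downward induction on the degree: `W a` only affects the
coefficients of degree `≤ a`; choose `c_a` to move the coefficient of `X^a` to the nearest
element of `4ℤ` (of `4ℤ + 2` when `a = 0`). -/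
theorem rounding (W : ℕ → ℝ[X]) (hW : ∀ a, (W a).Monic ∧ (W a).natDegree = a)
    (f : ℝ[X]) (m s : ℕ) (hs : s < m) (hf : f.Monic) (hm : f.natDegree = m)
    (hc : ∀ t, s < t → t < m → ∃ z : ℤ, f.coeff t = 4 * (z : ℝ)) :
    ∃ (c : ℕ → ℝ) (P : ℤ[X]), (∀ a, |c a| ≤ 2) ∧
      P.map (Int.castRingHom ℝ) = f + ∑ a ∈ Finset.range (s + 1), C (c a) * W a ∧
      P.Monic ∧ P.natDegree = m ∧ (∀ t, 0 < t → t < m → (4 : ℤ) ∣ P.coeff t) ∧
      (4 : ℤ) ∣ P.coeff 0 - 2 := by
  obtain ⟨c, hc2, hct⟩ := step W hW f m s hc (s + 1) le_rfl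
  rw [Nat.sub_self, ← Finset.range_eq_Ico] at hct
  set g := f + ∑ a ∈ Finset.range (s + 1), C (c a) * W a with hg
  have hdeg : (∑ a ∈ Finset.range (s + 1), C (c a) * W a).degree < f.degree := by
    rw [degree_eq_natDegree hf.ne_zero, hm]
    refine lt_of_le_of_lt (degree_sum_le _ _) ?_
    refine (Finset.sup_lt_iff (by exact_mod_cast WithBot.bot_lt_coe m)).2 fun a ha => ?_
    rw [Finset.mem_range] at ha
    have h1 : (C (c a) * W a).degree ≤ (W a).degree := by
      refine (degree_mul_le _ _).trans ?_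
      calc (C (c a)).degree + (W a).degree ≤ 0 + (W a).degree :=
            add_le_add degree_C_le le_rfl
        _ = (W a).degree := zero_add _
    refine lt_of_le_of_lt h1 ?_
    rw [degree_eq_natDegree (hW a).1.ne_zero, (hW a).2]
    exact_mod_cast (by omega : a < m)
  have hgm : g.Monic := hf.add_of_left hdeg
  have hgd : g.natDegree = m := by
    rw [hg, natDegree_add_eq_left_of_degree_lt hdeg, hm]
  have hlift : g ∈ lifts (Int.castRingHom ℝ) := by
    rw [lifts_iff_coeff_lifts]
    intro t
    rcases lt_trichotomy t m with h | h | h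
    · obtain ⟨z, hz⟩ := hct t (Nat.zero_le _) h
      rw [hz]
      by_cases h0 : t = 0
      · exact ⟨4 * z + 2, by simp [h0]⟩
      · exact ⟨4 * z, by simp [h0]⟩
    · subst h
      have := hgm.coeff_natDegree
      rw [hgd] at this
      exact ⟨1, by simp [this]⟩
    · exact ⟨0, by rw [coeff_eq_zero_of_natDegree_lt (by rw [hgd]; exact h)]; simp⟩
  obtain ⟨P, hP⟩ := (mem_lifts g).1 hlift
  have hinj : Function.Injective (Int.castRingHom ℝ) := fun a b h => by simpa using h
  have hPc : ∀ t, ((P.coeff t : ℤ) : ℝ) = g.coeff t := by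
    intro t
    rw [← hP, coeff_map]
    rfl
  refine ⟨c, P, hc2, hP, ?_, ?_, ?_, ?_⟩
  · refine (Function.Injective.monic_map_iff hinj).2 ?_
    rw [hP]
    exact hgm
  · rw [← natDegree_map_eq_of_injective hinj P, hP, hgd]
  · intro t ht htm
    obtain ⟨z, hz⟩ := hct t (Nat.zero_le _) htm
    rw [← hPc, if_neg ht.ne', add_zero] at hz
    exact ⟨z, by exact_mod_cast hz⟩
  · obtain ⟨z, hz⟩ := hct 0 (Nat.zero_le _) (by omega)
    rw [← hPc, if_pos rfl] at hz
    exact ⟨z, by
      have : (P.coeff 0 : ℤ) = 4 * z + 2 := by exact_mod_cast hz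
      omega⟩

end Pool.Agent.Lib.MP_45a27d_nt
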