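import Pool.Agent.Lib.MP_45a27d_nt.UW
import Pool.Agent.Lib.MP_45a27d_nt.URound

set_option autoImplicit false

namespace Pool.Agent.Lib.MP_45a27d_nt

open Polynomial

/-- Robinson type polynomials. Choose `a₀ ≥ 2` with `λ^(a₀-1) > 4n`, `m₀ = 4 a₀! (2n)^a₀`,
`m = m₀ t`, `s = m - a₀`. By `w_coeff` the coefficients of `w_m` at degrees in `(s, m)` are
multiples of `4` (`4 j (2n)^j ∣ m₀` for `1 ≤ j < a₀`). `rounding` with `W = w n`, `f = w n m`.
On the interval the correction is at most `∑_{a ≤ s} 2·2 λ^a < 4 λ^(s+1)/(λ-1) = 8n λ^(s+1)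
≤ 2 λ^m`, strictly smaller than `|w_m| = 2 λ^m` at the points `pt n (kπ/m)`, where
`w_m` has the sign `(-1)^k`. -/
theorem robinson (n : ℕ) (hn : 0 < n) : ∃ m₀ : ℕ, 0 < m₀ ∧ ∀ t : ℕ, 0 < t →
    ∃ P : ℤ[X], P.Monic ∧ P.natDegree = m₀ * t ∧
      (∀ i, i < m₀ * t → (2 : ℤ) ∣ P.coeff i) ∧ ¬ (4 : ℤ) ∣ P.coeff 0 ∧
      ∀ k : ℕ, k ≤ m₀ * t →
        0 < (-1 : ℝ) ^ k *
          (P.map (Int.castRingHom ℝ)).eval (pt n (k * Real.pi / (m₀ * t : ℕ))) := by
  have hnR : (0 : ℝ) < n := by exact_mod_cast hn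
  have hlam : 1 < lam n := by
    unfold lam
    have : (0 : ℝ) < 1 / (2 * n) := by positivity
    linarith
  have hlam0 : 0 < lam n := by linarith
  -- the choice of `a₀`
  obtain ⟨b, hb⟩ := pow_unbounded_of_one_lt (4 * n : ℝ) hlam
  set a₀ : ℕ := b + 2 with ha₀
  have ha₀b : 4 * (n : ℝ) < lam n ^ (a₀ - 1) := by
    have e : a₀ - 1 = b + 1 := by omega
    rw [e, pow_succ]
    have : 0 < lam n ^ b := pow_pos hlam0 _
    nlinarith
  set m₀ : ℕ := 4 * a₀.factorial * (2 * n) ^ a₀ with hm₀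
  have hm₀pos : 0 < m₀ := by
    have := Nat.factorial_pos a₀
    positivity
  have ha₀m₀ : a₀ ≤ m₀ := by
    have h1 : a₀ ≤ a₀.factorial := Nat.self_le_factorial a₀
    have h2 : 1 ≤ (2 * n) ^ a₀ := Nat.one_le_pow _ _ (by omega)
    have h3 : 4 * a₀.factorial * 1 ≤ m₀ := by
      rw [hm₀]
      exact Nat.mul_le_mul_left _ h2
    omega
  refine ⟨m₀, hm₀pos, fun t ht => ?_⟩
  set m : ℕ := m₀ * t with hm
  have hmm₀ : m₀ ≤ m := by
    rw [hm]
    exact Nat.le_mul_of_pos_right _ ht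
  have hmpos : 0 < m := lt_of_lt_of_le hm₀pos hmm₀
  have ha₀m : a₀ ≤ m := le_trans ha₀m₀ hmm₀
  set s : ℕ := m - a₀ with hs
  have hsm : s < m := by omega
  have hsa : s + a₀ = m := by omega
  have hc : ∀ i, s < i → i < m → ∃ z : ℤ, (w n m).coeff i = 4 * (z : ℝ) := by
    intro i hi1 hi2
    have hj : 0 < m - i := by omega
    have hja : m - i ≤ a₀ := by omega
    rcases Nat.eq_zero_or_pos i with h0 | h0
    · omega
    · have hjm : m - i < m := by omega
      have hdvd : 4 * (m - i) * (2 * n) ^ (m - i) ∣ m := by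
        have h1 : (m - i) ∣ a₀.factorial := Nat.dvd_factorial hj hja
        have h2 : (2 * n) ^ (m - i) ∣ (2 * n) ^ a₀ := pow_dvd_pow _ hja
        have h3 : 4 * (m - i) * (2 * n) ^ (m - i) ∣ m₀ :=
          mul_dvd_mul (mul_dvd_mul_left 4 h1) h2
        exact h3.trans (Dvd.intro _ rfl)
      obtain ⟨z, hz⟩ := w_coeff n m (m - i) hn hj hjm hdvd
      have e : m - (m - i) = i := by omega
      rw [e] at hz
      exact ⟨z, hz⟩
  obtain ⟨c, P, hc2, hmap, hPm, hPd, hP4, hP0⟩ :=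
    rounding (w n) (fun a => w_monic n a hn) (w n m) m s hsm (w_monic n m hn).1 (w_monic n m hn).2 hc
  refine ⟨P, hPm, hPd, ?_, ?_, ?_⟩
  · intro i hi
    rcases Nat.eq_zero_or_pos i with h0 | h0
    · subst h0
      omega
    · exact (by norm_num : (2 : ℤ) ∣ 4).trans (hP4 i h0 hi)
  · intro h
    omega
  · intro k hk
    rw [hmap, eval_add, eval_finset_sum]
    have hmR : ((m : ℕ) : ℝ) ≠ 0 := by exact_mod_cast hmpos.ne'
    have h1 : (w n m).eval (pt n (k * Real.pi / (m : ℕ))) = 2 * lam n ^ m * (-1) ^ k := by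
      rw [w_eval n m hn hmpos]
      congr 1
      have e : (m : ℝ) * (k * Real.pi / (m : ℕ)) = k * Real.pi := by
        field_simp
      rw [e, Real.cos_nat_mul_pi]
    rw [h1]
    set φ : ℝ := k * Real.pi / (m : ℕ) with hφ
    set T : ℝ := ∑ a ∈ Finset.range (s + 1), (C (c a) * w n a).eval (pt n φ) with hT
    have hTle : |T| ≤ ∑ a ∈ Finset.range (s + 1), 4 * lam n ^ a := by
      refine (Finset.abs_sum_le_sum_abs _ _).trans (Finset.sum_le_sum fun a _ => ?_)
      rw [eval_mul, eval_C, abs_mul]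
      have h2 := w_le n a hn φ
      have h3 := hc2 a
      have h4 : |c a| * |(w n a).eval (pt n φ)| ≤ 2 * (2 * lam n ^ a) :=
        mul_le_mul h3 h2 (abs_nonneg _) (by norm_num)
      linarith
    have hgeom : ∑ a ∈ Finset.range (s + 1), 4 * lam n ^ a < 8 * n * lam n ^ (s + 1) := by
      rw [← Finset.mul_sum, geom_sum_eq hlam.ne']
      have e : lam n - 1 = 1 / (2 * n) := by
        unfold lam
        ring
      rw [e]
      have e2 : 4 * ((lam n ^ (s + 1) - 1) / (1 / (2 * (n : ℝ)))) =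
          8 * n * lam n ^ (s + 1) - 8 * n := by
        field_simp
        ring
      rw [e2]
      linarith
    have hbig : 8 * n * lam n ^ (s + 1) ≤ 2 * lam n ^ m := by
      have e : m = (s + 1) + (a₀ - 1) := by omega
      have h5 : lam n ^ m = lam n ^ (s + 1) * lam n ^ (a₀ - 1) := by
        rw [← pow_add, ← e]
      rw [h5]
      have : 0 < lam n ^ (s + 1) := pow_pos hlam0 _
      nlinarith
    have hlt : |T| < 2 * lam n ^ m := by linarith
    have hsq : ((-1 : ℝ) ^ k) * (-1) ^ k = 1 := by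
      rw [← mul_pow]
      norm_num
    have habs : |(-1 : ℝ) ^ k * T| = |T| := by
      rw [abs_mul, abs_pow, abs_neg, abs_one, one_pow, one_mul]
    have h6 := neg_abs_le ((-1 : ℝ) ^ k * T)
    rw [habs] at h6
    have h7 : (-1 : ℝ) ^ k * (2 * lam n ^ m * (-1) ^ k + T) =
        2 * lam n ^ m * (((-1 : ℝ) ^ k) * (-1) ^ k) + (-1) ^ k * T := by ring
    rw [h7, hsq]
    linarith


end Pool.Agent.Lib.MP_45a27d_nt
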