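import Mathlib

set_option autoImplicit false

namespace Pool.Agent.Lib.MP_45a27d_nt

open Polynomial

/-- Roots of `z² - ξ z + 1`, `ξ` real in `[-2, 2]`, have modulus one. -/
theorem quad_one {ξ : ℝ} (h1 : -2 ≤ ξ) (h2 : ξ ≤ 2) :
    (X ^ 2 - C (ξ : ℂ) * X + 1 : ℂ[X]).mahlerMeasure = 1 := by
  set θ : ℝ := Real.arccos (ξ / 2) with hθ
  have hcos : Real.cos θ = ξ / 2 := Real.cos_arccos (by linarith) (by linarith)
  have hn : ‖Complex.exp (θ * Complex.I)‖ = 1 := Complex.norm_exp_ofReal_mul_I θ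
  have hn' : ‖Complex.exp (-(θ * Complex.I))‖ = 1 := by
    rw [Complex.exp_neg, norm_inv, hn, inv_one]
  have hsum : Complex.exp (θ * Complex.I) + Complex.exp (-(θ * Complex.I)) = (ξ : ℂ) := by
    have h3 : Complex.cos θ = (Complex.exp (θ * Complex.I) + Complex.exp (-θ * Complex.I)) / 2 := rfl
    have h4 : (Complex.cos θ : ℂ) = ((ξ / 2 : ℝ) : ℂ) := by rw [← Complex.ofReal_cos, hcos]
    rw [h4] at h3
    push_cast at h3
    rw [neg_mul] at h3
    linear_combination (-2 : ℂ) * h3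
  have hprod : Complex.exp (θ * Complex.I) * Complex.exp (-(θ * Complex.I)) = 1 := by
    rw [← Complex.exp_add, add_neg_cancel, Complex.exp_zero]
  have hf : (X ^ 2 - C (ξ : ℂ) * X + 1 : ℂ[X]) =
      (X - C (Complex.exp (θ * Complex.I))) * (X - C (Complex.exp (-(θ * Complex.I)))) := by
    have e1 : (1 : ℂ[X]) = C (Complex.exp (θ * Complex.I) * Complex.exp (-(θ * Complex.I))) := by
      rw [hprod, C_1]
    rw [← hsum, e1, C_add, C_mul]
    ring
  rw [hf, mahlerMeasure_mul, mahlerMeasure_X_sub_C, mahlerMeasure_X_sub_C, hn, hn']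
  simp

/-- For `ξ = 2 cosh ρ ≥ 2` the Mahler measure is `exp ρ`, and `ρ² ≤ 2 (cosh ρ - 1) = ξ - 2`. -/
theorem quad_le {ξ : ℝ} (h : 2 ≤ ξ) :
    Real.log (X ^ 2 - C (ξ : ℂ) * X + 1 : ℂ[X]).mahlerMeasure ≤ Real.sqrt (ξ - 2) := by
  set ρ : ℝ := Real.arcosh (ξ / 2) with hρ
  have hcosh : Real.cosh ρ = ξ / 2 := Real.cosh_arcosh (by linarith)
  have hρ0 : 0 ≤ ρ := Real.arcosh_nonneg (by linarith)
  have hsum : ((Real.exp ρ : ℝ) : ℂ) + ((Real.exp (-ρ) : ℝ) : ℂ) = (ξ : ℂ) := by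
    rw [Real.cosh_eq] at hcosh
    have : Real.exp ρ + Real.exp (-ρ) = ξ := by linarith
    exact_mod_cast this
  have hprod : ((Real.exp ρ : ℝ) : ℂ) * ((Real.exp (-ρ) : ℝ) : ℂ) = 1 := by
    rw [← Complex.ofReal_mul, ← Real.exp_add, add_neg_cancel, Real.exp_zero, Complex.ofReal_one]
  have hf : (X ^ 2 - C (ξ : ℂ) * X + 1 : ℂ[X]) =
      (X - C ((Real.exp ρ : ℝ) : ℂ)) * (X - C ((Real.exp (-ρ) : ℝ) : ℂ)) := by
    have e1 : (1 : ℂ[X]) = C (((Real.exp ρ : ℝ) : ℂ) * ((Real.exp (-ρ) : ℝ) : ℂ)) := by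
      rw [hprod, C_1]
    rw [← hsum, e1, C_add, C_mul]
    ring
  rw [hf, mahlerMeasure_mul, mahlerMeasure_X_sub_C, mahlerMeasure_X_sub_C, Complex.norm_real,
    Complex.norm_real, Real.norm_of_nonneg (Real.exp_pos _).le,
    Real.norm_of_nonneg (Real.exp_pos _).le, max_eq_right (Real.one_le_exp hρ0),
    max_eq_left (Real.exp_le_one_iff.2 (by linarith)), mul_one, Real.log_exp]
  refine Real.le_sqrt_of_sq_le ?_
  have h1 : Real.cosh ρ = 1 + 2 * Real.sinh (ρ / 2) ^ 2 := by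
    have h2 := Real.cosh_two_mul (ρ / 2)
    have h3 := Real.cosh_sq (ρ / 2)
    rw [show 2 * (ρ / 2) = ρ by ring] at h2
    rw [h2, h3]
    ring
  have h4 : ρ / 2 ≤ Real.sinh (ρ / 2) := Real.self_le_sinh_iff.2 (by linarith)
  have h5 : (ρ / 2) ^ 2 ≤ Real.sinh (ρ / 2) ^ 2 := pow_le_pow_left₀ (by linarith) h4 2
  have h6 : ξ = 2 * Real.cosh ρ := by rw [hcosh]; ring
  rw [h6, h1]
  nlinarith

/-- If `z² - ξ z + 1 = 0` (written `z + z⁻¹ = ξ`) with `ξ` real, `ξ ≥ -2 + δ`, `0 ≤ δ ≤ 4`, then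
`Re z ≥ (-1 + δ/2) ‖z‖`: either `‖z‖ = 1` and `2 Re z = ξ`, or `z` is a positive real. -/
theorem quad_re {ξ δ : ℝ} {z : ℂ} (hz : z ≠ 0) (h : z + z⁻¹ = (ξ : ℂ)) (h0 : 0 ≤ δ)
    (h4 : δ ≤ 4) (hξ : -2 + δ ≤ ξ) : (-1 + δ / 2) * ‖z‖ ≤ z.re := by
  have hN : 0 < Complex.normSq z := Complex.normSq_pos.2 hz
  have hre : z.re + z.re / Complex.normSq z = ξ := by
    have := congrArg Complex.re h
    simpa [Complex.add_re, Complex.inv_re] using this
  have him : z.im - z.im / Complex.normSq z = 0 := by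
    have := congrArg Complex.im h
    rw [Complex.add_im, Complex.inv_im, Complex.ofReal_im] at this
    rw [sub_eq_add_neg, ← neg_div]
    exact this
  have hcase : z.im = 0 ∨ Complex.normSq z = 1 := by
    have h5 : z.im * (Complex.normSq z - 1) = 0 := by
      field_simp at him
      linarith
    rcases mul_eq_zero.1 h5 with h6 | h6
    · exact Or.inl h6
    · exact Or.inr (by linarith)
  rcases hcase with h5 | h5
  · have hns : Complex.normSq z = z.re ^ 2 := by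
      rw [Complex.normSq_apply, h5]
      ring
    have hx : z.re ≠ 0 := by
      intro h0
      rw [hns, h0] at hN
      simp at hN
    have hnorm : ‖z‖ = |z.re| := by
      have e1 : z = ((z.re : ℝ) : ℂ) := Complex.ext (by simp) (by simp [h5])
      rw [e1, Complex.norm_real, Real.norm_eq_abs, Complex.ofReal_re]
    rw [hnorm]
    rcases lt_or_gt_of_ne hx with h6 | h6
    · have h7 : z.re + 1 / z.re = ξ := by
        rw [← hre, hns]
        field_simp
      have h8 : ξ ≤ -2 := by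
        rw [← h7]
        have h9 : 0 ≤ (z.re + 1) ^ 2 := sq_nonneg _
        have h10 : z.re + 1 / z.re + 2 = (z.re + 1) ^ 2 / z.re := by
          field_simp
          ring
        have h11 : (z.re + 1) ^ 2 / z.re ≤ 0 := div_nonpos_of_nonneg_of_nonpos h9 h6.le
        linarith
      have h12 : δ = 0 := by linarith
      rw [h12, abs_of_neg h6]
      linarith
    · rw [abs_of_pos h6]
      nlinarith
  · have hnorm : ‖z‖ = 1 := by
      rw [Complex.normSq_eq_norm_sq] at h5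
      nlinarith [norm_nonneg z]
    rw [h5, div_one] at hre
    rw [hnorm]
    linarith

end Pool.Agent.Lib.MP_45a27d_nt
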