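import Pool.Agent.Lib.MP_45a27d_nt.Defs

set_option autoImplicit false

namespace Pool.Agent.Lib.MP_45a27d_nt

open Polynomial

/-- `X^m P(X + 1/X)` for `m = natDegree P`. -/
noncomputable def RR (P : ℤ[X]) : ℤ[X] :=
  ∑ i ∈ Finset.range (P.natDegree + 1), C (P.coeff i) * X ^ (P.natDegree - i) * (X ^ 2 + 1) ^ i

theorem RR_eval (P : ℤ[X]) {z : ℂ} (hz : z ≠ 0) :
    aeval z (RR P) = z ^ P.natDegree * aeval (z + z⁻¹) P := by
  unfold RR
  rw [map_sum, aeval_eq_sum_range, Finset.mul_sum]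
  refine Finset.sum_congr rfl fun i hi => ?_
  have hi' : i ≤ P.natDegree := Nat.lt_succ_iff.1 (Finset.mem_range.1 hi)
  have h1 : z ^ P.natDegree = z ^ (P.natDegree - i) * z ^ i := by
    rw [← pow_add, Nat.sub_add_cancel hi']
  have h2 : z * (z + z⁻¹) = z ^ 2 + 1 := by
    rw [mul_add, mul_inv_cancel₀ hz]
    ring
  simp only [map_mul, map_pow, map_add, aeval_X, map_one, aeval_C, zsmul_eq_mul]
  rw [h1, ← h2, mul_pow]
  simp only [algebraMap_int_eq, eq_intCast]
  ring

theorem RR_monic {P : ℤ[X]} (hP : P.Monic) :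
    (RR P).Monic ∧ (RR P).natDegree = 2 * P.natDegree := by
  have hq : (X ^ 2 + 1 : ℤ[X]).Monic := by
    have : (X ^ 2 + 1 : ℤ[X]) = X ^ 2 + C 1 := by simp
    rw [this]
    exact monic_X_pow_add_C 1 (by norm_num)
  have hqd : (X ^ 2 + 1 : ℤ[X]).natDegree = 2 := by
    have : (X ^ 2 + 1 : ℤ[X]) = X ^ 2 + C 1 := by simp
    rw [this, natDegree_X_pow_add_C]
  have htop : ((X ^ 2 + 1 : ℤ[X]) ^ P.natDegree).Monic := hq.pow _
  have htd : ((X ^ 2 + 1 : ℤ[X]) ^ P.natDegree).natDegree = 2 * P.natDegree := by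
    rw [hq.natDegree_pow, hqd, mul_comm]
  have hdeg : ((X ^ 2 + 1 : ℤ[X]) ^ P.natDegree).degree = ((2 * P.natDegree : ℕ) : WithBot ℕ) := by
    rw [degree_eq_natDegree htop.ne_zero, htd]
  have hlow : (∑ i ∈ Finset.range P.natDegree,
      C (P.coeff i) * X ^ (P.natDegree - i) * (X ^ 2 + 1 : ℤ[X]) ^ i).degree <
      ((X ^ 2 + 1 : ℤ[X]) ^ P.natDegree).degree := by
    rw [hdeg]
    refine lt_of_le_of_lt (degree_sum_le _ _) ?_
    rw [Finset.sup_lt_iff (WithBot.bot_lt_coe _)]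
    intro i hi
    rw [Finset.mem_range] at hi
    refine lt_of_le_of_lt (degree_le_natDegree) ?_
    rw [Nat.cast_lt]
    have h1 : (C (P.coeff i) * X ^ (P.natDegree - i) * (X ^ 2 + 1 : ℤ[X]) ^ i).natDegree ≤
        (P.natDegree - i) + 2 * i := by
      refine natDegree_mul_le_of_le (natDegree_C_mul_X_pow_le _ _) ?_
      refine (natDegree_pow_le).trans ?_
      rw [hqd, mul_comm]
    omega
  have heq : RR P = (∑ i ∈ Finset.range P.natDegree,
      C (P.coeff i) * X ^ (P.natDegree - i) * (X ^ 2 + 1 : ℤ[X]) ^ i) +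
      (X ^ 2 + 1 : ℤ[X]) ^ P.natDegree := by
    unfold RR
    rw [Finset.sum_range_succ, Nat.sub_self, pow_zero, mul_one, hP.coeff_natDegree, C_1, one_mul]
  rw [heq]
  refine ⟨htop.add_of_right hlow, ?_⟩
  rw [natDegree_eq_of_degree_eq (degree_add_eq_right_of_degree_lt hlow), htd]

/-- Both sides have the same value `z^m P(z + 1/z)` at every `z ≠ 0`. -/
theorem RR_map {P : ℤ[X]} {m : ℕ} {ξ : Fin m → ℝ}
    (h : P.map (Int.castRingHom ℝ) = ∏ k, (X - C (ξ k))) :
    (RR P).map (Int.castRingHom ℂ) = ∏ k, (X ^ 2 - C (ξ k : ℂ) * X + 1) := by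
  have hm : P.natDegree = m := by
    have h1 : (P.map (Int.castRingHom ℝ)).natDegree = P.natDegree :=
      natDegree_map_eq_of_injective (RingHom.injective_int _) P
    rw [← h1, h, natDegree_prod_of_monic _ _ (fun k _ => monic_X_sub_C _)]
    simp
  have hC : P.map (Int.castRingHom ℂ) = ∏ k, (X - C (ξ k : ℂ)) := by
    have h1 : P.map (Int.castRingHom ℂ) = (P.map (Int.castRingHom ℝ)).map Complex.ofRealHom := by
      rw [Polynomial.map_map]
      congr 1
    rw [h1, h, Polynomial.map_prod]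
    refine Finset.prod_congr rfl fun k _ => ?_
    rw [Polynomial.map_sub, map_X, map_C]
    rfl
  refine eq_of_infinite_eval_eq _ _ ?_
  refine Set.Infinite.mono (s := {z : ℂ | z ≠ 0}) ?_ ?_
  · intro z hz
    rw [Set.mem_ofPred_eq] at hz ⊢
    have h1 : eval z ((RR P).map (Int.castRingHom ℂ)) = aeval z (RR P) := by
      rw [eval_map, aeval_def]
      rfl
    have h2 : aeval (z + z⁻¹) P = eval (z + z⁻¹) (P.map (Int.castRingHom ℂ)) := by
      rw [eval_map, aeval_def]
      rfl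
    rw [h1, RR_eval P hz, h2, hC, hm, eval_prod, eval_prod]
    have h3 : z ^ m = ∏ _k : Fin m, z := by simp
    rw [h3, ← Finset.prod_mul_distrib]
    refine Finset.prod_congr rfl fun k _ => ?_
    simp only [eval_sub, eval_X, eval_C, eval_add, eval_pow, eval_mul, eval_one]
    have h4 : z * z⁻¹ = 1 := mul_inv_cancel₀ hz
    linear_combination h4
  · have : ({z : ℂ | z ≠ 0}) = ({0} : Set ℂ)ᶜ := by
      ext z; simp
    rw [this]
    exact (Set.finite_singleton (0 : ℂ)).infinite_compl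

end Pool.Agent.Lib.MP_45a27d_nt
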