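import Pool.Agent.Lib.MP_45a27d_nt.UDef

set_option autoImplicit false

namespace Pool.Agent.Lib.MP_45a27d_nt

open Polynomial

private theorem uroots_anti (n : ℕ) {a b : ℝ} (ha : 0 ≤ a) (hb : b ≤ Real.pi) (hab : a < b) :
    pt n b < pt n a := by
  have hlam : 0 < lam n := by unfold lam; positivity
  have hc : Real.cos b < Real.cos a := Real.cos_lt_cos_of_nonneg_of_le_pi ha hb hab
  unfold pt
  nlinarith

private theorem uroots_anti_le (n : ℕ) {a b : ℝ} (ha : 0 ≤ a) (hb : b ≤ Real.pi) (hab : a ≤ b) :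
    pt n b ≤ pt n a := by
  rcases hab.eq_or_lt with h | h
  · rw [h]
  · exact (uroots_anti n ha hb h).le

/-- Sign changes give `m` real roots, one in each interval `(pt ((k+1)π/m), pt (kπ/m))`
(intermediate value theorem; `φ ↦ pt n φ` is strictly decreasing on `[0, π]`); they are all the
roots of the monic polynomial `P` of degree `m`. -/
theorem roots_of_signs (n m : ℕ) (hn : 0 < n) (hm : 0 < m) (P : ℤ[X]) (hP : P.Monic)
    (hdeg : P.natDegree = m)
    (hs : ∀ k : ℕ, k ≤ m →
      0 < (-1 : ℝ) ^ k * (P.map (Int.castRingHom ℝ)).eval (pt n (k * Real.pi / m))) :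
    ∃ ξ : Fin m → ℝ, (∀ k : Fin m, pt n (((k : ℕ) + 1) * Real.pi / m) < ξ k ∧
        ξ k < pt n ((k : ℕ) * Real.pi / m)) ∧
      P.map (Int.castRingHom ℝ) = ∏ k, (X - C (ξ k)) := by
  have hm' : (0 : ℝ) < m := by exact_mod_cast hm
  have hle : ∀ k : ℕ, k ≤ m → (k : ℝ) * Real.pi / m ≤ Real.pi := by
    intro k hk
    rw [div_le_iff₀ hm', mul_comm]
    exact mul_le_mul_of_nonneg_left (by exact_mod_cast hk) Real.pi_pos.le
  have hge : ∀ k : ℕ, 0 ≤ (k : ℝ) * Real.pi / m := fun k => by positivity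
  have key : ∀ k : Fin m, ∃ x : ℝ, (pt n (((k : ℕ) + 1) * Real.pi / m) < x ∧
      x < pt n ((k : ℕ) * Real.pi / m)) ∧ (P.map (Int.castRingHom ℝ)).eval x = 0 := by
    intro k
    have hlt : pt n ((((k : ℕ) + 1 : ℕ) : ℝ) * Real.pi / m) < pt n ((k : ℕ) * Real.pi / m) := by
      apply uroots_anti n (hge _) (hle _ k.2)
      rw [div_lt_div_iff_of_pos_right hm']
      push_cast
      nlinarith [Real.pi_pos]
    have h1 := hs k k.2.le
    have h2 := hs (k + 1) k.2
    set g : ℝ → ℝ := fun x => (-1 : ℝ) ^ (k : ℕ) * (P.map (Int.castRingHom ℝ)).eval x with hg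
    have hcont : ContinuousOn g (Set.Icc (pt n ((((k : ℕ) + 1 : ℕ) : ℝ) * Real.pi / m))
        (pt n ((k : ℕ) * Real.pi / m))) := by
      apply Continuous.continuousOn
      exact continuous_const.mul (Polynomial.continuous _)
    have hmem : (0 : ℝ) ∈ Set.Ioo (g (pt n ((((k : ℕ) + 1 : ℕ) : ℝ) * Real.pi / m)))
        (g (pt n ((k : ℕ) * Real.pi / m))) := by
      refine ⟨?_, h1⟩
      rw [pow_succ] at h2
      simp only [hg]
      linarith
    obtain ⟨x, hx, hx0⟩ := intermediate_value_Ioo hlt.le hcont hmem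
    refine ⟨x, ⟨?_, hx.2⟩, ?_⟩
    · have := hx.1
      push_cast at this
      exact this
    · have h3 : (-1 : ℝ) ^ (k : ℕ) * (P.map (Int.castRingHom ℝ)).eval x = 0 := hx0
      rcases mul_eq_zero.1 h3 with h4 | h4
      · exact absurd h4 (pow_ne_zero _ (by norm_num))
      · exact h4
  choose ξ hξ hroot using key
  refine ⟨ξ, hξ, ?_⟩
  have hanti : StrictAnti ξ := by
    intro k l hkl
    have hkl' : (k : ℕ) + 1 ≤ (l : ℕ) := hkl
    have h1 := (hξ k).1
    have h2 := (hξ l).2
    have h3 : pt n ((l : ℕ) * Real.pi / m) ≤ pt n (((k : ℕ) + 1) * Real.pi / m) := by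
      apply uroots_anti_le n (by positivity) (hle _ l.2.le)
      rw [div_le_div_iff_of_pos_right hm']
      apply mul_le_mul_of_nonneg_right _ Real.pi_pos.le
      exact_mod_cast hkl'
    exact lt_of_lt_of_le h2 (h3.trans h1.le)
  have hPm : (P.map (Int.castRingHom ℝ)).Monic := hP.map _
  have hPd : (P.map (Int.castRingHom ℝ)).natDegree = m := by rw [hP.natDegree_map, hdeg]
  have hnd : (Multiset.map ξ Finset.univ.val).Nodup :=
    Multiset.Nodup.map hanti.injective Finset.univ.nodup
  have hsub : Multiset.map ξ Finset.univ.val ≤ (P.map (Int.castRingHom ℝ)).roots := by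
    rw [Multiset.le_iff_subset hnd]
    intro x hx
    obtain ⟨k, _, rfl⟩ := Multiset.mem_map.1 hx
    rw [mem_roots hPm.ne_zero]
    exact hroot k
  have heq : Multiset.map ξ Finset.univ.val = (P.map (Int.castRingHom ℝ)).roots := by
    apply Multiset.eq_of_le_of_card_le hsub
    calc Multiset.card (P.map (Int.castRingHom ℝ)).roots ≤ (P.map (Int.castRingHom ℝ)).natDegree :=
          card_roots' _
      _ = m := hPd
      _ = Multiset.card (Multiset.map ξ Finset.univ.val) := by simp
  have hcard : Multiset.card (P.map (Int.castRingHom ℝ)).roots =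
      (P.map (Int.castRingHom ℝ)).natDegree := by
    rw [← heq, hPd]; simp
  have hprod := prod_multiset_X_sub_C_of_monic_of_roots_card_eq hPm hcard
  rw [← heq, Multiset.map_map] at hprod
  exact hprod.symm

end Pool.Agent.Lib.MP_45a27d_nt
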