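import Pool.Agent.Lib.MP_45a27d_nt.UDef
import Pool.Agent.Lib.MP_45a27d_nt.UQuad

set_option autoImplicit false

namespace Pool.Agent.Lib.MP_45a27d_nt

open Polynomial

/-- `pt n φ ≤ 2` as soon as `φ² ≥ 3π²/(4n)`, `φ ∈ [0, π]`
(`cos φ ≤ 1 - 2φ²/π² ≤ 1 - 3/(2n) ≤ 1 - 3/(2n+1)`). -/
theorem pt_le_two (n : ℕ) (hn : 0 < n) {φ : ℝ} (h0 : 0 ≤ φ) (h1 : φ ≤ Real.pi)
    (h : 3 * Real.pi ^ 2 / (4 * n) ≤ φ ^ 2) : pt n φ ≤ 2 := by
  have hn' : (0 : ℝ) < n := by exact_mod_cast hn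
  have hpi := Real.pi_pos
  have hc : Real.cos φ ≤ 1 - 2 / Real.pi ^ 2 * φ ^ 2 :=
    Real.cos_le_one_sub_mul_cos_sq (by rwa [abs_of_nonneg h0])
  have h2 : 2 / Real.pi ^ 2 * (3 * Real.pi ^ 2 / (4 * n)) ≤ 2 / Real.pi ^ 2 * φ ^ 2 :=
    mul_le_mul_of_nonneg_left h (by positivity)
  have h3 : 2 / Real.pi ^ 2 * (3 * Real.pi ^ 2 / (4 * n)) = 3 / (2 * n) := by
    field_simp
    norm_num
  have h4 : Real.cos φ ≤ 1 - 3 / (2 * n) := by linarith
  have hl : 0 < 2 * lam n := by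
    unfold lam
    positivity
  have h5 := mul_le_mul_of_nonneg_left h4 hl.le
  have h6 : 2 / (n : ℝ) + 2 * lam n * (1 - 3 / (2 * n)) = 2 - 3 / (2 * n ^ 2) := by
    unfold lam
    field_simp
    ring
  have h7 : 0 ≤ 3 / (2 * (n : ℝ) ^ 2) := by positivity
  unfold pt
  linarith

private theorem USum_pt_upper (n : ℕ) (hn : 0 < n) (φ : ℝ) : pt n φ ≤ 2 + 3 / n := by
  have hn' : (0 : ℝ) < n := by exact_mod_cast hn
  have hl : 0 < 2 * lam n := by
    unfold lam
    positivity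
  have h5 := mul_le_mul_of_nonneg_left (Real.cos_le_one φ) hl.le
  have h6 : 2 / (n : ℝ) + 2 * lam n * 1 = 2 + 3 / n := by
    unfold lam
    field_simp
    ring
  unfold pt
  linarith

private theorem USum_pt_lower (n : ℕ) (hn : 0 < n) (φ : ℝ) : -2 ≤ pt n φ := by
  have hn' : (0 : ℝ) < n := by exact_mod_cast hn
  have hl : 0 < 2 * lam n := by
    unfold lam
    positivity
  have h5 := mul_le_mul_of_nonneg_left (Real.neg_one_le_cos φ) hl.le
  have h6 : 2 / (n : ℝ) + 2 * lam n * (-1) = -2 + 1 / n := by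
    unfold lam
    field_simp
    ring
  have h7 : 0 ≤ 1 / (n : ℝ) := by positivity
  unfold pt
  linarith

private theorem USum_card (m : ℕ) {K : ℝ} (hK : 0 ≤ K) :
    (((Finset.univ : Finset (Fin m)).filter fun k : Fin m => ((k : ℕ) : ℝ) < K).card : ℝ) ≤
      K + 1 := by
  have h1 : ((Finset.univ : Finset (Fin m)).filter fun k : Fin m => ((k : ℕ) : ℝ) < K).card ≤
      (Finset.range ⌈K⌉₊).card := by
    refine Finset.card_le_card_of_injOn (fun k : Fin m => (k : ℕ)) ?_ ?_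
    · intro k hk
      have hk' := (Finset.mem_filter.1 hk).2
      rw [Finset.mem_coe, Finset.mem_range]
      exact Nat.lt_ceil.2 hk'
    · intro a _ b _ hab
      exact Fin.ext hab
  rw [Finset.card_range] at h1
  have h2 : ((⌈K⌉₊ : ℕ) : ℝ) < K + 1 := Nat.ceil_lt_add_one hK
  have h3 : (((Finset.univ : Finset (Fin m)).filter fun k : Fin m => ((k : ℕ) : ℝ) < K).card : ℝ) ≤
      ((⌈K⌉₊ : ℕ) : ℝ) := by exact_mod_cast h1
  linarith

/-- Only the `k < m √(3/(4n))` contribute (at most `m √(3/(4n)) + 1` of them), each at most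
`√(3/n)` (`ξ k < pt n 0 = 2 + 3/n`); `3m/(2n) + √(3/n) ≤ 4m/n` for `m ≥ n`. All `ξ k ≥ -2`. -/
theorem sum_quad (n m : ℕ) (hn : 0 < n) (hm : n ≤ m) (ξ : Fin m → ℝ)
    (h : ∀ k : Fin m, pt n (((k : ℕ) + 1) * Real.pi / m) < ξ k ∧
      ξ k < pt n ((k : ℕ) * Real.pi / m)) :
    ∑ k, Real.log (X ^ 2 - C (ξ k : ℂ) * X + 1 : ℂ[X]).mahlerMeasure ≤ 4 * m / n := by
  classical
  have hn' : (0 : ℝ) < n := by exact_mod_cast hn
  have hm0 : 0 < m := lt_of_lt_of_le hn hm
  have hm' : (0 : ℝ) < m := by exact_mod_cast hm0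
  have hnm : (n : ℝ) ≤ m := by exact_mod_cast hm
  have hpi := Real.pi_pos
  set c : ℝ := Real.sqrt (3 / n) with hc
  have hc0 : 0 ≤ c := Real.sqrt_nonneg _
  have hc2 : c * c = 3 / n := Real.mul_self_sqrt (by positivity)
  set K : ℝ := m * c / 2 with hK
  have hK0 : 0 ≤ K := by positivity
  have hterm : ∀ k : Fin m, Real.log (X ^ 2 - C (ξ k : ℂ) * X + 1 : ℂ[X]).mahlerMeasure ≤
      if ((k : ℕ) : ℝ) < K then c else 0 := by
    intro k
    obtain ⟨h1, h2⟩ := h k
    have hlow : -2 ≤ ξ k := (USum_pt_lower n hn _).trans h1.le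
    by_cases h3 : ξ k ≤ 2
    · rw [quad_one hlow h3, Real.log_one]
      split_ifs
      · exact hc0
      · exact le_refl _
    · push Not at h3
      have h4 : ((k : ℕ) : ℝ) < K := by
        by_contra h5
        push Not at h5
        have h6 : pt n ((k : ℕ) * Real.pi / m) ≤ 2 := by
          have hkm : ((k : ℕ) : ℝ) ≤ m := by exact_mod_cast k.2.le
          have hk0 : (0 : ℝ) ≤ ((k : ℕ) : ℝ) := Nat.cast_nonneg _
          refine pt_le_two n hn (by positivity) ?_ ?_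
          · rw [div_le_iff₀ hm', mul_comm]
            exact mul_le_mul_of_nonneg_left hkm hpi.le
          · have h7 : K ^ 2 ≤ ((k : ℕ) : ℝ) ^ 2 := pow_le_pow_left₀ hK0 h5 2
            have h8 : K ^ 2 = m ^ 2 * (3 / n) / 4 := by
              rw [hK, ← hc2]
              ring
            have h9 : 3 * Real.pi ^ 2 / (4 * n) = (K ^ 2) * (Real.pi ^ 2 / m ^ 2) := by
              rw [h8]
              field_simp
            have h10 : ((k : ℕ) * Real.pi / m) ^ 2 = ((k : ℕ) : ℝ) ^ 2 * (Real.pi ^ 2 / m ^ 2) := by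
              field_simp
            rw [h9, h10]
            exact mul_le_mul_of_nonneg_right h7 (by positivity)
        linarith
      rw [if_pos h4]
      refine (quad_le h3.le).trans ?_
      rw [hc]
      refine Real.sqrt_le_sqrt ?_
      have := USum_pt_upper n hn ((k : ℕ) * Real.pi / m)
      linarith
  refine (Finset.sum_le_sum fun k _ => hterm k).trans ?_
  rw [← Finset.sum_filter, Finset.sum_const, nsmul_eq_mul]
  have h1 := mul_le_mul_of_nonneg_right (USum_card m hK0) hc0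
  refine h1.trans ?_
  have h2 : (K + 1) * c = 3 * m / (2 * n) + c := by
    have : (K + 1) * c = m * (c * c) / 2 + c := by
      rw [hK]
      ring
    rw [this, hc2]
    field_simp
  have h3 : c ≤ 5 / 2 := by
    rw [hc, Real.sqrt_le_left (by norm_num)]
    rw [div_le_iff₀ hn']
    have : (1 : ℝ) ≤ n := by exact_mod_cast hn
    nlinarith
  have h4 : 5 / 2 ≤ 5 * (m : ℝ) / (2 * n) := by
    rw [div_le_div_iff₀ (by norm_num) (by positivity)]
    nlinarith
  have h5 : 4 * (m : ℝ) / n = 3 * m / (2 * n) + 5 * m / (2 * n) := by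
    field_simp
    ring
  rw [h2, h5]
  linarith

/-- The largest root exceeds `2` if `m` is large: `pt n (π/m) → 2 + 3/n`. -/
theorem first_root (n : ℕ) (hn : 0 < n) : ∃ m₁ : ℕ, ∀ m : ℕ, m₁ ≤ m → 0 < m →
    2 < pt n (Real.pi / m) := by
  have hn' : (0 : ℝ) < n := by exact_mod_cast hn
  have hcont : Continuous (pt n) := by
    unfold pt
    fun_prop
  have h1 : Filter.Tendsto (fun m : ℕ => pt n (Real.pi / m)) Filter.atTop (nhds (pt n 0)) :=
    (hcont.tendsto 0).comp (tendsto_const_div_atTop_nhds_zero_nat Real.pi)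
  have h2 : 2 < pt n 0 := by
    have h3 : pt n 0 = 2 + 3 / n := by
      unfold pt lam
      rw [Real.cos_zero]
      field_simp
      ring
    have h4 : 0 < 3 / (n : ℝ) := by positivity
    linarith
  have h3 := h1.eventually (lt_mem_nhds h2)
  obtain ⟨m₁, hm⟩ := Filter.eventually_atTop.1 h3
  exact ⟨m₁, fun m h _ => hm m h⟩

end Pool.Agent.Lib.MP_45a27d_nt
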