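import Pool.Agent.Lib.MP_45a27d_nt.UE

set_option autoImplicit false

namespace Pool.Agent.Lib.MP_45a27d_nt

open Polynomial

theorem w_monic (n a : ℕ) (hn : 0 < n) : (w n a).Monic ∧ (w n a).natDegree = a := by
  rcases Nat.eq_zero_or_pos a with ha | ha
  · subst ha
    unfold w
    rw [if_pos rfl]
    exact ⟨monic_one, natDegree_one⟩
  obtain ⟨b, rfl⟩ : ∃ b, a = b + 1 := ⟨a - 1, by omega⟩
  have hn0 : (2 * (n : ℝ)) ≠ 0 := by
    have : (0 : ℝ) < n := by exact_mod_cast hn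
    positivity
  obtain ⟨hm, hd⟩ := Ep_monic n b
  set P := (Ep n (b + 1)).map (Int.castRingHom ℝ) with hP
  have hPm : P.Monic := hm.map _
  have hPd : P.natDegree = b + 1 := by
    rw [hP, hm.natDegree_map, hd]
  have hq : (C (2 * (n : ℝ)) * X).natDegree = 1 := natDegree_C_mul_X _ hn0
  have hlc : (P.comp (C (2 * (n : ℝ)) * X)).leadingCoeff = (2 * (n : ℝ)) ^ (b + 1) := by
    rw [leadingCoeff_comp (by rw [hq]; norm_num), hPm.leadingCoeff, hPd, one_mul, leadingCoeff_mul,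
      leadingCoeff_C, leadingCoeff_X, mul_one]
  have hc0 : ((2 * (n : ℝ)) ^ (b + 1))⁻¹ ≠ 0 := inv_ne_zero (pow_ne_zero _ hn0)
  have hw : w n (b + 1) = C (((2 * (n : ℝ)) ^ (b + 1))⁻¹) * P.comp (C (2 * (n : ℝ)) * X) := by
    unfold w
    rw [if_neg (Nat.succ_ne_zero b)]
  rw [hw]
  constructor
  · unfold Monic
    rw [leadingCoeff_mul, leadingCoeff_C, hlc, inv_mul_cancel₀ (pow_ne_zero _ hn0)]
  · rw [natDegree_C_mul hc0, natDegree_comp, hPd, hq, mul_one]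

/-- `w_a (pt φ) = 2 λ^a cos (a φ)` for `a ≥ 1` (`Ep_eval`: `2 n pt φ = 4 + 2(2n+1) cos φ`). -/
theorem w_eval (n a : ℕ) (hn : 0 < n) (ha : 0 < a) (φ : ℝ) :
    (w n a).eval (pt n φ) = 2 * lam n ^ a * Real.cos (a * φ) := by
  have hn1 : (n : ℝ) ≠ 0 := by
    have : (0 : ℝ) < n := by exact_mod_cast hn
    exact this.ne'
  have hn0 : (2 * (n : ℝ)) ≠ 0 := by positivity
  unfold w
  rw [if_neg (by omega), eval_mul, eval_C, eval_comp, eval_mul, eval_C, eval_X]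
  have h1 : 2 * (n : ℝ) * pt n φ = 4 + 2 * (2 * n + 1) * Real.cos φ := by
    unfold pt lam
    field_simp
    ring
  have h2 : lam n = (2 * (n : ℝ) + 1) / (2 * n) := by
    unfold lam
    field_simp
  rw [h1, Ep_eval, h2, div_pow]
  field_simp

theorem w_le (n a : ℕ) (hn : 0 < n) (φ : ℝ) : |(w n a).eval (pt n φ)| ≤ 2 * lam n ^ a := by
  have hlam : 0 ≤ lam n := by
    unfold lam
    positivity
  rcases Nat.eq_zero_or_pos a with ha | ha
  · subst ha
    unfold w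
    rw [if_pos rfl, eval_one, pow_zero, abs_one]
    norm_num
  · rw [w_eval n a hn ha, abs_mul, abs_of_nonneg (show 0 ≤ 2 * lam n ^ a by positivity)]
    calc 2 * lam n ^ a * |Real.cos (a * φ)| ≤ 2 * lam n ^ a * 1 := by
          gcongr
          exact Real.abs_cos_le_one _
      _ = 2 * lam n ^ a := mul_one _

/-- The coefficient of `X^(m-j)` of `w_m` is `e_{m-j} / (2n)^j`, and by `Ep_coeff_dvd` it is a
multiple of `4` as soon as `4 j (2n)^j ∣ m`. -/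
theorem w_coeff (n m j : ℕ) (hn : 0 < n) (hj : 0 < j) (hjm : j < m)
    (h : 4 * j * (2 * n) ^ j ∣ m) : ∃ z : ℤ, (w n m).coeff (m - j) = 4 * (z : ℝ) := by
  have hn1 : (0 : ℝ) < n := by exact_mod_cast hn
  have hn0 : (2 * (n : ℝ)) ≠ 0 := by positivity
  obtain ⟨t, ht⟩ := h
  have hjd : j ∣ m := by
    rw [ht]
    exact ⟨4 * (2 * n) ^ j * t, by ring⟩
  have hquot : m / j = 4 * (2 * n) ^ j * t := by
    apply Nat.div_eq_of_eq_mul_right hj
    rw [ht]
    ring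
  obtain ⟨z, hz⟩ := Ep_coeff_dvd n m j hj hjm hjd
  rw [hquot] at hz
  refine ⟨(t : ℤ) * z, ?_⟩
  unfold w
  rw [if_neg (by omega), coeff_C_mul, comp_C_mul_X_coeff, coeff_map, hz]
  push_cast
  have hsplit : (2 * (n : ℝ)) ^ m = (2 * (n : ℝ)) ^ (m - j) * (2 * (n : ℝ)) ^ j := by
    rw [← pow_add]
    congr 1
    omega
  rw [hsplit]
  have h1 : (2 * (n : ℝ)) ^ (m - j) ≠ 0 := pow_ne_zero _ hn0
  have h2 : (2 * (n : ℝ)) ^ j ≠ 0 := pow_ne_zero _ hn0
  simp only [eq_intCast, Int.cast_mul, Int.cast_pow, Int.cast_natCast, Int.cast_ofNat]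
  field_simp

end Pool.Agent.Lib.MP_45a27d_nt
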