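import Pool.Agent.Lib.MP_45a27d_nt.UPoly
import Pool.Agent.Lib.MP_45a27d_nt.URoots
import Pool.Agent.Lib.MP_45a27d_nt.USum
import Pool.Agent.Lib.MP_45a27d_nt.UAlg

set_option autoImplicit false

namespace Pool.Agent.Lib.MP_45a27d_nt

open Polynomial

private theorem up_alpha {x : ℝ} (hx : 2 < x) : ∃ α : ℝ, 1 < α ∧ α + α⁻¹ = x := by
  have h4 : 0 < x ^ 2 - 4 := by nlinarith
  have hs : Real.sqrt (x ^ 2 - 4) ^ 2 = x ^ 2 - 4 := Real.sq_sqrt h4.le
  have hs0 : 0 < Real.sqrt (x ^ 2 - 4) := Real.sqrt_pos.mpr h4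
  set s := Real.sqrt (x ^ 2 - 4) with hsdef
  refine ⟨(x + s) / 2, by linarith, ?_⟩
  have hinv : ((x + s) / 2)⁻¹ = (x - s) / 2 := by
    apply inv_eq_of_mul_eq_one_right
    nlinarith
  rw [hinv]; ring

private theorem up_quad_eval (ξ : ℝ) (z : ℂ) :
    (X ^ 2 - C (ξ : ℂ) * X + 1 : ℂ[X]).eval z = z ^ 2 - ξ * z + 1 := by
  simp

private theorem up_quad_ne (ξ : ℝ) : (X ^ 2 - C (ξ : ℂ) * X + 1 : ℂ[X]) ≠ 0 := by
  intro h
  have := up_quad_eval ξ 0
  rw [h] at this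
  simp at this

private theorem up_pt_lb (n : ℕ) (hn : 0 < n) (φ : ℝ) : -2 + 1 / (n : ℝ) ≤ pt n φ := by
  have hn' : (0 : ℝ) < n := by exact_mod_cast hn
  have hl : 0 < lam n := by unfold lam; positivity
  have hc := Real.neg_one_le_cos φ
  unfold pt
  have h1 : 2 * lam n * (-1) ≤ 2 * lam n * Real.cos φ := by
    apply mul_le_mul_of_nonneg_left hc; positivity
  have h2 : 2 * lam n * (-1 : ℝ) = -2 - 1 / n := by
    unfold lam; field_simp; ring
  have h3 : (2 : ℝ) / n = 1 / n + 1 / n := by ring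
  linarith

private theorem up_lM_prod {m : ℕ} {R : ℤ[X]} {ξ : Fin m → ℝ}
    (h : R.map (Int.castRingHom ℂ) = ∏ k, (X ^ 2 - C (ξ k : ℂ) * X + 1)) :
    lM R = ∑ k, Real.log (X ^ 2 - C (ξ k : ℂ) * X + 1 : ℂ[X]).mahlerMeasure := by
  unfold lM
  rw [h]
  have h1 : (∏ k, (X ^ 2 - C (ξ k : ℂ) * X + 1 : ℂ[X])).mahlerMeasure
      = ∏ k, (X ^ 2 - C (ξ k : ℂ) * X + 1 : ℂ[X]).mahlerMeasure := by
    rw [Finset.prod_eq_multiset_prod, prod_mahlerMeasure_eq_mahlerMeasure_prod,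
      Finset.prod_eq_multiset_prod, Multiset.map_map]
    rfl
  rw [h1, Real.log_prod]
  intro k _
  exact (mahlerMeasure_pos_of_ne_zero (up_quad_ne (ξ k))).ne'

/-- Assembly. `robinson` with `t` so large that `m = m₀ t ≥ n, N, m₁` (`first_root`, applied with
`k = 0`: `ξ 0 > pt n (π/m) > 2`), `roots_of_signs`, `eis_irred`. Let `α > 1` be the real number
with `α + 1/α = ξ 0`, `g` from `min_of_RR`. Its roots are roots of `RR P`, so nonzero with
`z + 1/z = ξ k` for some `k` (`RR_map`), `ξ k > pt n π = -2 + 1/n`, and `quad_re` with `δ = 1/n`.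
They are not roots of unity by `root_of_unity_all` and `α > 1`. `lM g ≤ lM (RR P) ≤ 4m/n` by
`lM_le_of_dvd`, `RR_map`, `prod_mahlerMeasure_eq_mahlerMeasure_prod`, `sum_quad`. -/
theorem up_poly (n : ℕ) (hn : 0 < n) (N : ℕ) : ∃ g : ℤ[X], Irreducible g ∧ 0 < g.natDegree ∧
    N ≤ g.natDegree ∧
    (∀ z : ℂ, aeval z g = 0 → z ≠ 0 ∧ (∀ k : ℕ, 0 < k → z ^ k ≠ 1) ∧
      (-1 + 1 / (2 * (n : ℝ))) * ‖z‖ ≤ z.re) ∧
    lM g ≤ 4 / n * g.natDegree := by
  have hn' : (0 : ℝ) < n := by exact_mod_cast hn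
  obtain ⟨m₀, hm₀, hrob⟩ := robinson n hn
  obtain ⟨m₁, hm₁⟩ := first_root n hn
  have ht : 0 < n + N + m₁ := by omega
  obtain ⟨P, hP, hdeg, hev, h4, hsign⟩ := hrob (n + N + m₁) ht
  set m := m₀ * (n + N + m₁) with hmdef
  have hmge : n + N + m₁ ≤ m := Nat.le_mul_of_pos_left _ hm₀
  have hm : 0 < m := by omega
  obtain ⟨ξ, hξ, hmap⟩ := roots_of_signs n m hn hm P hP hdeg hsign
  have hirr : Irreducible P := eis_irred hP (by omega) (by rw [hdeg]; exact hev) h4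
  have hξ0 : 2 < ξ ⟨0, hm⟩ := by
    have h1 := (hξ ⟨0, hm⟩).1
    have h2 := hm₁ m (by omega) hm
    simp only [Nat.cast_zero, zero_add, one_mul] at h1
    exact lt_trans h2 h1
  obtain ⟨α, hα1, hα⟩ := up_alpha hξ0
  have hα0 : (α : ℂ) ≠ 0 := by
    have : α ≠ 0 := by linarith
    exact_mod_cast this
  have hPα : aeval ((α : ℂ) + (α : ℂ)⁻¹) P = 0 := by
    have h1 : (P.map (Int.castRingHom ℝ)).eval (ξ ⟨0, hm⟩) = 0 := by
      rw [hmap, eval_prod]
      apply Finset.prod_eq_zero (Finset.mem_univ (⟨0, hm⟩ : Fin m))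
      simp
    have h2 : aeval (ξ ⟨0, hm⟩) P = 0 := by
      rw [aeval_def, ← eval_map]
      simpa using h1
    have h3 : ((α : ℂ) + (α : ℂ)⁻¹) = algebraMap ℝ ℂ (ξ ⟨0, hm⟩) := by
      rw [← hα]; simp
    rw [h3, aeval_algebraMap_apply, h2, map_zero]
  obtain ⟨g, hgm, hgi, hgα, hgd, hgdeg⟩ := min_of_RR hP hirr hα0 hPα
  have hRmap := RR_map hmap
  have hgle : m ≤ g.natDegree := by rw [hdeg] at hgdeg; exact hgdeg
  refine ⟨g, hgi, by omega, by omega, ?_, ?_⟩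
  · intro z hz
    have hzR : ((RR P).map (Int.castRingHom ℂ)).eval z = 0 := by
      obtain ⟨q, hq⟩ := hgd
      rw [hq, Polynomial.map_mul, eval_mul]
      have : (g.map (Int.castRingHom ℂ)).eval z = 0 := by
        rw [aeval_def, ← eval_map] at hz
        simpa using hz
      rw [this, zero_mul]
    rw [hRmap, eval_prod, Finset.prod_eq_zero_iff] at hzR
    obtain ⟨k, _, hk⟩ := hzR
    rw [up_quad_eval] at hk
    have hz0 : z ≠ 0 := by
      rintro rfl
      simp at hk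
    have hzξ : z + z⁻¹ = (ξ k : ℂ) := by
      field_simp
      linear_combination hk
    refine ⟨hz0, ?_, ?_⟩
    · intro j hj hzj
      have h1 := root_of_unity_all hgi hz hgα hzj
      have h2 : (α : ℝ) ^ j = 1 := by exact_mod_cast h1
      have h3 : 1 < α ^ j := one_lt_pow₀ hα1 (by omega)
      linarith
    · have hlb : -2 + 1 / (n : ℝ) ≤ ξ k := le_trans (up_pt_lb n hn _) (hξ k).1.le
      have h1n : (1 : ℝ) / n ≤ 4 := by
        have : (1 : ℝ) ≤ n := by exact_mod_cast hn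
        rw [div_le_iff₀ hn']; linarith
      have h := quad_re hz0 hzξ (by positivity) h1n hlb
      have he : (1 : ℝ) / n / 2 = 1 / (2 * n) := by field_simp
      rw [he] at h
      exact h
  · have h1 : lM g ≤ lM (RR P) := lM_le_of_dvd (RR_monic hP).1 hgd
    have h2 : lM (RR P) = _ := up_lM_prod hRmap
    have h3 := sum_quad n m hn (by omega) ξ hξ
    have h4 : (m : ℝ) ≤ g.natDegree := by exact_mod_cast hgle
    calc lM g ≤ 4 * m / n := by rw [h2] at h1; exact le_trans h1 h3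
      _ = 4 / n * m := by ring
      _ ≤ 4 / n * g.natDegree := by
        apply mul_le_mul_of_nonneg_left h4; positivity

end Pool.Agent.Lib.MP_45a27d_nt
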