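import Pool.Agent.Lib.MP_45a27d_nt.Up

set_option autoImplicit false

namespace Pool.Agent.Lib.MP_45a27d_nt

open Polynomial

/-- If `1/n ≥ ε²` and `Re z ≥ (-1 + 1/(2n)) ‖z‖` then `|arg z| ≤ π - ε`, because
`cos (π - ε) = -cos ε ≤ -1 + ε²/2`. -/
theorem not_mem_V {ε : ℝ} (h0 : 0 < ε) (h1 : ε ≤ 1) {n : ℕ} (hn : 0 < n)
    (hε : ε ^ 2 ≤ 1 / n) {z : ℂ} (hz : z ≠ 0)
    (h : (-1 + 1 / (2 * (n : ℝ))) * ‖z‖ ≤ z.re) : z ∉ V (Real.pi - ε) := by
  rintro ⟨-, hV⟩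
  have hzpos : 0 < ‖z‖ := norm_pos_iff.mpr hz
  have hpi := Real.pi_gt_three
  have hcos : Real.cos (Complex.arg z) < -1 + ε ^ 2 / 2 := by
    rw [← Real.cos_abs]
    have h2 : Real.cos |Complex.arg z| < Real.cos (Real.pi - ε) :=
      Real.cos_lt_cos_of_nonneg_of_le_pi (by linarith) (Complex.abs_arg_le_pi z) hV
    rw [Real.cos_pi_sub] at h2
    have h3 := Real.one_sub_sq_div_two_le_cos (x := ε)
    linarith
  have hre : z.re = ‖z‖ * Real.cos (Complex.arg z) := (Complex.norm_mul_cos_arg z).symm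
  have hn0 : (0 : ℝ) < n := by exact_mod_cast hn
  have h4 : ε ^ 2 / 2 ≤ 1 / (2 * (n : ℝ)) := by
    have : (1 : ℝ) / (2 * n) = (1 / n) / 2 := by
      field_simp
    rw [this]
    linarith
  have h5 : z.re < ‖z‖ * (-1 + ε ^ 2 / 2) := by
    rw [hre]
    exact mul_lt_mul_of_pos_left hcos hzpos
  have h6 : ‖z‖ * (-1 + ε ^ 2 / 2) ≤ (-1 + 1 / (2 * (n : ℝ))) * ‖z‖ := by
    rw [mul_comm]
    exact mul_le_mul_of_nonneg_right (by linarith) hzpos.le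
  linarith

/-- `n = ⌊1/ε²⌋`, so `ε² ≤ 1/n ≤ 2ε²`; `up_poly`, `not_mem_V`. -/
theorem up_bound {ε : ℝ} (h0 : 0 < ε) (h1 : ε ≤ 1) (N : ℕ) : ∃ P : ℤ[X],
    Adm (V (Real.pi - ε)) P ∧ N ≤ P.natDegree ∧ lM P ≤ 8 * ε ^ 2 * P.natDegree := by
  obtain ⟨n, hn⟩ : ∃ n : ℕ, n = ⌊1 / ε ^ 2⌋₊ := ⟨_, rfl⟩
  have he2 : 0 < ε ^ 2 := by positivity
  have he1 : 1 ≤ 1 / ε ^ 2 := by
    rw [le_div_iff₀ he2]
    nlinarith
  have hn1 : 1 ≤ n := by
    rw [hn]
    exact Nat.le_floor (by exact_mod_cast he1)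
  have hn0 : (0 : ℝ) < n := by exact_mod_cast hn1
  have hle : (n : ℝ) ≤ 1 / ε ^ 2 := by
    rw [hn]
    exact Nat.floor_le (by positivity)
  have hlt : 1 / ε ^ 2 < (n : ℝ) + 1 := by
    rw [hn]
    exact Nat.lt_floor_add_one _
  have h2 : ε ^ 2 ≤ 1 / n := by
    rw [le_div_iff₀ hn0, mul_comm]
    rwa [le_div_iff₀ he2] at hle
  have h3 : 1 / (n : ℝ) ≤ 2 * ε ^ 2 := by
    have hn1' : (1 : ℝ) ≤ n := by exact_mod_cast hn1
    rw [div_lt_iff₀ he2] at hlt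
    rw [div_le_iff₀ hn0]
    nlinarith
  obtain ⟨g, g1, g2, g3, g4, g5⟩ := up_poly n hn1 N
  refine ⟨g, ⟨g1, g2, fun z hz => ?_⟩, g3, ?_⟩
  · obtain ⟨a1, a2, a3⟩ := g4 z hz
    exact ⟨a1, a2, not_mem_V h0 h1 hn1 h2 a1 a3⟩
  · refine g5.trans ?_
    apply mul_le_mul_of_nonneg_right _ (Nat.cast_nonneg _)
    have : (4 : ℝ) / n = 4 * (1 / n) := by ring
    rw [this]
    linarith

/-- The polynomial `X² - 3X + 1` (roots `(3 ± √5)/2`, positive reals) is admissible for every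
sector, and `lM = log ((3+√5)/2) ≤ 1`. -/
theorem golden {θ : ℝ} (h0 : 0 < θ) : ∃ P : ℤ[X], Adm (V θ) P ∧ P.natDegree = 2 ∧ lM P ≤ 1 := by
  have hnd : (X ^ 2 - 3 * X + 1 : ℤ[X]).natDegree = 2 := by compute_degree!
  have hmon : (X ^ 2 - 3 * X + 1 : ℤ[X]).Monic := by
    unfold Monic leadingCoeff
    rw [hnd]
    have h3 : (3 : ℤ[X]) = C 3 := rfl
    rw [h3]
    simp [coeff_one, coeff_X]
  obtain ⟨s, hs⟩ : ∃ s : ℝ, s = Real.sqrt 5 := ⟨_, rfl⟩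
  have hs2 : s * s = 5 := by
    rw [hs]
    exact Real.mul_self_sqrt (by norm_num)
  have hs0 : 0 ≤ s := by
    rw [hs]
    exact Real.sqrt_nonneg 5
  have hsl : 2 < s := by nlinarith
  have hsu : s < 9 / 4 := by nlinarith
  have hmap : (X ^ 2 - 3 * X + 1 : ℤ[X]).map (Int.castRingHom ℂ) =
      (X - C (((3 + s) / 2 : ℝ) : ℂ)) * (X - C (((3 - s) / 2 : ℝ) : ℂ)) := by
    have e1 : (X - C (((3 + s) / 2 : ℝ) : ℂ)) * (X - C (((3 - s) / 2 : ℝ) : ℂ)) =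
        X ^ 2 - C ((((3 + s) / 2 : ℝ) : ℂ) + (((3 - s) / 2 : ℝ) : ℂ)) * X +
          C ((((3 + s) / 2 : ℝ) : ℂ) * (((3 - s) / 2 : ℝ) : ℂ)) := by
      rw [C_add, C_mul]
      ring
    have e2 : (((3 + s) / 2 : ℝ) : ℂ) + (((3 - s) / 2 : ℝ) : ℂ) = 3 := by
      rw [← Complex.ofReal_add]
      have : (3 + s) / 2 + (3 - s) / 2 = 3 := by ring
      rw [this]
      norm_num
    have e3 : (((3 + s) / 2 : ℝ) : ℂ) * (((3 - s) / 2 : ℝ) : ℂ) = 1 := by
      rw [← Complex.ofReal_mul]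
      have : (3 + s) / 2 * ((3 - s) / 2) = 1 := by nlinarith
      rw [this]
      norm_num
    rw [e1, e2, e3]
    have h3 : (C (3 : ℂ) : ℂ[X]) = 3 := rfl
    have h1 : (C (1 : ℂ) : ℂ[X]) = 1 := rfl
    rw [h3, h1]
    simp
  refine ⟨X ^ 2 - 3 * X + 1, ⟨?_, by rw [hnd]; norm_num, ?_⟩, hnd, ?_⟩
  · rw [hmon.irreducible_iff_roots_eq_zero_of_degree_le_three (by rw [hnd]) (by rw [hnd]; norm_num)]
    rw [Multiset.eq_zero_iff_forall_notMem]
    intro x hx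
    have hx' := (mem_roots hmon.ne_zero).mp hx
    have hx2 : x ^ 2 - 3 * x + 1 = 0 := by
      simpa [IsRoot] using hx'
    have hdvd : x * (3 - x) = 1 := by linarith [sq x, hx2, mul_comm x x, mul_sub x 3 x]
    rcases Int.eq_one_or_neg_one_of_mul_eq_one hdvd with h | h
    · rw [h] at hx2
      norm_num at hx2
    · rw [h] at hx2
      norm_num at hx2
  · intro z hz
    have hz2 : ((X ^ 2 - 3 * X + 1 : ℤ[X]).map (Int.castRingHom ℂ)).eval z = 0 := by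
      rw [eval_map]
      exact hz
    rw [hmap, eval_mul, eval_sub, eval_sub, eval_X, eval_C, eval_C] at hz2
    have key : ∀ a : ℝ, 0 < a → a ≠ 1 → (a : ℂ) ≠ 0 ∧ (∀ n : ℕ, 0 < n → (a : ℂ) ^ n ≠ 1) ∧
        (a : ℂ) ∉ V θ := by
      intro a ha ha1
      refine ⟨by exact_mod_cast ha.ne', fun n hn h => ?_, ?_⟩
      · have h2 : a ^ n = 1 := by exact_mod_cast h
        exact ha1 ((pow_eq_one_iff_of_nonneg ha.le hn.ne').mp h2)
      · rintro ⟨-, hV⟩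
        rw [Complex.arg_ofReal_of_nonneg ha.le, abs_zero] at hV
        linarith
    rcases mul_eq_zero.mp hz2 with h | h
    · rw [sub_eq_zero.mp h]
      exact key _ (by linarith) (by intro h'; linarith)
    · rw [sub_eq_zero.mp h]
      exact key _ (by linarith) (by intro h'; linarith)
  · unfold lM
    rw [hmap, mahlerMeasure_mul, mahlerMeasure_X_sub_C, mahlerMeasure_X_sub_C,
      Complex.norm_real, Complex.norm_real, Real.norm_of_nonneg (by linarith),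
      Real.norm_of_nonneg (by linarith), max_eq_right (by linarith), max_eq_left (by linarith),
      mul_one]
    have he := Real.exp_one_gt_d9
    have h2 : (3 + s) / 2 ≤ Real.exp 1 := by
      norm_num at he
      linarith
    calc Real.log ((3 + s) / 2) ≤ Real.log (Real.exp 1) :=
          Real.log_le_log (by linarith) h2
      _ = 1 := Real.log_exp 1

end Pool.Agent.Lib.MP_45a27d_nt
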