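import Pool.Agent.Lib.MP_45a27d_nt.AdmB

set_option autoImplicit false

namespace Pool.Agent.Lib.MP_45a27d_nt

open Polynomial

/-- Mahler measure `|a_d| ∏ max(1, |α_i|)` of an integer polynomial. -/
noncomputable def M (P : ℤ[X]) : ℝ :=
  |(P.leadingCoeff : ℝ)| * ((P.map (Int.castRingHom ℂ)).roots.map (fun z => max 1 ‖z‖)).prod

/-- `x = M(α)^(1/deg α)`, where `α` is a nonzero algebraic number, not a root of unity, all of
whose conjugates lie outside `U`; `P` is the minimal polynomial of `α` over `ℤ` (up to sign). -/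
def IsVal (U : Set ℂ) (α : ℂ) (x : ℝ) : Prop :=
  ∃ P : ℤ[X], Irreducible P ∧ aeval α P = 0 ∧ α ≠ 0 ∧
    (∀ n : ℕ, 0 < n → α ^ n ≠ 1) ∧ (∀ β : ℂ, aeval β P = 0 → β ∉ U) ∧
    x = M P ^ (1 / (P.natDegree : ℝ))

/-- The Lehmer-Langevin constant of `U`. -/
noncomputable def L (U : Set ℂ) : ℝ := sInf {x | ∃ α, IsVal U α x}

theorem one_le_M {P : ℤ[X]} (hP : P ≠ 0) : 1 ≤ M P := by
  have h1 : (1 : ℝ) ≤ |(P.leadingCoeff : ℝ)| := by
    have : P.leadingCoeff ≠ 0 := leadingCoeff_ne_zero.mpr hP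
    exact_mod_cast Int.one_le_abs this
  have h2 := one_le_prod_max_one_norm_roots (P.map (Int.castRingHom ℂ))
  unfold M
  nlinarith

theorem log_val {P : ℤ[X]} (hP : P ≠ 0) :
    Real.log (M P ^ (1 / (P.natDegree : ℝ))) = lM P / P.natDegree := by
  rw [Real.log_rpow (lt_of_lt_of_le one_pos (one_le_M hP)), lM_eq P hP]
  unfold M
  ring

theorem adm_of_val {U : Set ℂ} {α : ℂ} {x : ℝ} (h : IsVal U α x) :
    ∃ P : ℤ[X], Adm U P ∧ aeval α P = 0 ∧ 1 ≤ x ∧ Real.log x = lM P / P.natDegree := by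
  obtain ⟨P, hP, hα, h0, h1, hU, rfl⟩ := h
  refine ⟨P, adm_of_alpha hP hα h0 h1 hU, hα, ?_, log_val hP.ne_zero⟩
  exact Real.one_le_rpow (one_le_M hP.ne_zero) (by positivity)

theorem val_of_adm {U : Set ℂ} {P : ℤ[X]} (h : Adm U P) {α : ℂ} (hα : aeval α P = 0) :
    IsVal U α (M P ^ (1 / (P.natDegree : ℝ))) :=
  ⟨P, h.1, hα, (h.2.2 α hα).1, (h.2.2 α hα).2.1, fun β hβ => (h.2.2 β hβ).2.2, rfl⟩

end Pool.Agent.Lib.MP_45a27d_nt
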